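import Pool.Agent.Lib.MP_e54452_nt.Principal

namespace MPe54452

open Module

section alg

variable {H : Type*} [CommRing H] [Algebra ℚ H]

/-- If the kernel of `per` on a polynomial ring is principal, the values at all generators with at
most one exception are algebraically independent. -/
theorem all_but_one {σ : Type*} (e : MvPolynomial σ ℚ ≃ₐ[ℚ] H) (per : H →ₐ[ℚ] ℝ) (f : H)
    (hker : RingHom.ker per = Ideal.span {f}) :
    ∃ S : Set σ, S.Subsingleton ∧
      AlgebraicIndependent ℚ (fun j : {j // j ∉ S} => per (e (MvPolynomial.X j.1))) := by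
  classical
  have hcomp : ∀ S : Set σ, (MvPolynomial.aeval
      (fun j : {j // j ∉ S} => per (e (MvPolynomial.X j.1))) : MvPolynomial {j // j ∉ S} ℚ →ₐ[ℚ] ℝ) =
      (per.comp (e : MvPolynomial σ ℚ →ₐ[ℚ] H)).comp
        (MvPolynomial.rename (fun j : {j // j ∉ S} => j.1)) := by
    intro S
    ext j
    simp
  have hfker : per f = 0 := by
    rw [← RingHom.mem_ker, hker]
    exact Ideal.mem_span_singleton_self f
  by_cases hf : f = 0
  · refine ⟨∅, Set.subsingleton_empty, ?_⟩
    rw [algebraicIndependent_iff_injective_aeval, hcomp]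
    have hperinj : Function.Injective per := by
      rw [← AlgHom.coe_toRingHom, RingHom.injective_iff_ker_eq_bot]
      rw [hf] at hker
      rw [Ideal.span_singleton_eq_bot.mpr rfl] at hker
      exact hker
    exact (hperinj.comp e.injective).comp (MvPolynomial.rename_injective _ Subtype.val_injective)
  · have hf' : e.symm f ≠ 0 := fun h => hf (e.symm.injective (by rw [h, map_zero]))
    have hvars : (e.symm f).vars.Nonempty := by
      rw [Finset.nonempty_iff_ne_empty]
      intro hc
      rw [MvPolynomial.vars_eq_empty_iff_eq_C] at hc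
      have h2 : f = e (MvPolynomial.C (MvPolynomial.coeff 0 (e.symm f))) := by
        rw [← hc, AlgEquiv.apply_symm_apply]
      have h3 : per (e (MvPolynomial.C (MvPolynomial.coeff 0 (e.symm f)))) =
          ((MvPolynomial.coeff 0 (e.symm f) : ℚ) : ℝ) := by
        rw [← MvPolynomial.algebraMap_eq, AlgEquiv.commutes, AlgHom.commutes]
        rfl
      rw [← h2, hfker] at h3
      have h4 : MvPolynomial.coeff 0 (e.symm f) = 0 := by exact_mod_cast h3.symm
      rw [h4, MvPolynomial.C_0] at hc
      exact hf' hc
    obtain ⟨i, hi⟩ := hvars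
    refine ⟨{i}, Set.subsingleton_singleton, ?_⟩
    rw [algebraicIndependent_iff_injective_aeval, hcomp, injective_iff_map_eq_zero]
    intro q hq
    set Q : MvPolynomial σ ℚ := MvPolynomial.rename (fun j : {j // j ∉ ({i} : Set σ)} => j.1) q
      with hQ
    have hq' : per (e Q) = 0 := hq
    have hdvd : f ∣ e Q := by
      rw [← Ideal.mem_span_singleton, ← hker]
      exact hq'
    obtain ⟨g, hg⟩ := hdvd
    have hQ2 : Q = e.symm f * e.symm g := by
      rw [← map_mul, ← hg, AlgEquiv.symm_apply_apply]
    by_contra hq0
    have hQ0 : Q ≠ 0 := by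
      intro hc
      apply hq0
      apply MvPolynomial.rename_injective _ Subtype.val_injective
      rw [map_zero]
      exact hc
    have hg0 : e.symm g ≠ 0 := by
      intro hc
      rw [hc, mul_zero] at hQ2
      exact hQ0 hQ2
    have hdeg := MvPolynomial.degreeOf_mul_eq (n := i) hf' hg0
    rw [← hQ2] at hdeg
    have hpos : 0 < MvPolynomial.degreeOf i (e.symm f) := by
      rw [MvPolynomial.degreeOf_def, Multiset.count_pos]
      rw [MvPolynomial.vars_def, Multiset.mem_toFinset] at hi
      exact hi
    have hzero : MvPolynomial.degreeOf i Q = 0 := by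
      rw [MvPolynomial.degreeOf_def, Multiset.count_eq_zero]
      intro hc
      have h5 : i ∈ Q.vars := by
        rw [MvPolynomial.vars_def, Multiset.mem_toFinset]
        exact hc
      rw [hQ] at h5
      have h6 := MvPolynomial.vars_rename (fun j : {j // j ∉ ({i} : Set σ)} => j.1) q h5
      rw [Finset.mem_image] at h6
      obtain ⟨j, _, hj⟩ := h6
      exact j.2 hj
    omega

end alg

section dims

variable {H : Type*} [CommRing H] [IsDomain H] [Algebra ℚ H]

omit [IsDomain H] in
lemma hpoly_mul (b : Basis HW ℚ H) (hmul : ∀ u v : HW, b u * b v ∈ Hk b (wt u + wt v))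
    (x y : H) : hpoly b (x * y) = hpoly b x * hpoly b y := by
  by_contra hne
  have h1 := eval_ne_zero_of_homog b 0 (hpoly b (x * y) - hpoly b x * hpoly b y)
    (fun _ _ => Nat.zero_le _) (fun k _ => by
      rw [Nat.sub_zero, Polynomial.coeff_sub]
      refine (Hk b k).sub_mem (hpoly_mem b _ k) ?_
      rw [Polynomial.coeff_mul]
      refine Submodule.sum_mem _ ?_
      intro ij hij
      have hij' : ij.1 + ij.2 = k := Finset.HasAntidiagonal.mem_antidiagonal.mp hij
      rw [← hij']
      exact Hk_mul b hmul _ _ _ _ (hpoly_mem b _ _) (hpoly_mem b _ _)) (sub_ne_zero.mpr hne)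
  apply h1
  rw [Polynomial.eval_sub, Polynomial.eval_mul, hpoly_eval, hpoly_eval, hpoly_eval, sub_self]

omit [IsDomain H] in
lemma wt_le_natDegree (b : Basis HW ℚ H) (x : H) (w : HW) (hw : b.repr x w ≠ 0) :
    wt w ≤ (hpoly b x).natDegree := by
  apply Polynomial.le_natDegree_of_ne_zero
  intro hc
  have h1 := repr_eval b 0 (hpoly b x) (fun _ _ => Nat.zero_le _)
    (fun k _ => by rw [Nat.sub_zero]; exact hpoly_mem b x k) w
  rw [hpoly_eval, add_zero, hc, map_zero, Finsupp.zero_apply] at h1
  exact hw h1

/-- Elements of weight at most `n`. -/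
def HX (b : Basis HW ℚ H) (n : ℕ) : Submodule ℚ H := Submodule.span ℚ (b '' {w | wt w ≤ n})

omit [IsDomain H] in
lemma mem_HX_iff (b : Basis HW ℚ H) (n : ℕ) (h : H) :
    h ∈ HX b n ↔ (hpoly b h).natDegree ≤ n := by
  unfold HX
  rw [Basis.mem_span_image]
  constructor
  · intro hs
    apply hpoly_natDegree
    intro w hw
    exact hs (Finset.mem_coe.mpr (Finsupp.mem_support_iff.mpr hw))
  · intro hs w hw
    exact (wt_le_natDegree b h w (Finsupp.mem_support_iff.mp (Finset.mem_coe.mp hw))).trans hs

omit [IsDomain H] in
lemma finrank_HX (b : Basis HW ℚ H) (n : ℕ) :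
    FiniteDimensional ℚ (HX b n) ∧ finrank ℚ (HX b n) = {w : HW | wt w ≤ n}.ncard := by
  have hfin := (ncard_wt_le n).1
  refine ⟨FiniteDimensional.span_of_finite ℚ (hfin.image _), ?_⟩
  have hfin' : Finite {w : HW // wt w ≤ n} := hfin
  have := Fintype.ofFinite {w : HW // wt w ≤ n}
  have h1 : HX b n = Submodule.span ℚ (Set.range (fun w : {w : HW // wt w ≤ n} => b w)) := by
    unfold HX
    congr 1
    ext x
    constructor
    · rintro ⟨w, hw, rfl⟩
      exact ⟨⟨w, hw⟩, rfl⟩
    · rintro ⟨w, rfl⟩
      exact ⟨w, w.2, rfl⟩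
  have h2 := finrank_span_eq_card
    (b.linearIndependent.comp (fun w : {w : HW // wt w ≤ n} => (w : HW)) Subtype.val_injective)
  rw [h1]
  refine h2.trans ?_
  rw [← Nat.card_eq_fintype_card]
  rfl

/-- The dimension of the span of the values of weight at most `X` when the kernel is `(f)`. -/
theorem dim_formula (b : Basis HW ℚ H) (hmul : ∀ u v : HW, b u * b v ∈ Hk b (wt u + wt v))
    (per : H →ₐ[ℚ] ℝ) (f : H) (hf : f ≠ 0) (hker : RingHom.ker per = Ideal.span {f}) (X : ℕ) :
    finrank ℚ (Submodule.span ℚ (Set.range (fun w : {w : HW // wt w ≤ X} => per (b w)))) +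
      (if (hpoly b f).natDegree ≤ X then {w : HW | wt w ≤ X - (hpoly b f).natDegree}.ncard else 0) =
      {w : HW | wt w ≤ X}.ncard := by
  classical
  obtain ⟨hfd, hfr⟩ := finrank_HX b X
  let φ : HX b X →ₗ[ℚ] ℝ := per.toLinearMap.domRestrict (HX b X)
  have hrange : LinearMap.range φ =
      Submodule.span ℚ (Set.range (fun w : {w : HW // wt w ≤ X} => per (b w))) := by
    have h1 : LinearMap.range φ = Submodule.map per.toLinearMap (HX b X) := by
      rw [LinearMap.range_domRestrict]
    rw [h1]
    unfold HX
    rw [Submodule.map_span]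
    congr 1
    ext x
    constructor
    · rintro ⟨_, ⟨w, hw, rfl⟩, rfl⟩
      exact ⟨⟨w, hw⟩, rfl⟩
    · rintro ⟨w, rfl⟩
      exact ⟨b w, ⟨w, w.2, rfl⟩, rfl⟩
  have hrn := LinearMap.finrank_range_add_finrank_ker φ
  rw [hrange, hfr] at hrn
  rw [← hrn]
  congr 1
  have hdeg : ∀ a : H, a ≠ 0 → (hpoly b (f * a)).natDegree =
      (hpoly b f).natDegree + (hpoly b a).natDegree := by
    intro a ha
    rw [hpoly_mul b hmul, Polynomial.natDegree_mul (hpoly_ne_zero b f hf) (hpoly_ne_zero b a ha)]
  have hkerφ : ∀ x : HX b X, x ∈ LinearMap.ker φ ↔ ∃ a : H, (x : H) = f * a := by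
    intro x
    rw [LinearMap.mem_ker]
    have h2 : φ x = per (x : H) := rfl
    rw [h2, ← RingHom.mem_ker, hker, Ideal.mem_span_singleton]
    exact Iff.rfl
  split_ifs with hN
  · let N := (hpoly b f).natDegree
    have hperf : per f = 0 := by
      rw [← RingHom.mem_ker, hker]
      exact Ideal.mem_span_singleton_self f
    let ψ : HX b (X - N) →ₗ[ℚ] LinearMap.ker φ :=
      { toFun := fun a => ⟨⟨f * (a : H), by
            rw [mem_HX_iff]
            by_cases ha : (a : H) = 0
            · rw [ha, mul_zero]
              have : hpoly b (0 : H) = 0 := by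
                unfold hpoly
                simp
              rw [this]
              simp
            · rw [hdeg _ ha]
              have := (mem_HX_iff b _ _).mp a.2
              omega⟩, by
            rw [hkerφ]
            exact ⟨a, rfl⟩⟩
        map_add' := by
          intro x y
          apply Subtype.ext
          apply Subtype.ext
          simp [mul_add]
        map_smul' := by
          intro c x
          apply Subtype.ext
          apply Subtype.ext
          simp }
    have hbij : Function.Bijective ψ := by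
      constructor
      · intro x y hxy
        apply Subtype.ext
        have h3 : f * (x : H) = f * (y : H) :=
          congrArg (fun z : LinearMap.ker φ => ((z : HX b X) : H)) hxy
        exact mul_left_cancel₀ hf h3
      · intro y
        obtain ⟨a, ha⟩ := (hkerφ y.1).mp y.2
        have hamem : a ∈ HX b (X - N) := by
          rw [mem_HX_iff]
          by_cases ha0 : a = 0
          · rw [ha0]
            have : hpoly b (0 : H) = 0 := by
              unfold hpoly
              simp
            rw [this]
            simp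
          · have h4 := (mem_HX_iff b _ _).mp y.1.2
            rw [ha, hdeg a ha0] at h4
            omega
        refine ⟨⟨a, hamem⟩, ?_⟩
        apply Subtype.ext
        apply Subtype.ext
        exact ha.symm
    rw [← (finrank_HX b (X - N)).2]
    exact LinearEquiv.finrank_eq (LinearEquiv.ofBijective ψ hbij)
  · have h5 : LinearMap.ker φ = ⊥ := by
      rw [LinearMap.ker_eq_bot']
      intro x hx
      obtain ⟨a, ha⟩ := (hkerφ x).mp (LinearMap.mem_ker.mpr hx)
      by_cases ha0 : a = 0
      · rw [ha0, mul_zero] at ha
        exact Subtype.ext ha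
      · exfalso
        have h4 := (mem_HX_iff b _ _).mp x.2
        rw [ha, hdeg a ha0] at h4
        omega
    rw [h5, finrank_bot]

end dims

end MPe54452
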