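import Pool.Agent.Lib.MP_e54452_nt.Words

namespace MPe54452

open Filter Topology

/-- Shortest prefixes of weight at least `n`. -/
def code : ℕ → Finset (List ℕ)
  | 0 => {[]}
  | (n + 1) => (code (n - 1)).image (fun w => 2 :: w) ∪ (code (n - 2)).image (fun w => 3 :: w)

lemma code_zero : code 0 = {[]} := by rw [code]

lemma code_succ (n : ℕ) : code (n + 1) =
    (code (n - 1)).image (fun w => 2 :: w) ∪ (code (n - 2)).image (fun w => 3 :: w) := by
  rw [code]

lemma code_sum (x : ℝ) (hx : x ^ 2 + x ^ 3 = 1) (n : ℕ) : ∑ u ∈ code n, x ^ u.sum = 1 := by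
  induction n using Nat.strong_induction_on with
  | _ n ih =>
  match n with
  | 0 => simp [code_zero]
  | (n + 1) =>
    rw [code_succ, Finset.sum_union, Finset.sum_image, Finset.sum_image]
    · simp only [List.sum_cons, pow_add]
      rw [← Finset.mul_sum, ← Finset.mul_sum, ih (n - 1) (by omega), ih (n - 2) (by omega)]
      linarith
    · intro a _ b _ hab
      simpa using hab
    · intro a _ b _ hab
      simpa using hab
    · rw [Finset.disjoint_left]
      intro w h1 h2
      rw [Finset.mem_image] at h1 h2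
      obtain ⟨u, _, rfl⟩ := h1
      obtain ⟨v, _, hv⟩ := h2
      simp at hv

lemma code_weight (n : ℕ) : ∀ u ∈ code n, u.sum ≤ n + 2 ∧ (n = 0 → u.sum = 0) := by
  induction n using Nat.strong_induction_on with
  | _ n ih =>
  match n with
  | 0 => simp [code_zero]
  | (n + 1) =>
    intro u hu
    rw [code_succ, Finset.mem_union, Finset.mem_image, Finset.mem_image] at hu
    refine ⟨?_, by omega⟩
    rcases hu with ⟨v, hv, rfl⟩ | ⟨v, hv, rfl⟩
    · have h1 := ih (n - 1) (by omega) v hv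
      rw [List.sum_cons]
      rcases Nat.eq_zero_or_pos (n - 1) with h2 | h2
      · have := h1.2 h2
        omega
      · omega
    · have h1 := ih (n - 2) (by omega) v hv
      rw [List.sum_cons]
      rcases Nat.eq_zero_or_pos (n - 2) with h2 | h2
      · have := h1.2 h2
        omega
      · omega

lemma mem_code_self (B : List ℕ) (hB : ∀ a ∈ B, a = 2 ∨ a = 3) : B ∈ code B.sum := by
  induction B with
  | nil => simp [code_zero]
  | cons a B ih =>
    have hB' : ∀ b ∈ B, b = 2 ∨ b = 3 := fun b hb => hB b (List.mem_cons_of_mem _ hb)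
    have h1 := ih hB'
    rw [List.sum_cons]
    rcases hB a List.mem_cons_self with rfl | rfl
    · rw [show 2 + B.sum = (B.sum + 1) + 1 by ring, code_succ, Finset.mem_union]
      left
      rw [Nat.add_sub_cancel]
      exact Finset.mem_image_of_mem _ h1
    · rw [show 3 + B.sum = (B.sum + 2) + 1 by ring, code_succ, Finset.mem_union]
      right
      rw [Nat.add_sub_cancel]
      exact Finset.mem_image_of_mem _ h1

lemma exists_code_prefix (n : ℕ) : ∀ w : List ℕ, (∀ a ∈ w, a = 2 ∨ a = 3) → n ≤ w.sum →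
    ∃ u ∈ code n, ∃ v, w = u ++ v := by
  induction n using Nat.strong_induction_on with
  | _ n ih =>
  match n with
  | 0 =>
    intro w _ _
    exact ⟨[], by simp [code_zero], w, rfl⟩
  | (n + 1) =>
    intro w hw hsum
    cases w with
    | nil => simp at hsum
    | cons a w =>
      have hw' : ∀ b ∈ w, b = 2 ∨ b = 3 := fun b hb => hw b (List.mem_cons_of_mem _ hb)
      rw [List.sum_cons] at hsum
      rcases hw a List.mem_cons_self with rfl | rfl
      · obtain ⟨u, hu, v, rfl⟩ := ih (n - 1) (by omega) w hw' (by omega)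
        refine ⟨2 :: u, ?_, v, rfl⟩
        rw [code_succ, Finset.mem_union]
        left
        exact Finset.mem_image_of_mem _ hu
      · obtain ⟨u, hu, v, rfl⟩ := ih (n - 2) (by omega) w hw' (by omega)
        refine ⟨3 :: u, ?_, v, rfl⟩
        rw [code_succ, Finset.mem_union]
        right
        exact Finset.mem_image_of_mem _ hu

/-- Words of weight `k` without the block `B`. -/
def avoidL (B : List ℕ) (k : ℕ) : Finset (List ℕ) := (wordsL k).filter (fun w => ¬ B <:+: w)

lemma avoid_rec (B : List ℕ) (k : ℕ) (hk : B.sum + 3 ≤ k) :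
    (avoidL B k).card ≤ ∑ u ∈ (code B.sum).erase B, (avoidL B (k - u.sum)).card := by
  have hsub : avoidL B k ⊆ ((code B.sum).erase B).biUnion
      (fun u => (avoidL B (k - u.sum)).image (fun v => u ++ v)) := by
    intro w hw
    unfold avoidL at hw
    rw [Finset.mem_filter, mem_wordsL] at hw
    obtain ⟨⟨hw1, hw2⟩, hw3⟩ := hw
    obtain ⟨u, hu, v, rfl⟩ := exists_code_prefix B.sum w hw1 (by omega)
    rw [Finset.mem_biUnion]
    refine ⟨u, ?_, ?_⟩
    · rw [Finset.mem_erase]
      refine ⟨?_, hu⟩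
      rintro rfl
      exact hw3 (List.prefix_append u v).isInfix
    · apply Finset.mem_image_of_mem
      unfold avoidL
      rw [Finset.mem_filter, mem_wordsL]
      refine ⟨⟨fun a ha => hw1 a (List.mem_append_right _ ha), ?_⟩, ?_⟩
      · rw [List.sum_append] at hw2
        omega
      · intro hc
        exact hw3 (hc.trans (List.suffix_append u v).isInfix)
  refine (Finset.card_le_card hsub).trans (Finset.card_biUnion_le.trans ?_)
  exact Finset.sum_le_sum (fun u _ => Finset.card_image_le)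

/-- The root of `x ^ 2 + x ^ 3 = 1`. -/
lemma exists_root : ∃ x : ℝ, 0 < x ∧ x < 1 ∧ x ^ 2 + x ^ 3 = 1 := by
  have h := intermediate_value_Icc (α := ℝ) (δ := ℝ) (a := 0) (b := 1) (f := fun x => x ^ 2 + x ^ 3)
    (by norm_num) (by fun_prop)
  obtain ⟨x, hx, hx1⟩ := h (show (1 : ℝ) ∈ Set.Icc _ _ by constructor <;> norm_num)
  have hx1' : x ^ 2 + x ^ 3 = 1 := hx1
  refine ⟨x, ?_, ?_, hx1'⟩
  · rcases eq_or_lt_of_le hx.1 with h0 | h0
    · rw [← h0] at hx1'
      norm_num at hx1'
    · exact h0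
  · rcases eq_or_lt_of_le hx.2 with h0 | h0
    · rw [h0] at hx1'
      norm_num at hx1'
    · exact h0

/-- Words avoiding a block have strictly smaller exponential growth. -/
theorem avoid_growth (B : List ℕ) (hB : ∀ a ∈ B, a = 2 ∨ a = 3) :
    ∃ C θ : ℝ, 0 ≤ C ∧ 1 ≤ θ ∧ θ ^ 3 < θ + 1 ∧ ∀ k, ((avoidL B k).card : ℝ) ≤ C * θ ^ k := by
  obtain ⟨x0, hx0, hx01, hroot⟩ := exists_root
  let G : ℝ → ℝ := fun x => ∑ u ∈ (code B.sum).erase B, x ^ u.sum
  have hG0 : G x0 < 1 := by
    have h1 := code_sum x0 hroot B.sum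
    rw [← Finset.add_sum_erase _ _ (mem_code_self B hB)] at h1
    have h2 : 0 < x0 ^ B.sum := pow_pos hx0 _
    change ∑ u ∈ (code B.sum).erase B, x0 ^ u.sum < 1
    linarith
  have hGc : Continuous G := by
    apply continuous_finsetSum
    intro u _
    fun_prop
  have hev : ∀ᶠ x in 𝓝 x0, G x < 1 := hGc.continuousAt.eventually (gt_mem_nhds hG0)
  have hev2 : ∀ᶠ x in 𝓝 x0, x < 1 := gt_mem_nhds hx01
  obtain ⟨ε, hε, hball⟩ := Metric.eventually_nhds_iff.mp (hev.and hev2)
  obtain ⟨x, hx⟩ : ∃ x, x = x0 + ε / 2 := ⟨_, rfl⟩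
  have hxx := hball (y := x) (by
    rw [hx, Real.dist_eq]
    rw [show x0 + ε / 2 - x0 = ε / 2 by ring, abs_of_pos (by linarith)]
    linarith)
  have hxgt : x0 < x := by rw [hx]; linarith
  have hxpos : 0 < x := hx0.trans hxgt
  have hx23 : 1 < x ^ 2 + x ^ 3 := by
    have h3 : x0 ^ 2 < x ^ 2 := pow_lt_pow_left₀ hxgt hx0.le (by norm_num)
    have h4 : x0 ^ 3 < x ^ 3 := pow_lt_pow_left₀ hxgt hx0.le (by norm_num)
    linarith
  obtain ⟨θ, hθ⟩ : ∃ θ, θ = x⁻¹ := ⟨_, rfl⟩
  have hθpos : 0 < θ := by rw [hθ]; positivity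
  have hθ1 : 1 ≤ θ := by
    rw [hθ]
    exact (one_le_inv₀ hxpos).mpr hxx.2.le
  have hxθ : x = θ⁻¹ := by rw [hθ, inv_inv]
  have hθ3 : θ ^ 3 < θ + 1 := by
    have h5 : θ ^ 3 * 1 < θ ^ 3 * (x ^ 2 + x ^ 3) := mul_lt_mul_of_pos_left hx23 (by positivity)
    have h6 : θ ^ 3 * (x ^ 2 + x ^ 3) = θ + 1 := by
      rw [hxθ]
      field_simp
    linarith
  obtain ⟨C, hC⟩ : ∃ C : ℝ, C = ∑ k ∈ Finset.range (B.sum + 3), ((avoidL B k).card : ℝ) := ⟨_, rfl⟩
  have hC0 : 0 ≤ C := by
    rw [hC]
    exact Finset.sum_nonneg (fun i _ => Nat.cast_nonneg _)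
  refine ⟨C, θ, hC0, hθ1, hθ3, ?_⟩
  intro k
  induction k using Nat.strong_induction_on with
  | _ k ih =>
  by_cases hk : k < B.sum + 3
  · have h7 : ((avoidL B k).card : ℝ) ≤ C := by
      rw [hC]
      exact Finset.single_le_sum (f := fun k => ((avoidL B k).card : ℝ))
        (fun i _ => Nat.cast_nonneg _) (Finset.mem_range.mpr hk)
    exact h7.trans (le_mul_of_one_le_right hC0 (one_le_pow₀ hθ1))
  · have h8 := avoid_rec B k (by omega)
    by_cases hB0 : B = []
    · -- nothing avoids the empty block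
      subst hB0
      have : avoidL [] k = ∅ := by
        unfold avoidL
        rw [Finset.filter_eq_empty_iff]
        intro w _ hc
        exact hc (List.nil_prefix.isInfix)
      rw [this]
      simp only [Finset.card_empty, Nat.cast_zero]
      positivity
    have hpos : ∀ u ∈ (code B.sum).erase B, 0 < u.sum → ((avoidL B (k - u.sum)).card : ℝ) ≤
        C * θ ^ k * x ^ u.sum := by
      intro u hu hu0
      have h9 := (code_weight B.sum u (Finset.mem_of_mem_erase hu)).1
      refine (ih (k - u.sum) (by omega)).trans (le_of_eq ?_)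
      rw [hxθ, inv_pow, mul_assoc]
      congr 1
      rw [eq_mul_inv_iff_mul_eq₀ (by positivity), ← pow_add]
      congr 1
      omega
    have hBsum : 0 < B.sum := by
      cases B with
      | nil => exact absurd rfl hB0
      | cons a B =>
        have := hB a List.mem_cons_self
        rw [List.sum_cons]
        omega
    have hcodepos : ∀ n, 0 < n → ∀ u ∈ code n, 0 < u.sum := by
      intro n hn u hu
      obtain ⟨m, rfl⟩ : ∃ m, n = m + 1 := ⟨n - 1, by omega⟩
      rw [code_succ, Finset.mem_union, Finset.mem_image, Finset.mem_image] at hu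
      rcases hu with ⟨v, _, rfl⟩ | ⟨v, _, rfl⟩
      · rw [List.sum_cons]; omega
      · rw [List.sum_cons]; omega
    calc ((avoidL B k).card : ℝ)
        ≤ ∑ u ∈ (code B.sum).erase B, ((avoidL B (k - u.sum)).card : ℝ) := by exact_mod_cast h8
      _ ≤ ∑ u ∈ (code B.sum).erase B, C * θ ^ k * x ^ u.sum :=
          Finset.sum_le_sum (fun u hu => hpos u hu
            (hcodepos B.sum hBsum u (Finset.mem_of_mem_erase hu)))
      _ = C * θ ^ k * G x := by rw [← Finset.mul_sum]
      _ ≤ C * θ ^ k * 1 := mul_le_mul_of_nonneg_left hxx.1.le (by positivity)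
      _ = C * θ ^ k := mul_one _

/-- The same for Hoffman words. -/
theorem avoid_growth_HW (B : HW) :
    ∃ C θ : ℝ, 0 ≤ C ∧ 1 ≤ θ ∧ θ ^ 3 < θ + 1 ∧
      ∀ k, ({w : HW | wt w = k ∧ w ∉ {w : HW | B.1 <:+: w.1}}.ncard : ℝ) ≤ C * θ ^ k := by
  obtain ⟨C, θ, hC, h1, h3, hk⟩ := avoid_growth B.1 B.2
  refine ⟨C, θ, hC, h1, h3, fun k => le_trans ?_ (hk k)⟩
  have hsub : (fun w : HW => w.1) '' {w : HW | wt w = k ∧ w ∉ {w : HW | B.1 <:+: w.1}} ⊆
      (avoidL B.1 k : Set (List ℕ)) := by
    rintro _ ⟨w, ⟨hw1, hw2⟩, rfl⟩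
    unfold avoidL
    rw [Finset.coe_filter]
    exact ⟨(mem_wordsL k w.1).mpr ⟨w.2, hw1⟩, hw2⟩
  have h4 := Set.ncard_le_ncard hsub (Finset.finite_toSet _)
  rw [Subtype.val_injective.injOn.ncard_image, Set.ncard_coe_finset] at h4
  exact_mod_cast h4

end MPe54452
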