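import Mathlib

namespace MPe54452

/-- The number of elements of `K` in intervals `[X, 2X)` is unbounded. -/
def DyadicUnbounded (K : Set ℕ) : Prop :=
  ∀ n : ℕ, ∃ X : ℕ, n ≤ (K ∩ Set.Ico X (2 * X)).ncard

/-- Pigeonhole: short windows with many elements of `K`. -/
theorem DyadicUnbounded.window {K : Set ℕ} (hK : DyadicUnbounded K) (n C : ℕ) :
    ∃ k δ : ℕ, C * (δ + 1) ≤ k ∧ n ≤ (K ∩ Set.Icc k (k + δ)).ncard := by
  rcases Nat.eq_zero_or_pos n with rfl | hn
  · exact ⟨C, 0, by simp, Nat.zero_le _⟩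
  obtain ⟨X, hX⟩ := hK (2 * (C + 1) * n)
  have hXle : (K ∩ Set.Ico X (2 * X)).ncard ≤ X := by
    have h1 : (K ∩ Set.Ico X (2 * X)).ncard ≤ (Set.Ico X (2 * X)).ncard :=
      Set.ncard_le_ncard Set.inter_subset_right (Set.finite_Ico _ _)
    have h2 : (Set.Ico X (2 * X)).ncard = X := by
      rw [← Finset.coe_Ico, Set.ncard_coe_finset, Nat.card_Ico]
      omega
    omega
  have hXC : C + 1 ≤ X := by
    have : C + 1 ≤ 2 * (C + 1) * n := by nlinarith
    omega
  obtain ⟨L, hL⟩ : ∃ L, L = X / (C + 1) := ⟨_, rfl⟩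
  have hL1 : 1 ≤ L := by
    rw [hL]
    exact (Nat.one_le_div_iff (by omega)).mpr hXC
  have hLX : (C + 1) * L ≤ X := by
    rw [hL]
    exact Nat.mul_div_le _ _
  have hXL : X < 2 * (C + 1) * L := by
    have h3 : X < (C + 1) * (L + 1) := by
      rw [hL]
      exact Nat.lt_mul_div_succ X (by omega)
    nlinarith
  by_contra hcon
  push Not at hcon
  have hwin : ∀ i : ℕ, (K ∩ Set.Icc (X + i * L) (X + i * L + (L - 1))).ncard < n := by
    intro i
    apply hcon
    have : L - 1 + 1 = L := by omega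
    rw [this]
    nlinarith
  have hcover : K ∩ Set.Ico X (2 * X) ⊆
      ⋃ i ∈ Finset.range (2 * (C + 1)), K ∩ Set.Icc (X + i * L) (X + i * L + (L - 1)) := by
    rintro m ⟨hmK, hm1, hm2⟩
    rw [Set.mem_iUnion₂]
    have hdiv := Nat.div_add_mod (m - X) L
    have hmod := Nat.mod_lt (m - X) (by omega : L > 0)
    refine ⟨(m - X) / L, ?_, hmK, ?_, ?_⟩
    · rw [Finset.mem_range]
      rw [Nat.div_lt_iff_lt_mul (by omega)]
      omega
    · have : (m - X) / L * L = L * ((m - X) / L) := Nat.mul_comm _ _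
      omega
    · have : (m - X) / L * L = L * ((m - X) / L) := Nat.mul_comm _ _
      omega
  have hfin : (⋃ i ∈ Finset.range (2 * (C + 1)),
      K ∩ Set.Icc (X + i * L) (X + i * L + (L - 1))).Finite := by
    apply Set.Finite.biUnion (Finset.finite_toSet _)
    intro i _
    exact (Set.finite_Icc _ _).subset Set.inter_subset_right
  have hle : (K ∩ Set.Ico X (2 * X)).ncard ≤
      ∑ i ∈ Finset.range (2 * (C + 1)), (K ∩ Set.Icc (X + i * L) (X + i * L + (L - 1))).ncard := by
    refine (Set.ncard_le_ncard hcover hfin).trans ?_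
    exact Finset.set_ncard_biUnion_le _ _
  have hlt : ∑ i ∈ Finset.range (2 * (C + 1)),
      (K ∩ Set.Icc (X + i * L) (X + i * L + (L - 1))).ncard <
      ∑ i ∈ Finset.range (2 * (C + 1)), n := by
    apply Finset.sum_lt_sum_of_nonempty
    · rw [Finset.nonempty_range_iff]
      omega
    · intro i _
      exact hwin i
  rw [Finset.sum_const, Finset.card_range, smul_eq_mul] at hlt
  omega

/-- Sets with divergent sum of reciprocals are dyadically unbounded. -/
theorem dyadicUnbounded_of_not_summable (K : Set ℕ)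
    (hK : ¬ Summable (Set.indicator K (fun n : ℕ => (1 : ℝ) / n))) : DyadicUnbounded K := by
  classical
  by_contra hcon
  unfold DyadicUnbounded at hcon
  push Not at hcon
  obtain ⟨n, hn⟩ := hcon
  apply hK
  have hpos : ∀ i, 0 ≤ Set.indicator K (fun n : ℕ => (1 : ℝ) / n) i := by
    intro i
    apply Set.indicator_nonneg
    intro j _
    positivity
  have hblock : ∀ M : ℕ, ∑ k ∈ Finset.Ico (2 ^ M) (2 ^ (M + 1)),
      Set.indicator K (fun n : ℕ => (1 : ℝ) / n) k ≤ (n : ℝ) / 2 ^ M := by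
    intro M
    have h1 := hn (2 ^ M)
    have h2 : 2 * 2 ^ M = 2 ^ (M + 1) := by ring
    rw [h2] at h1
    have h3 : (K ∩ Set.Ico (2 ^ M) (2 ^ (M + 1))) =
        (((Finset.Ico (2 ^ M) (2 ^ (M + 1))).filter (· ∈ K) : Finset ℕ) : Set ℕ) := by
      ext k
      simp only [Set.mem_inter_iff, Set.mem_Ico, Finset.coe_filter, Finset.mem_Ico,
        Set.mem_ofPred_eq]
      tauto
    rw [h3, Set.ncard_coe_finset] at h1
    calc ∑ k ∈ Finset.Ico (2 ^ M) (2 ^ (M + 1)), Set.indicator K (fun n : ℕ => (1 : ℝ) / n) k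
        = ∑ k ∈ (Finset.Ico (2 ^ M) (2 ^ (M + 1))).filter (· ∈ K), (1 : ℝ) / k := by
          rw [Finset.sum_filter]
          refine Finset.sum_congr rfl (fun k _ => ?_)
          rw [Set.indicator_apply]
      _ ≤ ∑ k ∈ (Finset.Ico (2 ^ M) (2 ^ (M + 1))).filter (· ∈ K), (1 : ℝ) / 2 ^ M := by
          refine Finset.sum_le_sum (fun k hk => ?_)
          have hk1 := (Finset.mem_Ico.mp (Finset.mem_filter.mp hk).1).1
          apply one_div_le_one_div_of_le (by positivity)
          exact_mod_cast hk1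
      _ = (((Finset.Ico (2 ^ M) (2 ^ (M + 1))).filter (· ∈ K)).card : ℝ) / 2 ^ M := by
          rw [Finset.sum_const, nsmul_eq_mul]
          ring
      _ ≤ (n : ℝ) / 2 ^ M := by
          apply div_le_div_of_nonneg_right _ (by positivity)
          exact_mod_cast h1.le
  have hpow : ∀ M : ℕ, ∑ k ∈ Finset.range (2 ^ M),
      Set.indicator K (fun n : ℕ => (1 : ℝ) / n) k ≤ n * (2 - 2 / 2 ^ M) := by
    intro M
    induction M with
    | zero =>
      simp [Set.indicator_apply]
    | succ M ih =>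
      rw [← Finset.sum_range_add_sum_Ico _ (Nat.pow_le_pow_right (by norm_num) (Nat.le_succ M))]
      have h4 := hblock M
      have h5 : (n : ℝ) * (2 - 2 / 2 ^ M) + n / 2 ^ M = n * (2 - 2 / 2 ^ (M + 1)) := by
        rw [pow_succ]
        field_simp
        ring
      linarith
  refine summable_of_sum_range_le (c := 2 * (n : ℝ)) hpos ?_
  intro N
  calc ∑ k ∈ Finset.range N, Set.indicator K (fun n : ℕ => (1 : ℝ) / n) k
      ≤ ∑ k ∈ Finset.range (2 ^ N), Set.indicator K (fun n : ℕ => (1 : ℝ) / n) k := by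
        apply Finset.sum_le_sum_of_subset_of_nonneg
        · exact Finset.range_subset_range.mpr Nat.lt_two_pow_self.le
        · intro i _ _
          exact hpos i
    _ ≤ n * (2 - 2 / 2 ^ N) := hpow N
    _ ≤ 2 * (n : ℝ) := by
        have : (0 : ℝ) ≤ n * (2 / 2 ^ N) := by positivity
        nlinarith

theorem dyadicUnbounded_primes : DyadicUnbounded {p : ℕ | p.Prime} :=
  dyadicUnbounded_of_not_summable _ not_summable_one_div_on_primes

/-- Perfect `d`-th powers are dyadically unbounded. -/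
theorem dyadicUnbounded_pow (d : ℕ) (hd : 1 ≤ d) : DyadicUnbounded (Set.range (fun n => n ^ d)) := by
  intro n
  rcases Nat.eq_zero_or_pos n with rfl | hn
  · exact ⟨0, Nat.zero_le _⟩
  obtain ⟨N, hN⟩ : ∃ N, N = 2 * n * d := ⟨_, rfl⟩
  have hN0 : 0 < N := by rw [hN]; positivity
  have hlt : (N + n) ^ d < 2 * N ^ d := by
    have h1 : ((N + n : ℕ) : ℝ) ^ d < 2 * (N : ℝ) ^ d := by
      have h2 : ((N + n : ℕ) : ℝ) = N * (1 + (n : ℝ) / N) := by
        push_cast
        field_simp
      have h3 : (1 + (n : ℝ) / N) ^ d ≤ Real.exp ((n : ℝ) / N * d) := by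
        have h4 : 1 + (n : ℝ) / N ≤ Real.exp ((n : ℝ) / N) := by
          linarith [Real.add_one_le_exp ((n : ℝ) / N)]
        calc (1 + (n : ℝ) / N) ^ d ≤ (Real.exp ((n : ℝ) / N)) ^ d :=
              pow_le_pow_left₀ (by positivity) h4 d
          _ = Real.exp ((n : ℝ) / N * d) := by
              rw [← Real.exp_nat_mul]
              ring_nf
      have h5 : (n : ℝ) / N * d = 1 / 2 := by
        rw [hN]
        push_cast
        field_simp
      have h6 : Real.exp (1 / 2) < 2 := by
        have h7 : Real.exp (1 / 2) ^ 2 < 2 ^ 2 := by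
          rw [← Real.exp_nat_mul]
          norm_num
          linarith [Real.exp_one_lt_d9]
        exact lt_of_pow_lt_pow_left₀ 2 (by norm_num) h7
      rw [h2, mul_pow]
      rw [h5] at h3
      have h8 : (0 : ℝ) < (N : ℝ) ^ d := by positivity
      nlinarith
    exact_mod_cast h1
  refine ⟨N ^ d, ?_⟩
  have hsub : ((fun i => (N + i) ^ d) '' (Set.Iio n)) ⊆
      Set.range (fun n => n ^ d) ∩ Set.Ico (N ^ d) (2 * N ^ d) := by
    rintro _ ⟨i, hi, rfl⟩
    have hi' : i < n := hi
    refine ⟨⟨N + i, rfl⟩, ?_, ?_⟩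
    · exact Nat.pow_le_pow_left (Nat.le_add_right _ _) d
    · exact lt_of_le_of_lt (Nat.pow_le_pow_left (by omega) d) hlt
  have hinj : Set.InjOn (fun i => (N + i) ^ d) (Set.Iio n) := by
    intro i _ j _ hij
    have := Nat.pow_left_injective (by omega : d ≠ 0) hij
    omega
  calc n = (Set.Iio n).ncard := by
        rw [← Finset.coe_Iio, Set.ncard_coe_finset, Nat.card_Iio]
    _ = ((fun i => (N + i) ^ d) '' (Set.Iio n)).ncard := (hinj.ncard_image).symm
    _ ≤ _ := Set.ncard_le_ncard hsub ((Set.finite_Ico _ _).subset Set.inter_subset_right)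

end MPe54452
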