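import Mathlib

namespace MPe54452

variable {R : Type*} [CommRing R]

/-- A product of elements of `V g` lies in `V (g * number of factors)`. -/
lemma prod_mem_graded (V : ℕ → AddSubgroup R) (h1 : (1 : R) ∈ V 0)
    (hmul : ∀ k l a b, a ∈ V k → b ∈ V l → a * b ∈ V (k + l))
    {ι : Type*} (s : Finset ι) (m : ι → R) (g : ℕ)
    (hm : ∀ i ∈ s, m i ∈ V g) : ∏ i ∈ s, m i ∈ V (g * s.card) := by
  classical
  induction s using Finset.induction_on with
  | empty => simpa using h1
  | insert a s ha ih =>
    rw [Finset.prod_insert ha, Finset.card_insert_of_notMem ha]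
    have h2 := hmul _ _ _ _ (hm a (Finset.mem_insert_self a s))
      (ih (fun i hi => hm i (Finset.mem_insert_of_mem hi)))
    have h3 : g + g * s.card = g * (s.card + 1) := by ring
    rwa [h3] at h2

/-- The determinant of a square matrix with entries in `V g`. -/
lemma det_mem_graded (V : ℕ → AddSubgroup R) (h1 : (1 : R) ∈ V 0)
    (hmul : ∀ k l a b, a ∈ V k → b ∈ V l → a * b ∈ V (k + l))
    {n : ℕ} (M : Matrix (Fin n) (Fin n) R) (g : ℕ) (hM : ∀ i j, M i j ∈ V g) :
    M.det ∈ V (g * n) := by
  rw [Matrix.det_apply]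
  refine AddSubgroup.sum_mem _ ?_
  intro σ _
  have h2 := prod_mem_graded V h1 hmul (Finset.univ : Finset (Fin n)) (fun i => M (σ i) i) g
    (fun i _ => hM _ _)
  rw [Finset.card_univ, Fintype.card_fin] at h2
  rcases Int.units_eq_one_or (Equiv.Perm.sign σ) with hs | hs
  · rw [hs, one_smul]
    exact h2
  · rw [hs]
    simp only [Units.neg_smul, one_smul]
    exact (V (g * n)).neg_mem h2

/-- A homogeneous linear system with more unknowns than equations and coefficients in `V g` has
a nonzero solution with all coordinates in one `V (g * ρ)`, `ρ ≤` number of equations. -/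
theorem exists_kernel_graded [Nontrivial R] (V : ℕ → AddSubgroup R) (h1 : (1 : R) ∈ V 0)
    (hmul : ∀ k l a b, a ∈ V k → b ∈ V l → a * b ∈ V (k + l))
    {P Q : Type*} [Fintype P] [Fintype Q] (M : P → Q → R) (g : ℕ)
    (hM : ∀ k l, M k l ∈ V g) (hcard : Fintype.card P < Fintype.card Q) :
    ∃ ρ ≤ Fintype.card P, ∃ C : Q → R, C ≠ 0 ∧ (∀ l, C l ∈ V (g * ρ)) ∧
      ∀ k, ∑ l, M k l * C l = 0 := by
  classical
  let S : ℕ → Prop := fun ρ => ∃ f : Fin ρ → P, ∃ h : Fin ρ → Q,
    (Matrix.of fun i j => M (f i) (h j)).det ≠ 0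
  have hS0 : S 0 := ⟨Fin.elim0, Fin.elim0, by simp⟩
  have hbound : ∀ ρ, S ρ → ρ ≤ Fintype.card P := by
    intro ρ hρ
    obtain ⟨f, h, hd⟩ := hρ
    have hf : Function.Injective f := by
      intro i j hij
      by_contra hne
      apply hd
      apply Matrix.det_zero_of_row_eq hne
      ext k
      simp [hij]
    simpa using Fintype.card_le_of_injective f hf
  set ρ := Nat.findGreatest S (Fintype.card P) with hρdef
  have hρle : ρ ≤ Fintype.card P := Nat.findGreatest_le _
  have hρS : S ρ := Nat.findGreatest_spec (P := S) (Nat.zero_le _) hS0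
  have hρmax : ¬ S (ρ + 1) := by
    intro hc
    have h2 := hbound _ hc
    have h3 : ρ + 1 ≤ ρ := Nat.le_findGreatest h2 hc
    omega
  obtain ⟨f, h, hd⟩ := hρS
  have hhinj : Function.Injective h := by
    intro i j hij
    by_contra hne
    apply hd
    apply Matrix.det_zero_of_column_eq hne
    intro k
    simp [hij]
  have hnsurj : ∃ q, ∀ i, h i ≠ q := by
    by_contra hc
    push Not at hc
    have h4 := Fintype.card_le_of_surjective h (fun q => hc q)
    rw [Fintype.card_fin] at h4
    omega
  obtain ⟨q, hq⟩ := hnsurj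
  let col : Fin (ρ + 1) → Q := Fin.cons q h
  let D : Fin (ρ + 1) → R := fun j =>
    (-1) ^ (j : ℕ) * (Matrix.of fun (i : Fin ρ) (j' : Fin ρ) => M (f i) (col (j.succAbove j'))).det
  refine ⟨ρ, hρle, fun l => ∑ j, if col j = l then D j else 0, ?_, ?_, ?_⟩
  · intro hc
    have h5 := congrFun hc q
    simp only [Pi.zero_apply] at h5
    rw [Finset.sum_eq_single (0 : Fin (ρ + 1))] at h5
    · have h6 : col 0 = q := rfl
      rw [if_pos h6] at h5
      apply hd
      simpa [D, col] using h5
    · intro j _ hj
      rw [if_neg]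
      obtain ⟨i, rfl⟩ := Fin.exists_succ_eq.mpr hj
      exact hq i
    · simp
  · intro l
    refine AddSubgroup.sum_mem _ ?_
    intro j _
    split_ifs
    · have h7 := det_mem_graded V h1 hmul
        (Matrix.of fun (i : Fin ρ) (j' : Fin ρ) => M (f i) (col (j.succAbove j'))) g
        (fun i j' => hM _ _)
      simp only [D]
      rcases neg_one_pow_eq_or R (j : ℕ) with hs | hs
      · rw [hs, one_mul]; exact h7
      · rw [hs, neg_one_mul]; exact (V (g * ρ)).neg_mem h7
    · exact (V (g * ρ)).zero_mem
  · intro k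
    have h8 : ∑ l, M k l * (∑ j, if col j = l then D j else 0) = ∑ j, M k (col j) * D j := by
      simp only [Finset.mul_sum]
      rw [Finset.sum_comm]
      refine Finset.sum_congr rfl ?_
      intro j _
      rw [Finset.sum_eq_single (col j)]
      · simp
      · intro l _ hl
        rw [if_neg (fun h => hl h.symm), mul_zero]
      · simp
    rw [h8]
    by_contra hne
    apply hρmax
    refine ⟨Fin.cons k f, col, ?_⟩
    rw [Matrix.det_succ_row_zero]
    intro hc
    apply hne
    rw [← hc]
    refine Finset.sum_congr rfl ?_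
    intro j _
    simp only [D, Matrix.of_apply, Fin.cons_zero]
    have h9 : (Matrix.of fun (i : Fin ρ) (j' : Fin ρ) => M (f i) (col (j.succAbove j'))) =
        ((Matrix.of fun i j => M ((Fin.cons k f : Fin (ρ + 1) → P) i) (col j)).submatrix
          Fin.succ j.succAbove) := by
      ext i j'
      simp [Matrix.submatrix_apply]
    rw [h9]
    ring

end MPe54452
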