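import Pool.Agent.Lib.MP_e54452_nt.Mzv

namespace MPe54452

open Module

/-- The span of the values `mzv c.blocks` over the compositions `c` of `k`. -/
noncomputable def W (k : ℕ) : Submodule ℚ ℝ :=
  Submodule.span ℚ (Set.range (fun c : Composition k => mzv c.blocks))

lemma Z_le_W (k : ℕ) : Z k ≤ W k := by
  apply Submodule.span_mono
  rintro x ⟨s, hs, hsum, rfl⟩
  exact ⟨⟨s, fun hi => hs.pos _ hi, hsum⟩, rfl⟩

instance (k : ℕ) : FiniteDimensional ℚ (W k) :=
  FiniteDimensional.span_of_finite ℚ (Set.finite_range _)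

instance instFiniteZ (k : ℕ) : FiniteDimensional ℚ (Z k) :=
  Submodule.finiteDimensional_of_le (Z_le_W k)

lemma finrank_Z_le (k : ℕ) : finrank ℚ (Z k) ≤ 2 ^ k := by
  have h1 := Submodule.finrank_mono (Z_le_W k)
  have h2 : finrank ℚ (W k) ≤ Fintype.card (Composition k) :=
    finrank_range_le_card (R := ℚ) (b := fun c : Composition k => mzv c.blocks)
  rw [composition_card] at h2
  have h3 : 2 ^ (k - 1) ≤ 2 ^ k := Nat.pow_le_pow_right (by norm_num) (Nat.sub_le _ _)
  omega

end MPe54452
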