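import Mathlib

namespace MPe54452

open Filter Topology

/-- Truncated multiple harmonic sums:
`hs [a₁, …, a_r] N = ∑ 1 / (k₁ ^ a₁ ⋯ k_r ^ a_r)` over `N ≥ k₁ > k₂ > ⋯ > k_r ≥ 1`. -/
noncomputable def hs : List ℕ → ℕ → ℝ
  | [], _ => 1
  | a :: l, N => ∑ k ∈ Finset.range N, (((k : ℝ) + 1) ^ a)⁻¹ * hs l k

/-- The multiple zeta value with exponents `[a₁, …, a_r]`, i.e.
`∑ 1 / (k₁ ^ a₁ ⋯ k_r ^ a_r)` over `k₁ > k₂ > ⋯ > k_r ≥ 1`; the empty one is `1`. -/
noncomputable def mzv : List ℕ → ℝ
  | [] => 1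
  | a :: l => ∑' k : ℕ, (((k : ℝ) + 1) ^ a)⁻¹ * hs l k

/-- Convergent exponent sequences: all exponents positive and the first at least two. -/
def Adm : List ℕ → Prop
  | [] => True
  | a :: l => 2 ≤ a ∧ ∀ b ∈ l, 1 ≤ b

/-- The rational span of the multiple zeta values of weight `k`. -/
noncomputable def Z (k : ℕ) : Submodule ℚ ℝ :=
  Submodule.span ℚ {x : ℝ | ∃ s : List ℕ, Adm s ∧ s.sum = k ∧ x = mzv s}

/-- The stuffle product. -/
def st : List ℕ → List ℕ → List (List ℕ)
  | [], v => [v]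
  | a :: u, [] => [a :: u]
  | a :: u, b :: v => ((st u (b :: v)).map (fun w => a :: w)) ++
      ((st (a :: u) v).map (fun w => b :: w)) ++ ((st u v).map (fun w => (a + b) :: w))
termination_by u v => u.length + v.length

lemma hs_nonneg (l : List ℕ) (N : ℕ) : 0 ≤ hs l N := by
  induction l generalizing N with
  | nil => simp [hs]
  | cons a l ih =>
    rw [hs]
    exact Finset.sum_nonneg (fun k _ => mul_nonneg (by positivity) (ih k))

lemma st_nil_right (u : List ℕ) : st u [] = [u] := by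
  cases u <;> simp [st]

lemma list_sum_map_finset_sum {α : Type*} (L : List α) (s : Finset ℕ) (f : α → ℕ → ℝ) :
    (L.map (fun w => ∑ k ∈ s, f w k)).sum = ∑ k ∈ s, (L.map (fun w => f w k)).sum := by
  induction L with
  | nil => simp
  | cons a L ih => simp [ih, Finset.sum_add_distrib]

lemma list_sum_map_mul_left {α : Type*} (L : List α) (c : ℝ) (f : α → ℝ) :
    (L.map (fun w => c * f w)).sum = c * (L.map f).sum := by
  induction L with
  | nil => simp
  | cons a L ih => simp [ih, mul_add]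

/-- discrete product rule -/
lemma sum_mul_sum_range (x y : ℕ → ℝ) (N : ℕ) :
    (∑ k ∈ Finset.range N, x k) * (∑ k ∈ Finset.range N, y k) =
      ∑ k ∈ Finset.range N, (x k * (∑ j ∈ Finset.range k, y j) +
        y k * (∑ j ∈ Finset.range k, x j) + x k * y k) := by
  induction N with
  | zero => simp
  | succ N ih =>
    rw [Finset.sum_range_succ, Finset.sum_range_succ, Finset.sum_range_succ, ← ih]
    ring

theorem hs_mul_hs (u v : List ℕ) (N : ℕ) :
    hs u N * hs v N = ((st u v).map (fun w => hs w N)).sum := by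
  induction h : u.length + v.length using Nat.strong_induction_on generalizing u v N with
  | _ n ih =>
  match u, v with
  | [], v => simp [st, hs]
  | a :: u, [] => simp [st, hs]
  | a :: u, b :: v =>
    rw [st, hs, hs, sum_mul_sum_range]
    simp only [List.map_append, List.map_map, List.sum_append]
    simp only [List.length_cons] at h
    have e1 : ((st u (b :: v)).map ((fun w => hs w N) ∘ fun w => a :: w)).sum =
        ∑ k ∈ Finset.range N, (((k : ℝ) + 1) ^ a)⁻¹ * (hs u k * hs (b :: v) k) := by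
      have : ((fun w => hs w N) ∘ fun w => a :: w) =
          fun w => ∑ k ∈ Finset.range N, (((k : ℝ) + 1) ^ a)⁻¹ * hs w k := by
        funext w; rfl
      rw [this, list_sum_map_finset_sum]
      refine Finset.sum_congr rfl (fun k _ => ?_)
      rw [list_sum_map_mul_left, ih _ (by simp only [List.length_cons]; omega) u (b :: v) k rfl]
    have e2 : ((st (a :: u) v).map ((fun w => hs w N) ∘ fun w => b :: w)).sum =
        ∑ k ∈ Finset.range N, (((k : ℝ) + 1) ^ b)⁻¹ * (hs (a :: u) k * hs v k) := by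
      have : ((fun w => hs w N) ∘ fun w => b :: w) =
          fun w => ∑ k ∈ Finset.range N, (((k : ℝ) + 1) ^ b)⁻¹ * hs w k := by
        funext w; rfl
      rw [this, list_sum_map_finset_sum]
      refine Finset.sum_congr rfl (fun k _ => ?_)
      rw [list_sum_map_mul_left, ih _ (by simp only [List.length_cons]; omega) (a :: u) v k rfl]
    have e3 : ((st u v).map ((fun w => hs w N) ∘ fun w => (a + b) :: w)).sum =
        ∑ k ∈ Finset.range N, (((k : ℝ) + 1) ^ (a + b))⁻¹ * (hs u k * hs v k) := by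
      have : ((fun w => hs w N) ∘ fun w => (a + b) :: w) =
          fun w => ∑ k ∈ Finset.range N, (((k : ℝ) + 1) ^ (a + b))⁻¹ * hs w k := by
        funext w; rfl
      rw [this, list_sum_map_finset_sum]
      refine Finset.sum_congr rfl (fun k _ => ?_)
      rw [list_sum_map_mul_left, ih _ (by omega) u v k rfl]
    rw [e1, e2, e3, ← Finset.sum_add_distrib, ← Finset.sum_add_distrib]
    refine Finset.sum_congr rfl (fun k _ => ?_)
    rw [hs, hs, pow_add, mul_inv]
    ring

lemma st_sum (u v : List ℕ) : ∀ w ∈ st u v, w.sum = u.sum + v.sum := by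
  induction h : u.length + v.length using Nat.strong_induction_on generalizing u v with
  | _ n ih =>
  match u, v with
  | [], v => simp [st]
  | a :: u, [] => simp [st]
  | a :: u, b :: v =>
    simp only [List.length_cons] at h
    intro w hw
    rw [st] at hw
    simp only [List.mem_append, List.mem_map] at hw
    rcases hw with (⟨w', hw', rfl⟩ | ⟨w', hw', rfl⟩) | ⟨w', hw', rfl⟩
    · have := ih _ (by simp only [List.length_cons]; omega) u (b :: v) rfl w' hw'
      simp only [List.sum_cons] at this ⊢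
      omega
    · have := ih _ (by simp only [List.length_cons]; omega) (a :: u) v rfl w' hw'
      simp only [List.sum_cons] at this ⊢
      omega
    · have := ih _ (by omega) u v rfl w' hw'
      simp only [List.sum_cons] at this ⊢
      omega

lemma st_pos (u v : List ℕ) (hu : ∀ b ∈ u, 1 ≤ b) (hv : ∀ b ∈ v, 1 ≤ b) :
    ∀ w ∈ st u v, ∀ b ∈ w, 1 ≤ b := by
  induction h : u.length + v.length using Nat.strong_induction_on generalizing u v with
  | _ n ih =>
  match u, v with
  | [], v => simpa [st] using hv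
  | a :: u, [] => simpa [st] using hu
  | a :: u, b :: v =>
    simp only [List.length_cons] at h
    intro w hw c hc
    have hu' : ∀ b ∈ u, 1 ≤ b := fun b hb => hu b (List.mem_cons_of_mem _ hb)
    have hv' : ∀ b ∈ v, 1 ≤ b := fun b hb => hv b (List.mem_cons_of_mem _ hb)
    have ha : 1 ≤ a := hu a List.mem_cons_self
    have hb : 1 ≤ b := hv b List.mem_cons_self
    rw [st] at hw
    simp only [List.mem_append, List.mem_map] at hw
    rcases hw with (⟨w', hw', rfl⟩ | ⟨w', hw', rfl⟩) | ⟨w', hw', rfl⟩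
    · rcases List.mem_cons.mp hc with rfl | hc
      · exact ha
      · exact ih _ (by simp only [List.length_cons]; omega) u (b :: v) hu' hv rfl w' hw' c hc
    · rcases List.mem_cons.mp hc with rfl | hc
      · exact hb
      · exact ih _ (by simp only [List.length_cons]; omega) (a :: u) v hu hv' rfl w' hw' c hc
    · rcases List.mem_cons.mp hc with rfl | hc
      · omega
      · exact ih _ (by omega) u v hu' hv' rfl w' hw' c hc

lemma Adm.pos {u : List ℕ} (h : Adm u) : ∀ b ∈ u, 1 ≤ b := by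
  cases u with
  | nil => simp
  | cons a u =>
    intro b hb
    rcases List.mem_cons.mp hb with rfl | hb
    · exact le_trans (by norm_num) h.1
    · exact h.2 b hb

lemma st_adm (u v : List ℕ) (hu : Adm u) (hv : Adm v) : ∀ w ∈ st u v, Adm w := by
  match u, v with
  | [], v => simpa [st] using hv
  | a :: u, [] => simpa [st] using hu
  | a :: u, b :: v =>
    intro w hw
    rw [st] at hw
    simp only [List.mem_append, List.mem_map] at hw
    rcases hw with (⟨w', hw', rfl⟩ | ⟨w', hw', rfl⟩) | ⟨w', hw', rfl⟩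
    · exact ⟨hu.1, st_pos u (b :: v) hu.2 hv.pos w' hw'⟩
    · exact ⟨hv.1, st_pos (a :: u) v hu.pos hv.2 w' hw'⟩
    · exact ⟨le_trans hu.1 (Nat.le_add_right _ _), st_pos u v hu.2 hv.2 w' hw'⟩

lemma hs_le_harmonic (l : List ℕ) (hl : ∀ b ∈ l, 1 ≤ b) (N : ℕ) :
    hs l N ≤ (harmonic N : ℝ) ^ l.length := by
  induction l generalizing N with
  | nil => simp [hs]
  | cons a l ih =>
    rw [hs, List.length_cons, pow_succ']
    have hmono : ∀ k ≤ N, (harmonic k : ℝ) ≤ (harmonic N : ℝ) := by
      intro k hk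
      have : harmonic k ≤ harmonic N := by
        unfold harmonic
        exact Finset.sum_le_sum_of_subset_of_nonneg
          (Finset.range_subset_range.mpr hk) (fun _ _ _ => by positivity)
      exact_mod_cast this
    have hpos : ∀ k, (0 : ℝ) ≤ (harmonic k : ℝ) := by
      intro k
      have : 0 ≤ harmonic k := by
        unfold harmonic
        exact Finset.sum_nonneg (fun _ _ => by positivity)
      exact_mod_cast this
    calc ∑ k ∈ Finset.range N, (((k : ℝ) + 1) ^ a)⁻¹ * hs l k
        ≤ ∑ k ∈ Finset.range N, ((k : ℝ) + 1)⁻¹ * (harmonic N : ℝ) ^ l.length := by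
          refine Finset.sum_le_sum ?_
          intro k hk
          have hkN := (Finset.mem_range.mp hk).le
          have h1 : (((k : ℝ) + 1) ^ a)⁻¹ ≤ ((k : ℝ) + 1)⁻¹ := by
            apply inv_anti₀ (by positivity)
            exact le_self_pow₀ (by linarith [Nat.cast_nonneg (α := ℝ) k])
              (by have := hl a List.mem_cons_self; omega)
          have h2 : hs l k ≤ (harmonic N : ℝ) ^ l.length :=
            (ih (fun b hb => hl b (List.mem_cons_of_mem _ hb)) k).trans
              (pow_le_pow_left₀ (hpos k) (hmono k hkN) _)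
          exact mul_le_mul h1 h2 (hs_nonneg _ _) (by positivity)
      _ = (harmonic N : ℝ) * (harmonic N : ℝ) ^ l.length := by
          rw [← Finset.sum_mul]
          congr 1
          unfold harmonic
          push_cast
          rfl

lemma one_add_log_pow_le (m : ℕ) : ∃ C : ℝ, 0 ≤ C ∧ ∀ n : ℕ, 1 ≤ n →
    (1 + Real.log n) ^ m ≤ C * (n : ℝ) ^ ((1 : ℝ) / 2) := by
  have hε : (0 : ℝ) < 1 / (2 * ((m : ℝ) + 1)) := by positivity
  set ε : ℝ := 1 / (2 * ((m : ℝ) + 1)) with hεdef
  refine ⟨(1 + 1 / ε) ^ m, by positivity, ?_⟩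
  intro n hn
  have hn1 : (1 : ℝ) ≤ n := by exact_mod_cast hn
  have h1 : (1 : ℝ) ≤ (n : ℝ) ^ ε := Real.one_le_rpow hn1 hε.le
  have h2 := Real.log_natCast_le_rpow_div n hε
  have h3 : 1 + Real.log n ≤ (1 + 1 / ε) * (n : ℝ) ^ ε := by
    have : (n : ℝ) ^ ε / ε = 1 / ε * (n : ℝ) ^ ε := by ring
    rw [this] at h2
    linarith
  have h4 : 0 ≤ 1 + Real.log n := by linarith [Real.log_nonneg hn1]
  calc (1 + Real.log n) ^ m ≤ ((1 + 1 / ε) * (n : ℝ) ^ ε) ^ m := pow_le_pow_left₀ h4 h3 m
    _ = (1 + 1 / ε) ^ m * (n : ℝ) ^ (ε * m) := by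
        rw [mul_pow, ← Real.rpow_mul_natCast (by positivity)]
    _ ≤ (1 + 1 / ε) ^ m * (n : ℝ) ^ ((1 : ℝ) / 2) := by
        apply mul_le_mul_of_nonneg_left _ (by positivity)
        apply Real.rpow_le_rpow_of_exponent_le hn1
        rw [hεdef, div_mul_eq_mul_div, one_mul, div_le_div_iff₀ (by positivity) (by norm_num)]
        linarith

lemma summable_mzv (a : ℕ) (l : List ℕ) (ha : 2 ≤ a) (hl : ∀ b ∈ l, 1 ≤ b) :
    Summable (fun k : ℕ => (((k : ℝ) + 1) ^ a)⁻¹ * hs l k) := by
  obtain ⟨C, hC0, hC⟩ := one_add_log_pow_le l.length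
  have hs1 : Summable (fun n : ℕ => C * (((n + 1 : ℕ) : ℝ) ^ ((3 : ℝ) / 2))⁻¹) := by
    apply Summable.mul_left
    exact (summable_nat_add_iff 1).2 (Real.summable_nat_rpow_inv.2 (by norm_num))
  refine Summable.of_nonneg_of_le (fun k => mul_nonneg (by positivity) (hs_nonneg _ _)) ?_ hs1
  intro k
  have hk1 : (1 : ℝ) ≤ ((k + 1 : ℕ) : ℝ) := by exact_mod_cast Nat.succ_le_succ (Nat.zero_le k)
  have hcast : ((k + 1 : ℕ) : ℝ) = (k : ℝ) + 1 := by push_cast; ring
  have hmonoH : (harmonic k : ℝ) ≤ (harmonic (k + 1) : ℝ) := by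
    have : harmonic k ≤ harmonic (k + 1) := by
      rw [harmonic_succ]
      have : (0 : ℚ) ≤ (↑(k + 1))⁻¹ := by positivity
      linarith
    exact_mod_cast this
  have hHpos : (0 : ℝ) ≤ (harmonic k : ℝ) := by
    have : 0 ≤ harmonic k := by
      unfold harmonic
      exact Finset.sum_nonneg (fun _ _ => by positivity)
    exact_mod_cast this
  have h1 : hs l k ≤ C * ((k + 1 : ℕ) : ℝ) ^ ((1 : ℝ) / 2) := by
    calc hs l k ≤ (harmonic k : ℝ) ^ l.length := hs_le_harmonic l hl k
      _ ≤ (1 + Real.log ((k + 1 : ℕ) : ℝ)) ^ l.length := by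
          apply pow_le_pow_left₀ hHpos
          exact hmonoH.trans (harmonic_le_one_add_log _)
      _ ≤ _ := hC (k + 1) (by omega)
  have h2 : (((k : ℝ) + 1) ^ a)⁻¹ ≤ (((k + 1 : ℕ) : ℝ) ^ (2 : ℝ))⁻¹ := by
    rw [Real.rpow_two, hcast]
    apply inv_anti₀ (by positivity)
    exact pow_le_pow_right₀ (by rw [← hcast]; exact hk1) ha
  calc (((k : ℝ) + 1) ^ a)⁻¹ * hs l k
      ≤ (((k + 1 : ℕ) : ℝ) ^ (2 : ℝ))⁻¹ * (C * ((k + 1 : ℕ) : ℝ) ^ ((1 : ℝ) / 2)) :=
        mul_le_mul h2 h1 (hs_nonneg _ _) (by positivity)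
    _ = C * (((k + 1 : ℕ) : ℝ) ^ ((3 : ℝ) / 2))⁻¹ := by
        have hpos : (0 : ℝ) < ((k + 1 : ℕ) : ℝ) := by linarith
        rw [← Real.rpow_neg hpos.le, ← Real.rpow_neg hpos.le, mul_left_comm, ← Real.rpow_add hpos]
        norm_num

lemma tendsto_hs (u : List ℕ) (hu : Adm u) : Tendsto (fun N => hs u N) atTop (𝓝 (mzv u)) := by
  cases u with
  | nil => simp only [hs, mzv]; exact tendsto_const_nhds
  | cons a l =>
    have h := (summable_mzv a l hu.1 hu.2).hasSum.tendsto_sum_nat
    simpa only [hs, mzv] using h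

lemma tendsto_list_sum (L : List (List ℕ)) (hL : ∀ w ∈ L, Adm w) :
    Tendsto (fun N => (L.map (fun w => hs w N)).sum) atTop (𝓝 ((L.map mzv).sum)) := by
  induction L with
  | nil => simp
  | cons w L ih =>
    simp only [List.map_cons, List.sum_cons]
    exact (tendsto_hs w (hL w List.mem_cons_self)).add
      (ih (fun w' hw' => hL w' (List.mem_cons_of_mem _ hw')))

theorem mzv_mul_mzv (u v : List ℕ) (hu : Adm u) (hv : Adm v) :
    mzv u * mzv v = ((st u v).map mzv).sum := by
  have h1 := (tendsto_hs u hu).mul (tendsto_hs v hv)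
  have h2 := tendsto_list_sum (st u v) (st_adm u v hu hv)
  simp only [hs_mul_hs] at h1
  exact tendsto_nhds_unique h1 h2

lemma mzv_mem (u : List ℕ) (hu : Adm u) : mzv u ∈ Z u.sum :=
  Submodule.subset_span ⟨u, hu, rfl, rfl⟩

lemma mzv_mem' (u : List ℕ) (hu : Adm u) {k : ℕ} (hk : u.sum = k) : mzv u ∈ Z k := by
  rw [← hk]; exact mzv_mem u hu

lemma list_sum_mem {M : Type*} [AddCommGroup M] [Module ℚ M] (S : Submodule ℚ M) (L : List M)
    (hL : ∀ x ∈ L, x ∈ S) : L.sum ∈ S := by
  induction L with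
  | nil => simp
  | cons a L ih =>
    rw [List.sum_cons]
    exact S.add_mem (hL a List.mem_cons_self) (ih (fun x hx => hL x (List.mem_cons_of_mem _ hx)))

theorem Z_mul (k l : ℕ) (a b : ℝ) (ha : a ∈ Z k) (hb : b ∈ Z l) : a * b ∈ Z (k + l) := by
  unfold Z at ha
  induction ha using Submodule.span_induction with
  | mem x hx =>
    obtain ⟨u, hu, huk, rfl⟩ := hx
    unfold Z at hb
    induction hb using Submodule.span_induction with
    | mem y hy =>
      obtain ⟨v, hv, hvl, rfl⟩ := hy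
      rw [mzv_mul_mzv u v hu hv]
      apply list_sum_mem
      intro z hz
      obtain ⟨w, hw, rfl⟩ := List.mem_map.mp hz
      exact mzv_mem' w (st_adm u v hu hv w hw) (by rw [st_sum u v w hw, huk, hvl])
    | zero => rw [mul_zero]; exact Submodule.zero_mem _
    | add y z _ _ hy hz => rw [mul_add]; exact Submodule.add_mem _ hy hz
    | smul q y _ hy => rw [mul_smul_comm]; exact Submodule.smul_mem _ _ hy
  | zero => rw [zero_mul]; exact Submodule.zero_mem _
  | add y z _ _ hy hz => rw [add_mul]; exact Submodule.add_mem _ hy hz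
  | smul q y _ hy => rw [smul_mul_assoc]; exact Submodule.smul_mem _ _ hy

lemma one_mem_Z : (1 : ℝ) ∈ Z 0 := mzv_mem' [] trivial rfl

lemma mzv_single_pos (a : ℕ) (ha : 2 ≤ a) : 0 < mzv [a] := by
  rw [mzv]
  have h := summable_mzv a [] ha (by simp)
  refine h.tsum_pos (fun k => mul_nonneg (by positivity) (hs_nonneg _ _)) 0 ?_
  simp [hs]

lemma mzv_two_eq : mzv [2] = Real.pi ^ 2 / 6 := by
  have h := hasSum_zeta_two
  have h2 := (hasSum_nat_add_iff' (f := fun n : ℕ => (1 : ℝ) / (n : ℝ) ^ 2) 1).2 h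
  simp only [Finset.range_one, Finset.sum_singleton, Nat.cast_zero] at h2
  rw [mzv]
  have h3 : (fun k : ℕ => (((k : ℝ) + 1) ^ 2)⁻¹ * hs [] k) =
      (fun n : ℕ => (1 : ℝ) / ((n + 1 : ℕ) : ℝ) ^ 2) := by
    funext k
    simp [hs]
  rw [h3, h2.tsum_eq]
  norm_num

lemma pi_sq_mem_Z : Real.pi ^ 2 ∈ Z 2 := by
  have h : Real.pi ^ 2 = (6 : ℚ) • mzv [2] := by
    rw [mzv_two_eq, Rat.smul_def]
    push_cast
    ring
  rw [h]
  exact Submodule.smul_mem _ _ (mzv_mem' [2] ⟨le_rfl, by simp⟩ rfl)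

end MPe54452
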