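import Pool.Agent.Lib.MP_e54452_nt.Graded

namespace MPe54452

open Polynomial Module

section

variable {R : Type*} [CommRing R] [Algebra ℚ R]

/-- Polynomials of degree at most `n` whose `k`-th coefficient lies in `V k`. -/
def PV (V : ℕ → Submodule ℚ R) (n : ℕ) : Submodule ℚ R[X] where
  carrier := {p | ∀ k, p.coeff k ∈ V k ∧ (n < k → p.coeff k = 0)}
  add_mem' := by
    intro p q hp hq k
    rw [coeff_add]
    refine ⟨(V k).add_mem (hp k).1 (hq k).1, fun h => ?_⟩
    rw [(hp k).2 h, (hq k).2 h, add_zero]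
  zero_mem' := by
    intro k
    rw [coeff_zero]
    exact ⟨(V k).zero_mem, fun _ => rfl⟩
  smul_mem' := by
    intro c p hp k
    rw [coeff_smul]
    refine ⟨(V k).smul_mem c (hp k).1, fun h => ?_⟩
    rw [(hp k).2 h, smul_zero]

/-- Sum of the coefficients. -/
noncomputable def ev1 (V : ℕ → Submodule ℚ R) (n : ℕ) : PV V n →ₗ[ℚ] R :=
  ((Polynomial.leval (R := R) 1).restrictScalars ℚ).comp (PV V n).subtype

lemma ev1_apply (V : ℕ → Submodule ℚ R) (n : ℕ) (p : PV V n) :
    ev1 V n p = (p : R[X]).eval 1 := rfl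

/-- List of coefficients. -/
noncomputable def coeffs (V : ℕ → Submodule ℚ R) (n : ℕ) :
    PV V n →ₗ[ℚ] ((k : Fin (n + 1)) → V k) where
  toFun p k := ⟨(p : R[X]).coeff k, (p.2 k).1⟩
  map_add' p q := by
    funext k
    apply Subtype.ext
    simp
  map_smul' c p := by
    funext k
    apply Subtype.ext
    simp

lemma coeffs_bijective (V : ℕ → Submodule ℚ R) (n : ℕ) : Function.Bijective (coeffs V n) := by
  constructor
  · intro p q hpq
    apply Subtype.ext
    ext k
    by_cases hk : n < k
    · rw [(p.2 k).2 hk, (q.2 k).2 hk]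
    · have := congrArg Subtype.val (congrFun hpq ⟨k, by omega⟩)
      exact this
  · intro a
    have hcoeff : ∀ k, (∑ i : Fin (n + 1), C (a i : R) * X ^ (i : ℕ)).coeff k =
        if h : k < n + 1 then (a ⟨k, h⟩ : R) else 0 := by
      intro k
      rw [finsetSum_coeff]
      split_ifs with h
      · rw [Finset.sum_eq_single (⟨k, h⟩ : Fin (n + 1))]
        · simp
        · intro j _ hj
          rw [coeff_C_mul, coeff_X_pow, if_neg, mul_zero]
          intro hc
          exact hj (Fin.ext hc.symm)
        · simp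
      · refine Finset.sum_eq_zero (fun j _ => ?_)
        rw [coeff_C_mul, coeff_X_pow, if_neg, mul_zero]
        have := j.2
        omega
    refine ⟨⟨∑ i : Fin (n + 1), C (a i : R) * X ^ (i : ℕ), ?_⟩, ?_⟩
    · intro k
      rw [hcoeff]
      split_ifs with h
      · exact ⟨(a ⟨k, h⟩).2, fun h2 => by omega⟩
      · exact ⟨(V k).zero_mem, fun _ => rfl⟩
    · funext k
      apply Subtype.ext
      refine (hcoeff (k : ℕ)).trans ?_
      rw [dif_pos k.2]

/-- Sum of the dimensions. -/
noncomputable def Sdim (V : ℕ → Submodule ℚ R) (n : ℕ) : ℕ :=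
  ∑ k ∈ Finset.range (n + 1), finrank ℚ (V k)

/-- Dimension of the sum. -/
noncomputable def Ddim (V : ℕ → Submodule ℚ R) (n : ℕ) : ℕ :=
  finrank ℚ (⨆ k ∈ Set.Iic n, V k : Submodule ℚ R)

lemma finrank_PV (V : ℕ → Submodule ℚ R) [∀ k, FiniteDimensional ℚ (V k)] (n : ℕ) :
    finrank ℚ (PV V n) = Sdim V n := by
  rw [LinearEquiv.finrank_eq (LinearEquiv.ofBijective (coeffs V n) (coeffs_bijective V n))]
  rw [Module.finrank_pi_fintype, Sdim, Finset.sum_range]

lemma finite_PV (V : ℕ → Submodule ℚ R) [∀ k, FiniteDimensional ℚ (V k)] (n : ℕ) :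
    FiniteDimensional ℚ (PV V n) :=
  (LinearEquiv.ofBijective (coeffs V n) (coeffs_bijective V n)).symm.finiteDimensional

lemma range_ev1 (V : ℕ → Submodule ℚ R) (n : ℕ) :
    LinearMap.range (ev1 V n) = ⨆ k ∈ Set.Iic n, V k := by
  apply le_antisymm
  · rintro _ ⟨p, rfl⟩
    rw [ev1_apply, eval_eq_sum, sum_def]
    refine Submodule.sum_mem _ ?_
    intro k hk
    rw [one_pow, mul_one]
    have hkn : k ≤ n := by
      by_contra hc
      exact (mem_support_iff.mp hk) ((p.2 k).2 (by omega))
    exact (le_iSup₂_of_le (f := fun k (_ : k ∈ Set.Iic n) => V k) k hkn le_rfl) (p.2 k).1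
  · refine iSup₂_le ?_
    intro k hk a ha
    refine ⟨⟨C a * X ^ k, ?_⟩, ?_⟩
    · intro j
      rw [coeff_C_mul, coeff_X_pow]
      split_ifs with h
      · rw [mul_one, h]
        exact ⟨ha, fun h2 => by have : k ≤ n := hk; omega⟩
      · rw [mul_zero]
        exact ⟨(V j).zero_mem, fun _ => rfl⟩
    · rw [ev1_apply]
      simp

lemma Ddim_add_ker (V : ℕ → Submodule ℚ R) [∀ k, FiniteDimensional ℚ (V k)] (n : ℕ) :
    Ddim V n + finrank ℚ (LinearMap.ker (ev1 V n)) = Sdim V n := by
  have := finite_PV V n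
  rw [Ddim, ← range_ev1, LinearMap.finrank_range_add_finrank_ker, finrank_PV]

lemma Ddim_le_Sdim (V : ℕ → Submodule ℚ R) [∀ k, FiniteDimensional ℚ (V k)] (n : ℕ) :
    Ddim V n ≤ Sdim V n := by
  have := Ddim_add_ker V n
  omega

/-- If the family is independent the two dimensions agree. -/
lemma Ddim_eq_of_indep (V : ℕ → Submodule ℚ R) [∀ k, FiniteDimensional ℚ (V k)] (n : ℕ)
    (h : iSupIndep (fun k : Set.Iic n => V k)) : Ddim V n = Sdim V n := by
  have h2 := Ddim_add_ker V n
  have h3 : LinearMap.ker (ev1 V n) = ⊥ := by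
    rw [LinearMap.ker_eq_bot']
    intro p hp
    rw [iSupIndep_K_iff] at h
    apply Subtype.ext
    apply h
    · exact fun k => (p.2 k).1
    · intro k hk
      exact (p.2 k).2 (by simpa using hk)
    · exact hp
  rw [h3, finrank_bot] at h2
  omega

/-- One relation with weights at most `N` costs at least `Sdim (n - N)` dimensions. -/
theorem Ddim_add_le [IsDomain R] (V : ℕ → Submodule ℚ R) [∀ k, FiniteDimensional ℚ (V k)]
    (hmul : ∀ k l a b, a ∈ V k → b ∈ V l → a * b ∈ V (k + l)) (N n : ℕ) (hNn : N ≤ n)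
    (h : ¬ iSupIndep (fun k : Set.Iic N => V k)) : Ddim V n + Sdim V (n - N) ≤ Sdim V n := by
  classical
  rw [iSupIndep_K_iff] at h
  push Not at h
  obtain ⟨r, hrV, hrN, hr1, hr0⟩ := h
  have hrdeg : r.natDegree ≤ N := by
    rw [natDegree_le_iff_coeff_eq_zero]
    intro k hk
    exact hrN k (by simpa using hk)
  have := finite_PV V n
  have := finite_PV V (n - N)
  let φ : PV V (n - N) →ₗ[ℚ] LinearMap.ker (ev1 V n) :=
    { toFun := fun p => ⟨⟨r * (p : R[X]), by
          intro k
          constructor
          · rw [coeff_mul]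
            refine Submodule.sum_mem _ ?_
            intro ij hij
            have hij' : ij.1 + ij.2 = k := Finset.HasAntidiagonal.mem_antidiagonal.mp hij
            rw [← hij']
            exact hmul _ _ _ _ (hrV _) (p.2 _).1
          · intro hk
            rw [coeff_mul]
            refine Finset.sum_eq_zero ?_
            intro ij hij
            have hij' : ij.1 + ij.2 = k := Finset.HasAntidiagonal.mem_antidiagonal.mp hij
            by_cases h1 : N < ij.1
            · rw [coeff_eq_zero_of_natDegree_lt (by omega), zero_mul]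
            · rw [(p.2 ij.2).2 (by omega), mul_zero]⟩, by
          rw [LinearMap.mem_ker, ev1_apply]
          simp [hr1]⟩
      map_add' := by
        intro p q
        apply Subtype.ext
        apply Subtype.ext
        simp [mul_add]
      map_smul' := by
        intro c p
        apply Subtype.ext
        apply Subtype.ext
        simp }
  have hφ : Function.Injective φ := by
    intro p q hpq
    apply Subtype.ext
    have h2 : r * (p : R[X]) = r * (q : R[X]) :=
      congrArg (fun z : LinearMap.ker (ev1 V n) => ((z : PV V n) : R[X])) hpq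
    exact mul_left_cancel₀ hr0 h2
  have h3 := LinearMap.finrank_le_finrank_of_injective hφ
  rw [finrank_PV] at h3
  have h4 := Ddim_add_ker V n
  omega

end

end MPe54452
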