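import Pool.Agent.Lib.MP_e54452_nt.Dim

namespace MPe54452

open Polynomial Module Filter Topology

section

variable {R : Type*} [CommRing R] [Algebra ℚ R]

theorem iSupIndep_iff_poly (V : ℕ → Submodule ℚ R) :
    iSupIndep V ↔ ∀ p : R[X], (∀ k, p.coeff k ∈ V k) → p.eval 1 = 0 → p = 0 := by
  constructor
  · intro h p hpV hp1
    have h2 : iSupIndep (fun k : (Set.univ : Set ℕ) => V k) := h.comp Subtype.val_injective
    rw [iSupIndep_K_iff] at h2
    exact h2 p hpV (fun k hk => absurd (Set.mem_univ k) hk) hp1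
  · intro h
    have h2 : iSupIndep (fun k : (Set.univ : Set ℕ) => V k) := by
      rw [iSupIndep_K_iff]
      exact fun p hp _ hp1 => h p hp hp1
    rw [iSupIndep_def] at h2 ⊢
    intro k
    have h := h2 ⟨k, Set.mem_univ k⟩
    refine h.mono_right ?_
    refine iSup₂_le ?_
    intro j hj
    exact le_iSup₂_of_le (⟨j, Set.mem_univ j⟩ : (Set.univ : Set ℕ))
      (fun hc => hj (congrArg Subtype.val hc)) le_rfl

theorem iSupIndep_of_Iic (V : ℕ → Submodule ℚ R)
    (h : ∀ N : ℕ, iSupIndep (fun k : Set.Iic N => V k)) : iSupIndep V := by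
  rw [iSupIndep_iff_poly]
  intro p hpV hp1
  have h2 := h p.natDegree
  rw [iSupIndep_K_iff] at h2
  refine h2 p hpV ?_ hp1
  intro k hk
  exact coeff_eq_zero_of_natDegree_lt (by simpa using hk)

lemma Sdim_pos (V : ℕ → Submodule ℚ R) [∀ k, FiniteDimensional ℚ (V k)] [Nontrivial R]
    (h1 : (1 : R) ∈ V 0) (n : ℕ) : 0 < Sdim V n := by
  unfold Sdim
  apply Finset.sum_pos'
  · intro _ _
    exact Nat.zero_le _
  · refine ⟨0, by simp, ?_⟩
    rw [Module.finrank_pos_iff_exists_ne_zero]
    exact ⟨⟨1, h1⟩, fun hc => one_ne_zero (congrArg Subtype.val hc)⟩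

/-- With at most exponential growth of dimensions, independence is equivalent to the ratio of
`Ddim` and `Sdim` tending to one. -/
theorem indep_iff_ratio [IsDomain R] (V : ℕ → Submodule ℚ R) [∀ k, FiniteDimensional ℚ (V k)]
    (h1 : (1 : R) ∈ V 0) (hmul : ∀ k l a b, a ∈ V k → b ∈ V l → a * b ∈ V (k + l))
    (A B : ℕ) (hB : 1 ≤ B) (hgrow : ∀ n, Sdim V n ≤ A * B ^ n) :
    iSupIndep V ↔ Tendsto (fun n => (Ddim V n : ℝ) / Sdim V n) atTop (𝓝 1) := by
  constructor
  · intro h
    have h2 : (fun n => (Ddim V n : ℝ) / Sdim V n) = fun _ => 1 := by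
      funext n
      rw [Ddim_eq_of_indep V n (h.comp Subtype.val_injective)]
      have := Sdim_pos V h1 n
      exact div_self (by positivity)
    rw [h2]
    exact tendsto_const_nhds
  · intro ht
    by_contra hcon
    have h3 : ∃ N : ℕ, ¬ iSupIndep (fun k : Set.Iic N => V k) := by
      by_contra hc
      push Not at hc
      exact hcon (iSupIndep_of_Iic V hc)
    obtain ⟨N, hN⟩ := h3
    obtain ⟨M, hM⟩ : ∃ M : ℕ, M = 2 * B ^ N := ⟨_, rfl⟩
    have hM0 : 0 < M := by rw [hM]; positivity
    have hlt : (1 : ℝ) - 1 / M < 1 := by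
      have : (0 : ℝ) < 1 / M := by positivity
      linarith
    have hev := ht.eventually (lt_mem_nhds hlt)
    obtain ⟨n0, hn0⟩ := eventually_atTop.mp hev
    have hstep : ∀ n, n0 ≤ n → M * Sdim V n ≤ Sdim V (n + N) := by
      intro n hn
      have h4 := hn0 (n + N) (by omega)
      have h5 := Ddim_add_le V hmul N (n + N) (by omega) hN
      rw [Nat.add_sub_cancel] at h5
      have hS := Sdim_pos V h1 (n + N)
      have hS' : (0 : ℝ) < Sdim V (n + N) := by exact_mod_cast hS
      rw [lt_div_iff₀ hS'] at h4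
      have h6 : (Ddim V (n + N) : ℝ) + Sdim V n ≤ Sdim V (n + N) := by exact_mod_cast h5
      have h7 : (Sdim V n : ℝ) ≤ 1 / M * Sdim V (n + N) := by nlinarith
      have h8 : (M : ℝ) * Sdim V n ≤ Sdim V (n + N) := by
        have hM' : (0 : ℝ) < M := by exact_mod_cast hM0
        calc (M : ℝ) * Sdim V n ≤ M * (1 / M * Sdim V (n + N)) :=
              mul_le_mul_of_nonneg_left h7 hM'.le
          _ = Sdim V (n + N) := by field_simp
      exact_mod_cast h8
    have hind : ∀ j, M ^ j ≤ Sdim V (n0 + j * N) := by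
      intro j
      induction j with
      | zero =>
        have := Sdim_pos V h1 n0
        simp only [pow_zero, zero_mul, add_zero]
        omega
      | succ j ih =>
        have h9 := hstep (n0 + j * N) (by omega)
        have h10 : n0 + j * N + N = n0 + (j + 1) * N := by ring
        rw [h10] at h9
        calc M ^ (j + 1) = M * M ^ j := by ring
          _ ≤ M * Sdim V (n0 + j * N) := Nat.mul_le_mul_left _ ih
          _ ≤ _ := h9
    have hcontra : ∀ j, 2 ^ j ≤ A * B ^ n0 := by
      intro j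
      have h11 := (hind j).trans (hgrow (n0 + j * N))
      have h12 : A * B ^ (n0 + j * N) = (A * B ^ n0) * (B ^ N) ^ j := by
        rw [pow_add, mul_comm j N, pow_mul]
        ring
      rw [hM, mul_pow, h12] at h11
      exact Nat.le_of_mul_le_mul_right h11 (by positivity)
    have h13 := hcontra (A * B ^ n0)
    have h14 : A * B ^ n0 < 2 ^ (A * B ^ n0) := Nat.lt_two_pow_self
    omega

end

end MPe54452
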