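import Pool.Agent.Lib.MP_e54452_nt.KLemma

namespace MPe54452

open Polynomial

/-- `K` has, for every `n` and `C`, at least `n` elements in some window `[k, k + δ]` that is
short compared with its position, `C (δ + 1) ≤ k`. -/
def Clustered (K : Set ℕ) : Prop :=
  ∀ n C : ℕ, ∃ k δ : ℕ, C * (δ + 1) ≤ k ∧ n ≤ (K ∩ Set.Icc k (k + δ)).ncard

theorem iSupIndep_K_iff {R : Type*} [CommRing R] [Algebra ℚ R] (V : ℕ → Submodule ℚ R)
    (K : Set ℕ) :
    iSupIndep (fun k : K => V k) ↔ ∀ p : R[X], (∀ k, p.coeff k ∈ V k) →
      (∀ k, k ∉ K → p.coeff k = 0) → p.eval 1 = 0 → p = 0 := by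
  classical
  rw [iSupIndep_iff_finsetSum_eq_zero_imp_eq_zero]
  constructor
  · intro h p hpV hpK hp1
    have hs := h (p.support.subtype (· ∈ K)) (fun i => p.coeff i) (fun i _ => hpV i) ?_
    · ext k
      by_contra hk
      rw [coeff_zero] at hk
      have hkK : k ∈ K := by
        by_contra hc
        exact hk (hpK k hc)
      exact hk (hs ⟨k, hkK⟩ (by simpa using hk))
    · rw [eval_eq_sum, sum_def] at hp1
      rw [← hp1]
      simp only [one_pow, mul_one]
      rw [Finset.sum_subtype_of_mem (fun k => p.coeff k)]
      intro k hk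
      by_contra hc
      exact (mem_support_iff.mp hk) (hpK k hc)
  · intro h s v hv hsum
    set p : R[X] := ∑ i ∈ s, C (v i) * X ^ (i : ℕ) with hp
    have hcoeff : ∀ i ∈ s, p.coeff (i : ℕ) = v i := by
      intro i hi
      rw [hp, finsetSum_coeff, Finset.sum_eq_single i]
      · simp
      · intro j _ hji
        rw [coeff_C_mul, coeff_X_pow, if_neg, mul_zero]
        intro hc
        exact hji (Subtype.ext hc.symm)
      · intro hc
        exact absurd hi hc
    have hcoeff0 : ∀ k, (∀ i ∈ s, (i : ℕ) ≠ k) → p.coeff k = 0 := by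
      intro k hk
      rw [hp, finsetSum_coeff]
      refine Finset.sum_eq_zero ?_
      intro j hj
      rw [coeff_C_mul, coeff_X_pow, if_neg, mul_zero]
      intro hc
      exact hk j hj hc.symm
    have hp0 : p = 0 := by
      apply h
      · intro k
        by_cases hk : ∃ i ∈ s, (i : ℕ) = k
        · obtain ⟨i, hi, rfl⟩ := hk
          rw [hcoeff i hi]
          exact hv i hi
        · push Not at hk
          rw [hcoeff0 k hk]
          exact Submodule.zero_mem _
      · intro k hk
        apply hcoeff0
        rintro i _ rfl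
        exact hk i.2
      · rw [hp, eval_finsetSum]
        simpa using hsum
    intro i hi
    rw [← hcoeff i hi, hp0, coeff_zero]

section

variable {R : Type*} [CommRing R] [IsDomain R] [Algebra ℚ R]

/-- In a graded family with nonzero elements in degrees two and three, independence over a
clustered set of degrees implies independence over all degrees. -/
theorem indep_of_clustered (V : ℕ → Submodule ℚ R) (h1 : (1 : R) ∈ V 0)
    (hmul : ∀ k l a b, a ∈ V k → b ∈ V l → a * b ∈ V (k + l))
    {x y : R} (hx : x ∈ V 2) (hy : y ∈ V 3) (hx0 : x ≠ 0) (hy0 : y ≠ 0)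
    (K : Set ℕ) (hK : Clustered K) (hind : iSupIndep (fun k : K => V k)) : iSupIndep V := by
  classical
  have hall : iSupIndep (fun k : (Set.univ : Set ℕ) => V k) := by
    rw [iSupIndep_K_iff]
    intro p hpV _ hp1
    by_contra hp0
    rw [iSupIndep_K_iff] at hind
    obtain ⟨k0, δ, hk0, hcard⟩ := hK (p.natDegree + 1) (3 * p.natDegree + 4)
    have hcard' : p.natDegree + 1 ≤
        ((Finset.Icc k0 (k0 + δ)).filter (· ∈ K)).card := by
      rw [← Set.ncard_coe_finset]
      refine hcard.trans (le_of_eq ?_)
      congr 1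
      ext k
      simp only [Set.mem_inter_iff, Set.mem_Icc, Finset.coe_filter, Finset.mem_Icc,
        Set.mem_ofPred_eq]
      tauto
    have hk0' : (3 * p.natDegree + 2) * δ + 0 + 2 ≤ k0 := by
      have : (3 * p.natDegree + 4) * (δ + 1) =
        (3 * p.natDegree + 2) * δ + 2 * δ + 3 * p.natDegree + 4 := by ring
      omega
    obtain ⟨s, hs0, _, hsV, hsK, _⟩ := K_lemma (fun k => (V k).toAddSubgroup) h1
      (fun k l a b ha hb => hmul k l a b ha hb) hx hy hx0 hy0 p hpV p.natDegree le_rfl K k0 δ 0
      hcard' hk0'
    have hps : p * s = 0 := by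
      apply hind
      · intro k
        rw [coeff_mul]
        refine Submodule.sum_mem _ ?_
        intro ij hij
        have hij' : ij.1 + ij.2 = k := Finset.HasAntidiagonal.mem_antidiagonal.mp hij
        rw [← hij']
        refine hmul _ _ _ _ (hpV _) ?_
        have := hsV ij.2 (Nat.zero_le _)
        simpa using this
      · exact hsK
      · rw [eval_mul, hp1, zero_mul]
    rcases mul_eq_zero.mp hps with h | h
    · exact hp0 h
    · exact hs0 h
  rw [iSupIndep_def] at hall ⊢
  intro k
  have h := hall ⟨k, Set.mem_univ k⟩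
  refine h.mono_right ?_
  refine iSup₂_le ?_
  intro j hj
  exact le_iSup₂_of_le (⟨j, Set.mem_univ j⟩ : (Set.univ : Set ℕ))
    (fun hc => hj (congrArg Subtype.val hc)) le_rfl

omit [IsDomain R] in
/-- The converse inclusion: independence restricts to subsets of degrees. -/
theorem indep_restrict (V : ℕ → Submodule ℚ R) (K : Set ℕ) (h : iSupIndep V) :
    iSupIndep (fun k : K => V k) :=
  h.comp Subtype.val_injective

end

end MPe54452
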