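import Mathlib

namespace MPe54452

/-- Hoffman words: finite sequences of twos and threes. -/
abbrev HW : Type := {w : List ℕ // ∀ a ∈ w, a = 2 ∨ a = 3}

/-- The weight of a word: the sum of its entries. -/
def wt (w : HW) : ℕ := w.1.sum

/-- Hoffman words of weight `k`, as a finite set of lists. -/
def wordsL : ℕ → Finset (List ℕ)
  | 0 => {[]}
  | 1 => ∅
  | 2 => {[2]}
  | (k + 3) => (wordsL (k + 1)).image (fun w => 2 :: w) ∪ (wordsL k).image (fun w => 3 :: w)

lemma mem_wordsL (k : ℕ) (w : List ℕ) :
    w ∈ wordsL k ↔ (∀ a ∈ w, a = 2 ∨ a = 3) ∧ w.sum = k := by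
  induction k using Nat.strong_induction_on generalizing w with
  | _ k ih =>
  match k with
  | 0 =>
    simp only [wordsL, Finset.mem_singleton]
    constructor
    · rintro rfl
      simp
    · rintro ⟨h, hs⟩
      cases w with
      | nil => rfl
      | cons a w =>
        have := h a List.mem_cons_self
        simp only [List.sum_cons] at hs
        omega
  | 1 =>
    simp only [wordsL, Finset.notMem_empty, false_iff, not_and]
    intro h hs
    cases w with
    | nil => simp at hs
    | cons a w =>
      have := h a List.mem_cons_self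
      simp only [List.sum_cons] at hs
      omega
  | 2 =>
    simp only [wordsL, Finset.mem_singleton]
    constructor
    · rintro rfl
      simp
    · rintro ⟨h, hs⟩
      cases w with
      | nil => simp at hs
      | cons a w =>
        have ha := h a List.mem_cons_self
        simp only [List.sum_cons] at hs
        cases w with
        | nil =>
          simp only [List.sum_nil] at hs
          have : a = 2 := by omega
          rw [this]
        | cons b w =>
          have hb := h b (List.mem_cons_of_mem _ List.mem_cons_self)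
          simp only [List.sum_cons] at hs
          omega
  | (k + 3) =>
    rw [wordsL, Finset.mem_union, Finset.mem_image, Finset.mem_image]
    constructor
    · rintro (⟨v, hv, rfl⟩ | ⟨v, hv, rfl⟩)
      · rw [ih (k + 1) (by omega)] at hv
        refine ⟨?_, ?_⟩
        · intro a ha
          rcases List.mem_cons.mp ha with rfl | ha
          · left; rfl
          · exact hv.1 a ha
        · rw [List.sum_cons, hv.2]
          omega
      · rw [ih k (by omega)] at hv
        refine ⟨?_, ?_⟩
        · intro a ha
          rcases List.mem_cons.mp ha with rfl | ha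
          · right; rfl
          · exact hv.1 a ha
        · rw [List.sum_cons, hv.2]
          omega
    · rintro ⟨h, hs⟩
      cases w with
      | nil => simp at hs
      | cons a w =>
        have hw : ∀ b ∈ w, b = 2 ∨ b = 3 := fun b hb => h b (List.mem_cons_of_mem _ hb)
        simp only [List.sum_cons] at hs
        rcases h a List.mem_cons_self with rfl | rfl
        · left
          refine ⟨w, ?_, rfl⟩
          rw [ih (k + 1) (by omega)]
          exact ⟨hw, by omega⟩
        · right
          refine ⟨w, ?_, rfl⟩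
          rw [ih k (by omega)]
          exact ⟨hw, by omega⟩

/-- Number of Hoffman words of weight `k`. -/
def dk (k : ℕ) : ℕ := (wordsL k).card

lemma dk_zero : dk 0 = 1 := rfl
lemma dk_one : dk 1 = 0 := rfl
lemma dk_two : dk 2 = 1 := rfl

lemma dk_rec (k : ℕ) : dk (k + 3) = dk (k + 1) + dk k := by
  unfold dk
  rw [wordsL, Finset.card_union_of_disjoint, Finset.card_image_of_injective,
    Finset.card_image_of_injective]
  · intro a b hab
    simpa using hab
  · intro a b hab
    simpa using hab
  · rw [Finset.disjoint_left]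
    intro w h1 h2
    rw [Finset.mem_image] at h1 h2
    obtain ⟨u, _, rfl⟩ := h1
    obtain ⟨v, _, hv⟩ := h2
    simp at hv

lemma dk_three : dk 3 = 1 := by rw [dk_rec 0, dk_one, dk_zero]
lemma dk_four : dk 4 = 1 := by rw [dk_rec 1, dk_two, dk_one]

lemma dk_succ_le (k : ℕ) (hk : 2 ≤ k) : dk (k + 1) ≤ 2 * dk k := by
  induction k using Nat.strong_induction_on with
  | _ k ih =>
  match k with
  | 0 => omega
  | 1 => omega
  | 2 => rw [dk_three, dk_two]; omega
  | 3 => rw [dk_four, dk_three]; omega
  | 4 => rw [dk_rec 2, dk_three, dk_two, dk_four]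
  | (k + 5) =>
    rw [show k + 5 + 1 = (k + 3) + 3 by ring, dk_rec (k + 3), show k + 5 = (k + 2) + 3 by ring,
      dk_rec (k + 2)]
    have h1 := ih (k + 3) (by omega) (by omega)
    have h2 := ih (k + 2) (by omega) (by omega)
    rw [show k + 2 + 1 = k + 3 by ring] at *
    omega

lemma dk_add_le (k j : ℕ) (hk : 2 ≤ k) : dk (k + j) ≤ 2 ^ j * dk k := by
  induction j with
  | zero => simp
  | succ j ih =>
    have := dk_succ_le (k + j) (by omega)
    rw [← add_assoc]
    calc dk (k + j + 1) ≤ 2 * dk (k + j) := this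
      _ ≤ 2 * (2 ^ j * dk k) := Nat.mul_le_mul_left _ ih
      _ = 2 ^ (j + 1) * dk k := by ring

lemma dk_pos (k : ℕ) (hk : 2 ≤ k) : 0 < dk k := by
  have h := dk_add_le 2 (k - 2) le_rfl
  induction k using Nat.strong_induction_on with
  | _ k ih =>
  match k with
  | 0 => omega
  | 1 => omega
  | 2 => rw [dk_two]; omega
  | 3 => rw [dk_three]; omega
  | 4 => rw [dk_four]; omega
  | (k + 5) =>
    rw [show k + 5 = (k + 2) + 3 by ring, dk_rec (k + 2)]
    have h1 := ih (k + 3) (by omega) (by omega) (dk_add_le _ _ le_rfl)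
    rw [show k + 2 + 1 = k + 3 by ring]
    omega

/-- Lower bound for the growth of `dk`. -/
lemma dk_growth (θ : ℝ) (h1 : 1 ≤ θ) (h3 : θ ^ 3 ≤ θ + 1) (k : ℕ) (hk : 2 ≤ k) :
    θ ^ k ≤ θ ^ 4 * dk k := by
  induction k using Nat.strong_induction_on with
  | _ k ih =>
  match k with
  | 0 => omega
  | 1 => omega
  | 2 =>
    rw [dk_two, Nat.cast_one, mul_one]
    exact pow_le_pow_right₀ h1 (by norm_num)
  | 3 =>
    rw [dk_three, Nat.cast_one, mul_one]
    exact pow_le_pow_right₀ h1 (by norm_num)
  | 4 =>
    rw [dk_four, Nat.cast_one, mul_one]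
  | (k + 5) =>
    have e1 := ih (k + 3) (by omega) (by omega)
    have e2 := ih (k + 2) (by omega) (by omega)
    rw [show k + 5 = (k + 2) + 3 by ring, dk_rec (k + 2), show k + 2 + 1 = k + 3 by ring]
    push_cast
    have e3 : θ ^ (k + 2 + 3) = θ ^ (k + 2) * θ ^ 3 := by ring
    have e4 : θ ^ (k + 3) = θ ^ (k + 2) * θ := by ring
    have e5 : θ ^ (k + 2) * θ ^ 3 ≤ θ ^ (k + 2) * (θ + 1) :=
      mul_le_mul_of_nonneg_left h3 (by positivity)
    nlinarith

/-- The number of Hoffman words of weight at most `X`. -/
def Dk (X : ℕ) : ℕ := ∑ k ∈ Finset.range (X + 1), dk k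

lemma Dk_rec (X : ℕ) : Dk (X + 3) = Dk (X + 1) + Dk X + 1 := by
  induction X with
  | zero =>
    simp only [Dk, Finset.sum_range_succ, Finset.sum_range_zero]
    rw [dk_zero, dk_one, dk_two, dk_three]
    norm_num
  | succ X ih =>
    have h1 : Dk (X + 1 + 3) = Dk (X + 3) + dk (X + 4) := by
      unfold Dk
      rw [show X + 1 + 3 + 1 = (X + 3 + 1) + 1 by ring, Finset.sum_range_succ]
    have h2 : Dk (X + 1 + 1) = Dk (X + 1) + dk (X + 2) := by
      unfold Dk
      rw [Finset.sum_range_succ]
    have h3 : Dk (X + 1) = Dk X + dk (X + 1) := by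
      unfold Dk
      rw [Finset.sum_range_succ]
    have h4 := dk_rec (X + 1)
    rw [show X + 1 + 3 = X + 4 by ring, show X + 1 + 1 = X + 2 by ring] at *
    omega

lemma Dk_le (X : ℕ) (hX : 2 ≤ X) : Dk X + 1 ≤ 5 * dk X := by
  induction X using Nat.strong_induction_on with
  | _ X ih =>
  match X with
  | 0 => omega
  | 1 => omega
  | 2 =>
    simp only [Dk, Finset.sum_range_succ, Finset.sum_range_zero]
    rw [dk_zero, dk_one, dk_two]
    norm_num
  | 3 =>
    simp only [Dk, Finset.sum_range_succ, Finset.sum_range_zero]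
    rw [dk_zero, dk_one, dk_two, dk_three]
    norm_num
  | 4 =>
    simp only [Dk, Finset.sum_range_succ, Finset.sum_range_zero]
    rw [dk_zero, dk_one, dk_two, dk_three, dk_four]
  | (X + 5) =>
    have e1 := ih (X + 3) (by omega) (by omega)
    have e2 := ih (X + 2) (by omega) (by omega)
    rw [show X + 5 = (X + 2) + 3 by ring, dk_rec (X + 2), Dk_rec (X + 2),
      show X + 2 + 1 = X + 3 by ring]
    omega

/-- Hoffman words of weight `k`. -/
def wordsF (k : ℕ) : Finset HW := (wordsL k).subtype (fun w => ∀ a ∈ w, a = 2 ∨ a = 3)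

lemma mem_wordsF (k : ℕ) (w : HW) : w ∈ wordsF k ↔ wt w = k := by
  unfold wordsF wt
  rw [Finset.mem_subtype, mem_wordsL]
  exact ⟨fun h => h.2, fun h => ⟨w.2, h⟩⟩

lemma card_wordsF (k : ℕ) : (wordsF k).card = dk k := by
  unfold wordsF dk
  rw [Finset.card_subtype, Finset.filter_true_of_mem]
  intro w hw
  exact ((mem_wordsL k w).mp hw).1

lemma finite_wt (k : ℕ) : {w : HW | wt w = k}.Finite := by
  refine (wordsF k).finite_toSet.subset ?_
  intro w hw
  exact Finset.mem_coe.mpr ((mem_wordsF k w).mpr hw)

lemma ncard_wt (k : ℕ) : {w : HW | wt w = k}.ncard = dk k := by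
  rw [← card_wordsF, ← Set.ncard_coe_finset]
  congr 1
  ext w
  simp [mem_wordsF]

end MPe54452
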