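import Pool.Agent.Lib.MP_e54452_nt.KLemma
import Pool.Agent.Lib.MP_e54452_nt.Words
import Pool.Agent.Lib.MP_e54452_nt.Mzv

namespace MPe54452

open Polynomial Module

section

variable {H : Type*} [CommRing H] [Algebra ℚ H]

/-- The span of the basis elements of weight `k`. -/
def Hk (b : Basis HW ℚ H) (k : ℕ) : Submodule ℚ H := Submodule.span ℚ (b '' {w | wt w = k})

lemma mem_Hk_iff (b : Basis HW ℚ H) (k : ℕ) (h : H) :
    h ∈ Hk b k ↔ ∀ w, b.repr h w ≠ 0 → wt w = k := by
  unfold Hk
  rw [Basis.mem_span_image]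
  constructor
  · intro hs w hw
    exact hs (Finset.mem_coe.mpr (Finsupp.mem_support_iff.mpr hw))
  · intro hs w hw
    exact hs w (Finsupp.mem_support_iff.mp (Finset.mem_coe.mp hw))

lemma basis_mem_Hk (b : Basis HW ℚ H) (w : HW) : b w ∈ Hk b (wt w) :=
  Submodule.subset_span ⟨w, rfl, rfl⟩

lemma finrank_Hk (b : Basis HW ℚ H) (k : ℕ) : finrank ℚ (Hk b k) = dk k := by
  classical
  have h1 : Hk b k = Submodule.span ℚ (Set.range (fun w : wordsF k => b w)) := by
    unfold Hk
    congr 1
    ext x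
    constructor
    · rintro ⟨w, hw, rfl⟩
      exact ⟨⟨w, (mem_wordsF k w).mpr hw⟩, rfl⟩
    · rintro ⟨w, rfl⟩
      exact ⟨w, (mem_wordsF k w).mp w.2, rfl⟩
  have h2 := finrank_span_eq_card
    (b.linearIndependent.comp (fun w : wordsF k => (w : HW)) Subtype.val_injective)
  rw [Fintype.card_coe, card_wordsF] at h2
  rw [h1]
  exact h2

lemma finite_Hk (b : Basis HW ℚ H) (k : ℕ) : FiniteDimensional ℚ (Hk b k) :=
  FiniteDimensional.span_of_finite ℚ ((finite_wt k).image _)

lemma Hk_mul (b : Basis HW ℚ H)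
    (hmul : ∀ u v : HW, b u * b v ∈ Hk b (wt u + wt v)) (k l : ℕ) (x y : H) (hx : x ∈ Hk b k)
    (hy : y ∈ Hk b l) : x * y ∈ Hk b (k + l) := by
  unfold Hk at hx
  induction hx using Submodule.span_induction with
  | mem x hx =>
    obtain ⟨u, hu, rfl⟩ := hx
    unfold Hk at hy
    induction hy using Submodule.span_induction with
    | mem y hy =>
      obtain ⟨v, hv, rfl⟩ := hy
      have := hmul u v
      have hu' : wt u = k := hu
      have hv' : wt v = l := hv
      rwa [hu', hv'] at this
    | zero => rw [mul_zero]; exact Submodule.zero_mem _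
    | add y z _ _ hy hz => rw [mul_add]; exact Submodule.add_mem _ hy hz
    | smul q y _ hy => rw [mul_smul_comm]; exact Submodule.smul_mem _ _ hy
  | zero => rw [zero_mul]; exact Submodule.zero_mem _
  | add y z _ _ hy hz => rw [add_mul]; exact Submodule.add_mem _ hy hz
  | smul q y _ hy => rw [smul_mul_assoc]; exact Submodule.smul_mem _ _ hy

/-- Coordinates of a sum of homogeneous elements (with a shift `c`). -/
lemma repr_eval (b : Basis HW ℚ H) (c : ℕ) (p : H[X]) (hp : ∀ k, p.coeff k ≠ 0 → c ≤ k)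
    (hpV : ∀ k, c ≤ k → p.coeff k ∈ Hk b (k - c)) (w : HW) :
    b.repr (p.eval 1) w = b.repr (p.coeff (wt w + c)) w := by
  rw [eval_eq_sum, sum_def, map_sum, Finsupp.finsetSum_apply]
  by_cases hs : wt w + c ∈ p.support
  · rw [Finset.sum_eq_single (wt w + c)]
    · simp
    · intro k hk hkne
      rw [one_pow, mul_one]
      by_contra hne
      have hck := hp k (mem_support_iff.mp hk)
      have := (mem_Hk_iff b _ _).mp (hpV k hck) w hne
      omega
    · intro hc
      exact absurd hs hc
  · rw [notMem_support_iff.mp hs, map_zero, Finsupp.zero_apply]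
    refine Finset.sum_eq_zero (fun k hk => ?_)
    rw [one_pow, mul_one]
    by_contra hne
    have hck := hp k (mem_support_iff.mp hk)
    have h2 := (mem_Hk_iff b _ _).mp (hpV k hck) w hne
    apply hs
    have : wt w + c = k := by omega
    rw [this]
    exact hk

lemma eval_ne_zero_of_homog (b : Basis HW ℚ H) (c : ℕ) (p : H[X])
    (hp : ∀ k, p.coeff k ≠ 0 → c ≤ k)
    (hpV : ∀ k, c ≤ k → p.coeff k ∈ Hk b (k - c)) (hp0 : p ≠ 0) : p.eval 1 ≠ 0 := by
  intro hc
  obtain ⟨k, hk⟩ : ∃ k, p.coeff k ≠ 0 := by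
    by_contra h
    push Not at h
    exact hp0 (Polynomial.ext (by simpa using h))
  have hck := hp k hk
  obtain ⟨w, hw⟩ : ∃ w, b.repr (p.coeff k) w ≠ 0 := by
    by_contra h
    push Not at h
    apply hk
    rw [← b.repr.map_eq_zero_iff]
    exact Finsupp.ext (by simpa using h)
  have h1 := (mem_Hk_iff b _ _).mp (hpV k hck) w hw
  have h2 := repr_eval b c p hp hpV w
  rw [hc, map_zero, Finsupp.zero_apply, show wt w + c = k by omega] at h2
  exact hw h2.symm

/-- The polynomial with the homogeneous components of `h` as coefficients. -/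
noncomputable def hpoly (b : Basis HW ℚ H) (h : H) : H[X] :=
  ∑ w ∈ (b.repr h).support, C ((b.repr h w) • b w) * X ^ (wt w)

lemma hpoly_coeff (b : Basis HW ℚ H) (h : H) (k : ℕ) :
    (hpoly b h).coeff k = ∑ w ∈ (b.repr h).support.filter (fun w => wt w = k),
      (b.repr h w) • b w := by
  unfold hpoly
  rw [finsetSum_coeff, Finset.sum_filter]
  refine Finset.sum_congr rfl (fun w _ => ?_)
  rw [coeff_C_mul, coeff_X_pow]
  by_cases h1 : wt w = k
  · rw [if_pos h1, if_pos h1.symm, mul_one]
  · rw [if_neg h1, if_neg (fun h2 => h1 h2.symm), mul_zero]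

lemma hpoly_mem (b : Basis HW ℚ H) (h : H) (k : ℕ) : (hpoly b h).coeff k ∈ Hk b k := by
  rw [hpoly_coeff]
  refine Submodule.sum_mem _ (fun w hw => Submodule.smul_mem _ _ ?_)
  have := (Finset.mem_filter.mp hw).2
  rw [← this]
  exact basis_mem_Hk b w

lemma hpoly_eval (b : Basis HW ℚ H) (h : H) : (hpoly b h).eval 1 = h := by
  unfold hpoly
  rw [eval_finsetSum]
  simp only [eval_mul, eval_C, eval_pow, eval_X, one_pow, mul_one]
  exact b.linearCombination_repr h

lemma hpoly_ne_zero (b : Basis HW ℚ H) (h : H) (hh : h ≠ 0) : hpoly b h ≠ 0 := by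
  intro hc
  apply hh
  rw [← hpoly_eval b h, hc, eval_zero]

lemma hpoly_natDegree (b : Basis HW ℚ H) (h : H) (N : ℕ) (hN : ∀ w, b.repr h w ≠ 0 → wt w ≤ N) :
    (hpoly b h).natDegree ≤ N := by
  rw [natDegree_le_iff_coeff_eq_zero]
  intro k hk
  rw [hpoly_coeff]
  refine Finset.sum_eq_zero (fun w hw => ?_)
  have h1 := hN w (Finsupp.mem_support_iff.mp (Finset.mem_filter.mp hw).1)
  have h2 := (Finset.mem_filter.mp hw).2
  omega

end

section

variable {H : Type*} [CommRing H] [IsDomain H] [Algebra ℚ H]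

/-- Two and three as words. -/
def w2 : HW := ⟨[2], by simp⟩
/-- Three as a word. -/
def w3 : HW := ⟨[3], by simp⟩
/-- The empty word. -/
def w0 : HW := ⟨[], by simp⟩

/-- The window criterion. -/
theorem window_criterion (b : Basis HW ℚ H) (h1 : b w0 = 1)
    (hmul : ∀ u v : HW, b u * b v ∈ Hk b (wt u + wt v)) (per : H →ₐ[ℚ] ℝ)
    (N k δ c : ℕ) (E : Set ℕ) (F : Set HW) (hE : E ⊆ Set.Icc k (k + δ))
    (hcard : N + 1 ≤ E.ncard) (hk : (3 * N + 2) * δ + c + 2 ≤ k)
    (hco : {w : HW | wt w ∈ E ∧ w ∉ F}.ncard < dk c)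
    (hind : LinearIndependent ℚ (fun w : {w : HW // w ∈ F ∧ wt w ∈ E} => per (b w)))
    (h : H) (hh : ∀ w, b.repr h w ≠ 0 → wt w ≤ N) (hper : per h = 0) : h = 0 := by
  classical
  by_contra hh0
  have hEfin : E.Finite := (Set.finite_Icc _ _).subset hE
  have hcard' : N + 1 ≤ ((Finset.Icc k (k + δ)).filter (· ∈ E)).card := by
    rw [← Set.ncard_coe_finset]
    refine hcard.trans (le_of_eq ?_)
    congr 1
    ext i
    simp only [Finset.coe_filter, Finset.mem_Icc, Set.mem_ofPred_eq]
    constructor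
    · intro hi
      have := hE hi
      rw [Set.mem_Icc] at this
      exact ⟨this, hi⟩
    · rintro ⟨_, hi⟩
      exact hi
  have h10 : (1 : H) ∈ Hk b 0 := by
    rw [← h1]
    exact basis_mem_Hk b w0
  have hV := Hk_mul b hmul
  obtain ⟨s, hs0, hssupp, hsV, hsK, hswin⟩ := K_lemma (fun k => (Hk b k).toAddSubgroup) h10
    (fun k l x y hx hy => hV k l x y hx hy) (x := b w2) (y := b w3)
    (basis_mem_Hk b w2) (basis_mem_Hk b w3) (b.ne_zero w2) (b.ne_zero w3)
    (hpoly b h) (hpoly_mem b h) N (hpoly_natDegree b h N hh) E k δ c hcard' hk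
  set t : H[X] := hpoly b h * s with ht
  have ht0 : t ≠ 0 := mul_ne_zero (hpoly_ne_zero b h hh0) hs0
  have htc : ∀ i, t.coeff i ≠ 0 → c ≤ i := by
    intro i hi
    have := (hswin i hi).1
    omega
  have htV : ∀ i, c ≤ i → t.coeff i ∈ Hk b (i - c) := by
    intro i hci
    rw [ht, coeff_mul]
    refine Submodule.sum_mem _ ?_
    intro ij hij
    have hij' : ij.1 + ij.2 = i := Finset.HasAntidiagonal.mem_antidiagonal.mp hij
    by_cases h2 : s.coeff ij.2 = 0
    · rw [h2, mul_zero]
      exact Submodule.zero_mem _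
    · have h3 := (hssupp _ h2).1
      have h4 := hV _ _ _ _ (hpoly_mem b h ij.1) (hsV ij.2 (by omega))
      have h5 : ij.1 + (ij.2 - c) = i - c := by omega
      rwa [h5] at h4
  have hτ0 : t.eval 1 ≠ 0 := eval_ne_zero_of_homog b c t htc htV ht0
  have hτper : per (t.eval 1) = 0 := by
    rw [ht, eval_mul, hpoly_eval, map_mul, hper, zero_mul]
  -- the complementary words
  have hcofin : {w : HW | wt w ∈ E ∧ w ∉ F}.Finite := by
    refine (hEfin.biUnion (t := fun e => {w : HW | wt w = e}) (fun e _ => finite_wt e)).subset ?_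
    rintro w ⟨hw, _⟩
    rw [Set.mem_iUnion₂]
    exact ⟨wt w, hw, rfl⟩
  let Cf : Finset HW := hcofin.toFinset
  have hCf : Cf.card < dk c := by
    rwa [← Set.ncard_eq_toFinset_card _ hcofin]
  let Φ : Hk b c →ₗ[ℚ] (Cf → ℚ) :=
    { toFun := fun u w => b.repr ((u : H) * t.eval 1) w
      map_add' := by
        intro u v
        funext w
        simp [add_mul]
      map_smul' := by
        intro q u
        funext w
        simp }
  have hfin := finite_Hk b c
  have hker : LinearMap.ker Φ ≠ ⊥ := by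
    apply LinearMap.ker_ne_bot_of_finrank_lt
    rw [finrank_Hk, Module.finrank_fintype_fun_eq_card, Fintype.card_coe]
    exact hCf
  obtain ⟨u, huker, hu0⟩ := (Submodule.ne_bot_iff _).mp hker
  have hu0' : (u : H) ≠ 0 := fun hc => hu0 (Subtype.ext hc)
  have hx0 : (u : H) * t.eval 1 ≠ 0 := mul_ne_zero hu0' hτ0
  -- the support of `u * τ`
  have hsupp : ∀ w, b.repr ((u : H) * t.eval 1) w ≠ 0 → w ∈ F ∧ wt w ∈ E := by
    intro w hw
    have hE' : wt w ∈ E := by
      have h6 : (u : H) * t.eval 1 = (C (u : H) * t).eval 1 := by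
        have h6' := eval_mul (p := C (u : H)) (q := t) (x := 1)
        rw [eval_C] at h6'
        exact h6'.symm
      have h7 : ∀ i, (C (u : H) * t).coeff i ∈ Hk b i := by
        intro i
        rw [coeff_C_mul]
        by_cases h8 : t.coeff i = 0
        · rw [h8, mul_zero]
          exact Submodule.zero_mem _
        · have h9 := htc i h8
          have h10 := hV _ _ _ _ u.2 (htV i h9)
          have h11 : c + (i - c) = i := by omega
          rwa [h11] at h10
      rw [h6, repr_eval b 0 _ (fun _ _ => Nat.zero_le _) (fun i _ => by simpa using h7 i) w] at hw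
      by_contra hc
      apply hw
      rw [add_zero, coeff_C_mul, hsK _ hc, mul_zero, map_zero, Finsupp.zero_apply]
    refine ⟨?_, hE'⟩
    by_contra hF
    apply hw
    have hwC : w ∈ Cf := by
      rw [Set.Finite.mem_toFinset]
      exact ⟨hE', hF⟩
    exact congrFun (LinearMap.mem_ker.mp huker) ⟨w, hwC⟩
  -- the forbidden relation
  have hrel := linearIndependent_iff.mp hind
    ((b.repr ((u : H) * t.eval 1)).comapDomain (fun w : {w : HW // w ∈ F ∧ wt w ∈ E} => (w : HW))
      (Subtype.val_injective.injOn)) ?_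
  · apply hx0
    rw [← b.repr.map_eq_zero_iff]
    ext w
    rw [Finsupp.zero_apply]
    by_contra hne
    have h12 := hsupp w hne
    have h13 := DFunLike.congr_fun hrel (⟨w, h12⟩ : {w : HW // w ∈ F ∧ wt w ∈ E})
    rw [Finsupp.comapDomain_apply, Finsupp.zero_apply] at h13
    exact hne h13
  · have h14 : per ((u : H) * t.eval 1) = 0 := by rw [map_mul, hτper, mul_zero]
    rw [← b.linearCombination_repr ((u : H) * t.eval 1)] at h14
    rw [Finsupp.linearCombination_apply, Finsupp.sum, map_sum] at h14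
    rw [Finsupp.linearCombination_apply, Finsupp.sum]
    rw [← h14]
    symm
    refine Finset.sum_bij_ne_zero (fun w hw _ => ⟨w, hsupp w (Finsupp.mem_support_iff.mp hw)⟩)
      ?_ ?_ ?_ ?_
    · intro w hw _
      rw [Finsupp.mem_support_iff, Finsupp.comapDomain_apply]
      exact Finsupp.mem_support_iff.mp hw
    · intro w1 _ _ w2 _ _ h15
      exact congrArg Subtype.val h15
    · intro w hw _
      rw [Finsupp.mem_support_iff, Finsupp.comapDomain_apply] at hw
      refine ⟨w, Finsupp.mem_support_iff.mpr hw, ?_, rfl⟩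
      rw [map_smul]
      intro hc
      rename_i hne
      apply hne
      rw [Finsupp.comapDomain_apply]
      exact hc
    · intro w hw _
      rw [map_smul, Finsupp.comapDomain_apply]

end

end MPe54452
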