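import Mathlib

set_option autoImplicit false

/-!
MP_e54452_nt: growth of a weighted commutative algebra and the number of its irreducibles.

Let `V k` be finite-dimensional rational subspaces of a commutative algebra with `V 0 ≤ span 1` and
`V i * V j ≤ V (i + j)`, and let `Dec V k` be the span of the products of elements of `V i` and
`V (k - i)`, `0 < i < k`. If `dim V k ≥ c y₀ ^ k / k ^ 2`, then for every `0 ≤ y < y₀` there are
infinitely many `k` with `dim V k - dim Dec V k > y ^ k`.
-/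

namespace MPe54452

open Module Submodule Finset

variable {A : Type*} [CommRing A] [Algebra ℚ A]

/-- The span of the decomposable elements of weight `k`: all products of an element of `V i` and an
element of `V (k - i)`, where `0 < i < k`. -/
noncomputable def Dec (V : ℕ → Submodule ℚ A) (k : ℕ) : Submodule ℚ A :=
  ⨆ i ∈ Finset.Ioo 0 k, V i * V (k - i)

/-- The span of the monomials of weight `k` in the elements `g i`, `i ∈ s`, of weights `w i`. -/
noncomputable def Mon {ι : Type*} (g : ι → A) (w : ι → ℕ) (s : Finset ι) (k : ℕ) :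
    Submodule ℚ A :=
  span ℚ {x | ∃ m : ι → ℕ, (∑ i ∈ s, m i * w i = k) ∧ x = ∏ i ∈ s, g i ^ m i}

lemma Mon_insert_le {ι : Type*} [DecidableEq ι] (g : ι → A) (w : ι → ℕ) {s : Finset ι} {a : ι}
    (ha : a ∉ s) (k : ℕ) :
    Mon g w (insert a s) k ≤ Mon g w s k ⊔
      (if w a ≤ k then (Mon g w (insert a s) (k - w a)).map (LinearMap.mulLeft ℚ (g a)) else ⊥) := by
  unfold Mon
  rw [span_le]
  rintro x ⟨m, hm, rfl⟩
  rw [Finset.sum_insert ha] at hm
  rw [Finset.prod_insert ha]
  rcases Nat.eq_zero_or_pos (m a) with h0 | h0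
  · rw [h0, zero_mul, zero_add] at hm
    rw [h0, pow_zero, one_mul]
    exact mem_sup_left (subset_span ⟨m, hm, rfl⟩)
  · obtain ⟨r, hr⟩ : ∃ r, m a = r + 1 := ⟨m a - 1, by omega⟩
    rw [hr] at hm
    have hk : w a ≤ k := by
      rw [← hm, add_mul, one_mul]
      omega
    rw [if_pos hk]
    apply mem_sup_right
    have hsum : ∑ i ∈ s, Function.update m a r i * w i = ∑ i ∈ s, m i * w i := by
      apply Finset.sum_congr rfl
      intro i hi
      rw [Function.update_of_ne (fun h => ha (by rw [← h]; exact hi))]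
    have hprod : ∏ i ∈ s, g i ^ Function.update m a r i = ∏ i ∈ s, g i ^ m i := by
      apply Finset.prod_congr rfl
      intro i hi
      rw [Function.update_of_ne (fun h => ha (by rw [← h]; exact hi))]
    refine mem_map.mpr ⟨∏ i ∈ insert a s, g i ^ Function.update m a r i,
      subset_span ⟨Function.update m a r, ?_, rfl⟩, ?_⟩
    · rw [Finset.sum_insert ha, Function.update_self, hsum, ← hm, add_mul, one_mul]
      omega
    · rw [Finset.prod_insert ha, Function.update_self, hprod, LinearMap.mulLeft_apply, hr,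
        pow_succ]
      ring

lemma Mon_bound {ι : Type*} [DecidableEq ι] (g : ι → A) (w : ι → ℕ) {x : ℝ} (hx0 : 0 < x)
    (hx1 : x < 1) (s : Finset ι) (hw : ∀ i ∈ s, 1 ≤ w i) :
    ∀ k, FiniteDimensional ℚ (Mon g w s k) ∧
      (finrank ℚ (Mon g w s k) : ℝ) * x ^ k ≤ ∏ i ∈ s, (1 - x ^ w i)⁻¹ := by
  induction s using Finset.induction_on with
  | empty =>
    intro k
    have hle : Mon g w ∅ k ≤ span ℚ (({1} : Finset A) : Set A) := by
      unfold Mon
      rw [span_le]
      rintro y ⟨m, hm, rfl⟩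
      rw [Finset.prod_empty]
      exact subset_span (by simp)
    have : FiniteDimensional ℚ (span ℚ (({1} : Finset A) : Set A)) :=
      FiniteDimensional.span_finset ℚ _
    refine ⟨Submodule.finiteDimensional_of_le hle, ?_⟩
    have h1 : finrank ℚ (Mon g w ∅ k) ≤ 1 := by
      calc finrank ℚ (Mon g w ∅ k) ≤ finrank ℚ (span ℚ (({1} : Finset A) : Set A)) :=
            Submodule.finrank_mono hle
        _ ≤ ({1} : Finset A).card := finrank_span_finset_le_card _
        _ = 1 := by simp
    have h2 : x ^ k ≤ 1 := pow_le_one₀ hx0.le hx1.le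
    rw [Finset.prod_empty]
    have h3 : (finrank ℚ (Mon g w ∅ k) : ℝ) ≤ 1 := by exact_mod_cast h1
    calc (finrank ℚ (Mon g w ∅ k) : ℝ) * x ^ k ≤ 1 * 1 :=
          mul_le_mul h3 h2 (pow_pos hx0 k).le zero_le_one
      _ = 1 := one_mul 1
  | insert a s ha ih =>
    have ih' := ih (fun i hi => hw i (Finset.mem_insert_of_mem hi))
    have hwa : 1 ≤ w a := hw a (Finset.mem_insert_self a s)
    have hxa : x ^ w a < 1 := pow_lt_one₀ hx0.le hx1 (by omega)
    have hpos : 0 < 1 - x ^ w a := by linarith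
    have hP : 0 ≤ ∏ i ∈ s, (1 - x ^ w i)⁻¹ := by
      apply Finset.prod_nonneg
      intro i hi
      have : x ^ w i ≤ 1 := pow_le_one₀ hx0.le hx1.le
      exact inv_nonneg.mpr (by linarith)
    intro k
    induction k using Nat.strong_induction_on with
    | _ k ihk =>
      have hle := Mon_insert_le g w ha k
      obtain ⟨hf1, hb1⟩ := ih' k
      rw [Finset.prod_insert ha]
      by_cases hk : w a ≤ k
      · rw [if_pos hk] at hle
        obtain ⟨hf2, hb2⟩ := ihk (k - w a) (by omega)
        rw [Finset.prod_insert ha] at hb2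
        refine ⟨Submodule.finiteDimensional_of_le hle, ?_⟩
        have h1 : finrank ℚ (Mon g w (insert a s) k) ≤ finrank ℚ (Mon g w s k) +
            finrank ℚ (Mon g w (insert a s) (k - w a)) := by
          refine (Submodule.finrank_mono hle).trans ?_
          refine (Submodule.finrank_add_le_finrank_add_finrank _ _).trans ?_
          exact Nat.add_le_add_left (Submodule.finrank_map_le _ _) _
        have h2 : (finrank ℚ (Mon g w (insert a s) k) : ℝ) ≤ finrank ℚ (Mon g w s k) +
            finrank ℚ (Mon g w (insert a s) (k - w a)) := by exact_mod_cast h1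
        have h3 : x ^ k = x ^ (k - w a) * x ^ w a := by
          rw [← pow_add]
          congr 1
          omega
        have h4 : (finrank ℚ (Mon g w (insert a s) (k - w a)) : ℝ) * x ^ k ≤
            (1 - x ^ w a)⁻¹ * (∏ i ∈ s, (1 - x ^ w i)⁻¹) * x ^ w a := by
          rw [h3, ← mul_assoc]
          exact mul_le_mul_of_nonneg_right hb2 (pow_pos hx0 _).le
        calc (finrank ℚ (Mon g w (insert a s) k) : ℝ) * x ^ k
            ≤ (finrank ℚ (Mon g w s k) + finrank ℚ (Mon g w (insert a s) (k - w a))) * x ^ k :=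
              mul_le_mul_of_nonneg_right h2 (pow_pos hx0 k).le
          _ = finrank ℚ (Mon g w s k) * x ^ k +
              finrank ℚ (Mon g w (insert a s) (k - w a)) * x ^ k := by ring
          _ ≤ (∏ i ∈ s, (1 - x ^ w i)⁻¹) +
              (1 - x ^ w a)⁻¹ * (∏ i ∈ s, (1 - x ^ w i)⁻¹) * x ^ w a := add_le_add hb1 h4
          _ = (1 - x ^ w a)⁻¹ * ∏ i ∈ s, (1 - x ^ w i)⁻¹ := by
              field_simp
              ring
      · rw [if_neg hk, sup_bot_eq] at hle
        refine ⟨Submodule.finiteDimensional_of_le hle, ?_⟩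
        have h1 : (finrank ℚ (Mon g w (insert a s) k) : ℝ) ≤ finrank ℚ (Mon g w s k) := by
          exact_mod_cast Submodule.finrank_mono hle
        have h5 : 1 ≤ (1 - x ^ w a)⁻¹ := by
          apply (one_le_inv₀ hpos).mpr
          have := pow_pos hx0 (w a)
          linarith
        calc (finrank ℚ (Mon g w (insert a s) k) : ℝ) * x ^ k
            ≤ finrank ℚ (Mon g w s k) * x ^ k := mul_le_mul_of_nonneg_right h1 (pow_pos hx0 k).le
          _ ≤ 1 * ∏ i ∈ s, (1 - x ^ w i)⁻¹ := by rw [one_mul]; exact hb1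
          _ ≤ (1 - x ^ w a)⁻¹ * ∏ i ∈ s, (1 - x ^ w i)⁻¹ := mul_le_mul_of_nonneg_right h5 hP

lemma Mon_mul {ι : Type*} (g : ι → A) (w : ι → ℕ) (s : Finset ι) (i j : ℕ) :
    Mon g w s i * Mon g w s j ≤ Mon g w s (i + j) := by
  unfold Mon
  rw [span_mul_span]
  apply span_mono
  rintro _ ⟨_, ⟨m, hm, rfl⟩, _, ⟨m', hm', rfl⟩, rfl⟩
  refine ⟨fun l => m l + m' l, ?_, ?_⟩
  · rw [← hm, ← hm', ← Finset.sum_add_distrib]
    exact Finset.sum_congr rfl (fun l _ => add_mul _ _ _)
  · show (∏ l ∈ s, g l ^ m l) * (∏ l ∈ s, g l ^ m' l) = _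
    rw [← Finset.prod_mul_distrib]
    exact Finset.prod_congr rfl (fun l _ => (pow_add _ _ _).symm)

lemma mem_Mon {ι : Type*} [DecidableEq ι] (g : ι → A) (w : ι → ℕ) {s : Finset ι} {a : ι}
    (ha : a ∈ s) : g a ∈ Mon g w s (w a) := by
  unfold Mon
  apply subset_span
  refine ⟨Pi.single a 1, ?_, ?_⟩
  · rw [Finset.sum_eq_single a]
    · simp
    · intro b _ hb
      simp [Pi.single_eq_of_ne hb]
    · intro h
      exact absurd ha h
  · rw [Finset.prod_eq_single a]
    · simp
    · intro b _ hb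
      simp [Pi.single_eq_of_ne hb]
    · intro h
      exact absurd ha h

lemma one_mem_Mon {ι : Type*} (g : ι → A) (w : ι → ℕ) (s : Finset ι) :
    (1 : A) ∈ Mon g w s 0 := by
  unfold Mon
  exact subset_span ⟨fun _ => 0, by simp, by simp⟩

lemma Dec_le (V : ℕ → Submodule ℚ A) (hmul : ∀ i j, V i * V j ≤ V (i + j)) (k : ℕ) :
    Dec V k ≤ V k := by
  unfold Dec
  refine iSup₂_le (fun i hi => ?_)
  rw [Finset.mem_Ioo] at hi
  have := hmul i (k - i)
  rwa [Nat.add_sub_cancel' hi.2.le] at this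

/-- the number of irreducibles of weight `k` -/
noncomputable def irr (V : ℕ → Submodule ℚ A) (k : ℕ) : ℕ := finrank ℚ (V k) - finrank ℚ (Dec V k)

lemma exists_compl (V : ℕ → Submodule ℚ A) [∀ k, FiniteDimensional ℚ (V k)]
    (hmul : ∀ i j, V i * V j ≤ V (i + j)) (k : ℕ) :
    ∃ b : Fin (irr V k) → A, V k ≤ span ℚ (Set.range b) ⊔ Dec V k ∧ ∀ i, b i ∈ V k := by
  classical
  have hD := Dec_le V hmul k
  have : FiniteDimensional ℚ (Dec V k) := Submodule.finiteDimensional_of_le hD
  obtain ⟨C, hC⟩ := Submodule.exists_isCompl ((Dec V k).comap (V k).subtype)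
  have h1 : finrank ℚ ((Dec V k).comap (V k).subtype) = finrank ℚ (Dec V k) :=
    (Submodule.comapSubtypeEquivOfLe hD).finrank_eq
  have h2 := Submodule.finrank_add_eq_of_isCompl hC
  have h3 : finrank ℚ C = irr V k := by
    unfold irr
    omega
  have hfr : Module.Free ℚ C := Module.Free.of_divisionRing ℚ C
  let e := (finBasisOfFinrankEq ℚ C h3)
  refine ⟨fun i => ((e i : V k) : A), ?_, fun i => (e i : V k).2⟩
  intro x hx
  have h4 : (⟨x, hx⟩ : V k) ∈ (Dec V k).comap (V k).subtype ⊔ C := by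
    rw [hC.sup_eq_top]
    exact mem_top
  obtain ⟨d, hd, c, hc, hdc⟩ := Submodule.mem_sup.mp h4
  have h5 : x = (c : A) + (d : A) := by
    have := congrArg (fun z : V k => (z : A)) hdc
    simp only [Submodule.coe_add] at this
    rw [add_comm]
    exact this.symm
  rw [h5]
  apply Submodule.add_mem_sup
  · have h6 : (⟨c, hc⟩ : C) ∈ span ℚ (Set.range e) := by
      rw [e.span_eq]
      exact mem_top
    have h7 : ((V k).subtype.comp C.subtype) (⟨c, hc⟩ : C) ∈
        (span ℚ (Set.range e)).map ((V k).subtype.comp C.subtype) := mem_map_of_mem h6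
    rw [Submodule.map_span, ← Set.range_comp] at h7
    exact h7
  · exact hd

/-- the bound for the dimension by the numbers of irreducibles -/
theorem finrank_le_of_irr (V : ℕ → Submodule ℚ A) [∀ k, FiniteDimensional ℚ (V k)]
    (h0 : V 0 ≤ span ℚ {1}) (hmul : ∀ i j, V i * V j ≤ V (i + j)) {x : ℝ} (hx0 : 0 < x)
    (hx1 : x < 1) (K : ℕ) :
    (finrank ℚ (V K) : ℝ) * x ^ K ≤ ∏ j ∈ range K, ((1 - x ^ (j + 1))⁻¹) ^ irr V (j + 1) := by
  classical
  choose b hb hbm using fun k => exists_compl V hmul k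
  let ι := Σ j : Fin K, Fin (irr V (j + 1))
  let g : ι → A := fun p => b (p.1 + 1) p.2
  let w : ι → ℕ := fun p => p.1 + 1
  have key : ∀ k ≤ K, V k ≤ Mon g w univ k := by
    intro k
    induction k using Nat.strong_induction_on with
    | _ k ih =>
      intro hk
      rcases Nat.eq_zero_or_pos k with hk0 | hk0
      · subst hk0
        refine h0.trans ?_
        rw [span_le, Set.singleton_subset_iff]
        exact one_mem_Mon g w univ
      · refine (hb k).trans (sup_le ?_ ?_)
        · rw [span_le]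
          rintro _ ⟨i, rfl⟩
          obtain ⟨r, rfl⟩ : ∃ r, k = r + 1 := ⟨k - 1, by omega⟩
          exact mem_Mon g w (s := univ) (a := (⟨⟨r, by omega⟩, i⟩ : ι)) (mem_univ _)
        · unfold Dec
          refine iSup₂_le (fun i hi => ?_)
          rw [Finset.mem_Ioo] at hi
          refine (mul_le_mul' (ih i (by omega) (by omega))
            (ih (k - i) (by omega) (by omega))).trans ?_
          have := Mon_mul g w univ i (k - i)
          rwa [Nat.add_sub_cancel' hi.2.le] at this
  obtain ⟨hf, hB⟩ := Mon_bound g w hx0 hx1 univ (fun i _ => Nat.succ_le_succ (Nat.zero_le _)) K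
  have h1 : (finrank ℚ (V K) : ℝ) ≤ finrank ℚ (Mon g w univ K) := by
    exact_mod_cast Submodule.finrank_mono (key K le_rfl)
  calc (finrank ℚ (V K) : ℝ) * x ^ K ≤ finrank ℚ (Mon g w univ K) * x ^ K :=
        mul_le_mul_of_nonneg_right h1 (pow_pos hx0 K).le
    _ ≤ ∏ i : ι, (1 - x ^ w i)⁻¹ := hB
    _ = ∏ j : Fin K, ((1 - x ^ ((j : ℕ) + 1))⁻¹) ^ irr V (j + 1) := by
        rw [Fintype.prod_sigma]
        apply Finset.prod_congr rfl
        intro j _
        simp only [w, Finset.prod_const, Finset.card_univ, Fintype.card_fin]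
    _ = ∏ j ∈ range K, ((1 - x ^ (j + 1))⁻¹) ^ irr V (j + 1) := by
        rw [Finset.prod_range]

/-- **many irreducibles.** -/
theorem many_irr (V : ℕ → Submodule ℚ A) [∀ k, FiniteDimensional ℚ (V k)]
    (h0 : V 0 ≤ span ℚ {1}) (hmul : ∀ i j, V i * V j ≤ V (i + j)) {c y₀ : ℝ} (hc : 0 < c)
    (hy₀ : 1 < y₀) (hgrow : ∀ k : ℕ, 2 ≤ k → c * y₀ ^ k / (k : ℝ) ^ 2 ≤ finrank ℚ (V k))
    {y : ℝ} (hy : 0 ≤ y) (hyy : y < y₀) (J : ℕ) :
    ∃ k, J ≤ k ∧ y ^ k < (finrank ℚ (V k) : ℝ) - finrank ℚ (Dec V k) := by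
  by_contra hcon
  push Not at hcon
  have hD : ∀ k, (irr V k : ℝ) = (finrank ℚ (V k) : ℝ) - finrank ℚ (Dec V k) := by
    intro k
    unfold irr
    rw [Nat.cast_sub (Submodule.finrank_mono (Dec_le V hmul k))]
  have hirr : ∀ k, J ≤ k → (irr V k : ℝ) ≤ y ^ k := by
    intro k hk
    rw [hD]
    exact hcon k hk
  -- choice of x
  obtain ⟨x, hx1, hx2⟩ : ∃ x : ℝ, y₀⁻¹ < x ∧ x < (max y 1)⁻¹ :=
    exists_between (inv_strictAnti₀ (lt_of_lt_of_le one_pos (le_max_right _ _))
      (max_lt hyy hy₀))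
  have hy0pos : 0 < y₀ := by linarith
  have hx0 : 0 < x := lt_trans (inv_pos.mpr hy0pos) hx1
  have hm1 : (1 : ℝ) ≤ max y 1 := le_max_right _ _
  have hxlt1 : x < 1 := lt_of_lt_of_le hx2 (inv_le_one_of_one_le₀ hm1)
  have hxy1 : x * max y 1 < 1 := by
    have h1 := mul_lt_mul_of_pos_right hx2 (by linarith : (0 : ℝ) < max y 1)
    rwa [inv_mul_cancel₀ (by linarith : (max y 1 : ℝ) ≠ 0)] at h1
  have hxy : x * y < 1 :=
    lt_of_le_of_lt (mul_le_mul_of_nonneg_left (le_max_left _ _) hx0.le) hxy1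
  have hxy0 : 0 ≤ x * y := mul_nonneg hx0.le hy
  have hz : 1 < x * y₀ := by
    have h1 := mul_lt_mul_of_pos_right hx1 hy0pos
    rwa [inv_mul_cancel₀ hy0pos.ne'] at h1
  -- the sum of `irr V j x ^ j` is bounded
  set S : ℝ := ∑ j ∈ range J, (irr V (j + 1) : ℝ) * x ^ (j + 1) + (1 - x * y)⁻¹ with hS
  have hsum : ∀ K, ∑ j ∈ range K, (irr V (j + 1) : ℝ) * x ^ (j + 1) ≤ S := by
    intro K
    have h1 : ∀ j ∈ range K, (irr V (j + 1) : ℝ) * x ^ (j + 1) ≤
        (if j < J then (irr V (j + 1) : ℝ) * x ^ (j + 1) else 0) + (x * y) ^ j := by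
      intro j _
      split_ifs with hj
      · have := pow_nonneg hxy0 j
        linarith
      · have h2 := mul_le_mul_of_nonneg_right (hirr (j + 1) (by omega)) (pow_pos hx0 (j + 1)).le
        have h3 : y ^ (j + 1) * x ^ (j + 1) = (x * y) ^ j * (x * y) := by
          rw [← pow_succ, mul_pow]
          ring
        have h4 : (x * y) ^ j * (x * y) ≤ (x * y) ^ j * 1 :=
          mul_le_mul_of_nonneg_left hxy.le (pow_nonneg hxy0 j)
        linarith
    refine (Finset.sum_le_sum h1).trans ?_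
    rw [Finset.sum_add_distrib, hS]
    apply add_le_add
    · rw [← Finset.sum_filter]
      apply Finset.sum_le_sum_of_subset_of_nonneg
      · intro j hj
        rw [Finset.mem_filter] at hj
        exact Finset.mem_range.mpr hj.2
      · intro j _ _
        exact mul_nonneg (Nat.cast_nonneg _) (pow_pos hx0 _).le
    · have h5 := (summable_geometric_of_lt_one hxy0 hxy).sum_le_tsum (range K)
        (fun j _ => pow_nonneg hxy0 j)
      rwa [tsum_geometric_of_lt_one hxy0 hxy] at h5
  have hx1' : 0 < 1 - x := by linarith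
  have hexp : ∀ j, (1 - x ^ (j + 1))⁻¹ ≤ Real.exp (x ^ (j + 1) / (1 - x)) := by
    intro j
    have h1 : x ^ (j + 1) ≤ x := by
      calc x ^ (j + 1) ≤ x ^ 1 := pow_le_pow_of_le_one hx0.le hxlt1.le (by omega)
        _ = x := pow_one x
    have h2 : 0 < 1 - x ^ (j + 1) := by linarith
    have h3 : (1 - x ^ (j + 1))⁻¹ = x ^ (j + 1) / (1 - x ^ (j + 1)) + 1 := by
      field_simp
      ring
    rw [h3]
    refine (Real.add_one_le_exp _).trans (Real.exp_le_exp.mpr ?_)
    exact div_le_div_of_nonneg_left (pow_pos hx0 _).le hx1' (by linarith)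
  have hbd : ∀ K, (finrank ℚ (V K) : ℝ) * x ^ K ≤ Real.exp (S / (1 - x)) := by
    intro K
    refine (finrank_le_of_irr V h0 hmul hx0 hxlt1 K).trans ?_
    calc ∏ j ∈ range K, ((1 - x ^ (j + 1))⁻¹) ^ irr V (j + 1)
        ≤ ∏ j ∈ range K, Real.exp (x ^ (j + 1) / (1 - x)) ^ irr V (j + 1) := by
          apply Finset.prod_le_prod
          · intro j _
            apply pow_nonneg
            apply inv_nonneg.mpr
            have : x ^ (j + 1) ≤ 1 := pow_le_one₀ hx0.le hxlt1.le
            linarith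
          · intro j _
            apply pow_le_pow_left₀ _ (hexp j)
            apply inv_nonneg.mpr
            have : x ^ (j + 1) ≤ 1 := pow_le_one₀ hx0.le hxlt1.le
            linarith
      _ = Real.exp ((∑ j ∈ range K, (irr V (j + 1) : ℝ) * x ^ (j + 1)) / (1 - x)) := by
          rw [Finset.sum_div, Real.exp_sum]
          apply Finset.prod_congr rfl
          intro j _
          rw [← Real.exp_nat_mul]
          congr 1
          ring
      _ ≤ Real.exp (S / (1 - x)) :=
          Real.exp_le_exp.mpr (div_le_div_of_nonneg_right (hsum K) hx1'.le)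
  -- contradiction with the growth
  have hlim := tendsto_pow_const_div_const_pow_of_one_lt 2 hz
  have hM : 0 < c / Real.exp (S / (1 - x)) := div_pos hc (Real.exp_pos _)
  have hev := (hlim.eventually (gt_mem_nhds hM)).and (Filter.eventually_ge_atTop 2)
  obtain ⟨k, hk1, hk2⟩ := hev.exists
  have hkpos : (0 : ℝ) < k := by
    have : 0 < k := by omega
    exact_mod_cast this
  have h1 := hbd k
  have h2 := mul_le_mul_of_nonneg_right (hgrow k hk2) (pow_pos hx0 k).le
  have h3 : c * y₀ ^ k / (k : ℝ) ^ 2 * x ^ k = c * (x * y₀) ^ k / (k : ℝ) ^ 2 := by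
    rw [mul_pow]
    ring
  rw [h3] at h2
  have h4 : c * (x * y₀) ^ k / (k : ℝ) ^ 2 ≤ Real.exp (S / (1 - x)) := h2.trans h1
  rw [div_lt_div_iff₀ (pow_pos (by linarith) k) (Real.exp_pos _)] at hk1
  rw [div_le_iff₀ (pow_pos hkpos 2)] at h4
  linarith

end MPe54452
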