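import Pool.Agent.Lib.MP_e54452_nt.MzvDim
import Pool.Agent.Lib.MP_e54452_nt.Indec

set_option autoImplicit false

/-!
MP_e54452_nt: irreducible multiple zeta values in infinitely many weights, given exponential growth.
-/

namespace MPe54452

open Module

theorem Z_zero_le : Z 0 ≤ Submodule.span ℚ {1} := by
  unfold Z
  rw [Submodule.span_le]
  rintro x ⟨s, hs, hsum, rfl⟩
  cases s with
  | nil => exact Submodule.subset_span rfl
  | cons a l =>
    have h1 := hs.1
    rw [List.sum_cons] at hsum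
    omega

theorem Z_mul_le (i j : ℕ) : Z i * Z j ≤ Z (i + j) :=
  Submodule.mul_le.mpr (fun a ha b hb => Z_mul i j a b ha hb)

/-- If `dim Z k ≥ c y₀ ^ k / k ^ 2` for all `k ≥ 2`, then for every `0 ≤ y < y₀` there are infinitely
many weights `k` such that more than `y ^ k` irreducibles of weight `k` are needed. -/
theorem Z_many_irr {c y₀ : ℝ} (hc : 0 < c) (hy₀ : 1 < y₀)
    (hgrow : ∀ k : ℕ, 2 ≤ k → c * y₀ ^ k / (k : ℝ) ^ 2 ≤ finrank ℚ (Z k))
    {y : ℝ} (hy : 0 ≤ y) (hyy : y < y₀) (J : ℕ) :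
    ∃ k, J ≤ k ∧ y ^ k < (finrank ℚ (Z k) : ℝ) - finrank ℚ (Dec Z k) :=
  many_irr Z Z_zero_le Z_mul_le hc hy₀ hgrow hy hyy J

end MPe54452
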