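import Pool.Agent.Lib.MP_e54452_nt.Cramer

namespace MPe54452

open Polynomial

variable {R : Type*} [CommRing R] [IsDomain R]

lemma exists_two_three (M : ℕ) (hM : 2 ≤ M) : ∃ α β : ℕ, 3 * β + 2 * α = M ∧ β ≤ 1 := by
  rcases Nat.even_or_odd' M with ⟨m, hm | hm⟩
  · exact ⟨m, 0, by omega, by omega⟩
  · exact ⟨m - 1, 1, by omega, by omega⟩

omit [IsDomain R] in
lemma pow_mem_graded (V : ℕ → AddSubgroup R) (h1 : (1 : R) ∈ V 0)
    (hmul : ∀ k l a b, a ∈ V k → b ∈ V l → a * b ∈ V (k + l)) {x : R} {g : ℕ} (hx : x ∈ V g)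
    (n : ℕ) : x ^ n ∈ V (g * n) := by
  have h2 := prod_mem_graded V h1 hmul (Finset.range n) (fun _ => x) g (fun _ _ => hx)
  simpa using h2

/-- Multiplying a nonzero polynomial `r` with `r_j ∈ V j` by a suitable nonzero `s`, with
`s_l ∈ V (l - c)`, makes all coefficients outside `K` vanish. -/
theorem K_lemma (V : ℕ → AddSubgroup R) (h1 : (1 : R) ∈ V 0)
    (hmul : ∀ k l a b, a ∈ V k → b ∈ V l → a * b ∈ V (k + l))
    {x y : R} (hx : x ∈ V 2) (hy : y ∈ V 3) (hx0 : x ≠ 0) (hy0 : y ≠ 0)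
    (r : R[X]) (hrV : ∀ j, r.coeff j ∈ V j) (b : ℕ) (hb : r.natDegree ≤ b)
    (K : Set ℕ) [DecidablePred (· ∈ K)] (k0 δ c : ℕ)
    (hcard : b + 1 ≤ ((Finset.Icc k0 (k0 + δ)).filter (· ∈ K)).card)
    (hk0 : (3 * b + 2) * δ + c + 2 ≤ k0) :
    ∃ s : R[X], s ≠ 0 ∧ (∀ l, s.coeff l ≠ 0 → k0 ≤ l ∧ l ≤ k0 + δ) ∧
      (∀ l, c ≤ l → s.coeff l ∈ V (l - c)) ∧ (∀ k, k ∉ K → (r * s).coeff k = 0) ∧
      (∀ k, (r * s).coeff k ≠ 0 → k0 ≤ k ∧ k ≤ k0 + δ) := by
  classical
  have hbδ : b ≤ δ := by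
    have h2 : ((Finset.Icc k0 (k0 + δ)).filter (· ∈ K)).card ≤ (Finset.Icc k0 (k0 + δ)).card :=
      Finset.card_filter_le _ _
    rw [Nat.card_Icc] at h2
    omega
  let Pf : Finset ℕ := (Finset.Icc k0 (k0 + δ)).filter (fun k => ¬ k ∈ K)
  let Qf : Finset ℕ := Finset.Icc k0 (k0 + δ - b)
  have hPcard : Pf.card ≤ δ - b := by
    have h3 := Finset.card_filter_add_card_filter_not (s := Finset.Icc k0 (k0 + δ)) (fun k => k ∈ K)
    rw [Nat.card_Icc] at h3
    simp only [Pf]
    omega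
  have hQcard : Qf.card = δ - b + 1 := by
    simp only [Qf, Nat.card_Icc]
    omega
  let M : Pf → Qf → R := fun k l =>
    if (l : ℕ) ≤ k ∧ (k : ℕ) ≤ l + b then
      r.coeff (k - l) * x ^ ((k : ℕ) - l) * y ^ (b - ((k : ℕ) - l)) else 0
  have hM : ∀ k l, M k l ∈ V (3 * b) := by
    intro k l
    simp only [M]
    split_ifs with h
    · have h4 := hmul _ _ _ _ (hmul _ _ _ _ (hrV ((k : ℕ) - l))
        (pow_mem_graded V h1 hmul hx ((k : ℕ) - l)))
        (pow_mem_graded V h1 hmul hy (b - ((k : ℕ) - l)))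
      have h5 : (k : ℕ) - l + 2 * ((k : ℕ) - l) + 3 * (b - ((k : ℕ) - l)) = 3 * b := by omega
      rwa [h5] at h4
    · exact (V _).zero_mem
  have hlt : Fintype.card Pf < Fintype.card Qf := by
    rw [Fintype.card_coe, Fintype.card_coe]
    omega
  obtain ⟨ρ, hρ, C, hC0, hCV, hCk⟩ := exists_kernel_graded V h1 hmul M (3 * b) hM hlt
  rw [Fintype.card_coe] at hρ
  have hρδ : ρ ≤ δ := by omega
  have hmulle : 3 * b * ρ ≤ 3 * b * δ := Nat.mul_le_mul_left _ hρδ
  have hexp : (3 * b + 2) * δ = 3 * b * δ + 2 * δ := by ring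
  obtain ⟨α, β, hαβ, hβ1⟩ := exists_two_three (k0 + 2 * b - 2 * δ - 3 * b * ρ - c) (by omega)
  obtain ⟨A, hA⟩ : ∃ A : ℕ, A = k0 + δ - b + α := ⟨_, rfl⟩
  obtain ⟨B, hB⟩ : ∃ B : ℕ, B = k0 - β := ⟨_, rfl⟩
  let sc : Qf → R := fun l => C l * x ^ (A - l) * y ^ ((l : ℕ) - B)
  let s : R[X] := ∑ l : Qf, Polynomial.C (sc l) * X ^ (l : ℕ)
  have hscoeff : ∀ n, s.coeff n = if h : n ∈ Qf then sc ⟨n, h⟩ else 0 := by
    intro n
    simp only [s, finsetSum_coeff, coeff_C_mul, coeff_X_pow]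
    split_ifs with h
    · rw [Finset.sum_eq_single (⟨n, h⟩ : Qf)]
      · simp
      · intro l _ hl
        rw [if_neg, mul_zero]
        intro hnl
        exact hl (Subtype.ext hnl.symm)
      · simp
    · refine Finset.sum_eq_zero ?_
      intro l _
      rw [if_neg, mul_zero]
      intro hnl
      apply h
      rw [hnl]
      exact l.2
  have hrs : ∀ n, (r * s).coeff n = ∑ l : Qf, if (l : ℕ) ≤ n then r.coeff (n - l) * sc l else 0 := by
    intro n
    simp only [s, Finset.mul_sum, finsetSum_coeff]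
    refine Finset.sum_congr rfl ?_
    intro l _
    have h6 : r * (Polynomial.C (sc l) * X ^ (l : ℕ)) = Polynomial.C (sc l) * (r * X ^ (l : ℕ)) := by
      ring
    rw [h6, coeff_C_mul, coeff_mul_X_pow']
    split_ifs
    · ring
    · simp
  have hQmem : ∀ l : Qf, k0 ≤ (l : ℕ) ∧ (l : ℕ) ≤ k0 + δ - b := by
    intro l
    have h7 := l.2
    simp only [Qf, Finset.mem_Icc] at h7
    exact h7
  have hwin : ∀ k, (r * s).coeff k ≠ 0 → k0 ≤ k ∧ k ≤ k0 + δ := by
    intro k hk
    rw [hrs] at hk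
    obtain ⟨l, _, hl⟩ := Finset.exists_ne_zero_of_sum_ne_zero hk
    have h8 := hQmem l
    split_ifs at hl with h9
    · refine ⟨by omega, ?_⟩
      by_contra hcon
      apply hl
      rw [coeff_eq_zero_of_natDegree_lt (by omega), zero_mul]
    · exact absurd rfl hl
  refine ⟨s, ?_, ?_, ?_, ?_, hwin⟩
  · intro hs0
    obtain ⟨l, hl⟩ := Function.ne_iff.mp hC0
    have h10 := hscoeff (l : ℕ)
    rw [hs0, dif_pos l.2] at h10
    simp only [coeff_zero, sc] at h10
    have h11 := mul_ne_zero (mul_ne_zero hl (pow_ne_zero (A - l) hx0))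
      (pow_ne_zero ((l : ℕ) - B) hy0)
    exact h11 h10.symm
  · intro l hl
    rw [hscoeff] at hl
    split_ifs at hl with h12
    · have h13 := hQmem ⟨l, h12⟩
      simp only at h13
      omega
    · exact absurd rfl hl
  · intro l hcl
    rw [hscoeff]
    split_ifs with h14
    · have h15 := hQmem ⟨l, h14⟩
      simp only at h15
      simp only [sc]
      have h16 := hmul _ _ _ _ (hmul _ _ _ _ (hCV ⟨l, h14⟩)
        (pow_mem_graded V h1 hmul hx (A - l))) (pow_mem_graded V h1 hmul hy (l - B))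
      have h17 : 3 * b * ρ + 2 * (A - l) + 3 * (l - B) = l - c := by omega
      rwa [h17] at h16
    · exact (V _).zero_mem
  · intro k hkK
    by_contra hne
    have hkw := hwin k hne
    have hkP : k ∈ Pf := by
      simp only [Pf, Finset.mem_filter, Finset.mem_Icc]
      exact ⟨hkw, hkK⟩
    have h18 := hCk ⟨k, hkP⟩
    apply hne
    have hcancel : (x ^ k * y ^ (b + B)) * (r * s).coeff k = 0 := by
      rw [hrs, Finset.mul_sum]
      have h19 : ∑ l : Qf, x ^ k * y ^ (b + B) *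
          (if (l : ℕ) ≤ k then r.coeff (k - l) * sc l else 0) =
          ∑ l : Qf, (x ^ A * y ^ k) * (M ⟨k, hkP⟩ l * C l) := by
        refine Finset.sum_congr rfl ?_
        intro l _
        have h20 := hQmem l
        by_cases hlk : (l : ℕ) ≤ k
        · by_cases hkb : k ≤ l + b
          · simp only [M, sc]
            rw [if_pos hlk, if_pos ⟨hlk, hkb⟩]
            have e1 : x ^ k * x ^ (A - (l : ℕ)) = x ^ (k - (l : ℕ)) * x ^ A := by
              rw [← pow_add, ← pow_add]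
              congr 1
              omega
            have e2 : y ^ (b + B) * y ^ ((l : ℕ) - B) = y ^ (b - (k - (l : ℕ))) * y ^ k := by
              rw [← pow_add, ← pow_add]
              congr 1
              omega
            calc x ^ k * y ^ (b + B) * (r.coeff (k - l) * (C l * x ^ (A - (l : ℕ)) *
                  y ^ ((l : ℕ) - B)))
                = r.coeff (k - l) * C l * (x ^ k * x ^ (A - (l : ℕ))) *
                  (y ^ (b + B) * y ^ ((l : ℕ) - B)) := by ring
              _ = x ^ A * y ^ k * (r.coeff (k - l) * x ^ (k - (l : ℕ)) *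
                  y ^ (b - (k - (l : ℕ))) * C l) := by
                  rw [e1, e2]; ring
          · simp only [M]
            rw [if_pos hlk, if_neg (fun h => hkb h.2), zero_mul, mul_zero,
              coeff_eq_zero_of_natDegree_lt (by omega), zero_mul, mul_zero]
        · simp only [M]
          rw [if_neg hlk, if_neg (fun h => hlk h.1), zero_mul, mul_zero, mul_zero]
      rw [h19, ← Finset.mul_sum, h18, mul_zero]
    exact (mul_eq_zero.mp hcancel).resolve_left
      (mul_ne_zero (pow_ne_zero _ hx0) (pow_ne_zero _ hy0))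

end MPe54452
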