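import Pool.Agent.Lib.MP_e54452_nt.IndecZ

set_option autoImplicit false

/-!
MP_e54452_nt: multiple zeta values that are new modulo products and modulo all lower weights.
-/

namespace MPe54452

open Module

/-- The span of all multiple zeta values of weight at most `k` (and `1`). -/
noncomputable def ZLe (k : ℕ) : Submodule ℚ ℝ := ⨆ j ∈ Finset.range (k + 1), Z j

theorem Z_le_ZLe {j k : ℕ} (h : j ≤ k) : Z j ≤ ZLe k := by
  unfold ZLe
  exact le_iSup₂_of_le j (Finset.mem_range.mpr (by omega)) le_rfl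

theorem ZLe_le {k : ℕ} {S : Submodule ℚ ℝ} (h : ∀ j, j ≤ k → Z j ≤ S) : ZLe k ≤ S := by
  unfold ZLe
  refine iSup₂_le ?_
  intro j hj
  exact h j (by have := Finset.mem_range.mp hj; omega)

theorem ZLe_mono {i k : ℕ} (h : i ≤ k) : ZLe i ≤ ZLe k :=
  ZLe_le fun _ hj => Z_le_ZLe (hj.trans h)

instance instFiniteZLe (k : ℕ) : FiniteDimensional ℚ (ZLe k) := by
  have h : ZLe k = (Finset.range (k + 1)).sup Z := by
    unfold ZLe
    rw [Finset.sup_eq_iSup]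
  rw [h]
  exact Submodule.finiteDimensional_finset_sup _ _

theorem ZLe_mul_le (i j : ℕ) : ZLe i * ZLe j ≤ ZLe (i + j) := by
  have h1 : ∀ a, a ≤ i → Z a * ZLe j ≤ ZLe (i + j) := by
    intro a ha
    rw [mul_comm]
    have h2 : ZLe j * Z a ≤ ⨆ b ∈ Finset.range (j + 1), Z b * Z a := by
      unfold ZLe
      rw [Submodule.iSup_mul]
      refine iSup_mono ?_
      intro b
      rw [Submodule.iSup_mul]
    refine h2.trans (iSup₂_le ?_)
    intro b hb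
    have hb' := Finset.mem_range.mp hb
    exact (Z_mul_le b a).trans (Z_le_ZLe (by omega))
  have h3 : ZLe i * ZLe j ≤ ⨆ a ∈ Finset.range (i + 1), Z a * ZLe j := by
    conv_lhs => rw [ZLe]
    rw [Submodule.iSup_mul]
    refine iSup_mono ?_
    intro b
    rw [Submodule.iSup_mul]
  refine h3.trans (iSup₂_le ?_)
  intro a ha
  have ha' := Finset.mem_range.mp ha
  exact h1 a (by omega)

theorem one_mem_Z_zero : (1 : ℝ) ∈ Z 0 := by
  exact Submodule.subset_span ⟨[], trivial, rfl, rfl⟩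

/-- The subspace of old elements: lower weights and products. -/
theorem Old_le_Dec (k : ℕ) (hk : 2 ≤ k) :
    ZLe (k - 1) ⊔ (⨆ i ∈ Finset.Ioo 0 k, Z i * Z (k - i)) ≤ Dec ZLe k := by
  refine sup_le ?_ ?_
  · unfold Dec
    refine le_iSup₂_of_le 1 (Finset.mem_Ioo.mpr ⟨by omega, by omega⟩) ?_
    intro x hx
    have h1 : (1 : ℝ) ∈ ZLe 1 := Z_le_ZLe (Nat.zero_le 1) one_mem_Z_zero
    have := Submodule.mul_mem_mul h1 hx
    rwa [one_mul] at this
  · unfold Dec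
    refine iSup₂_mono ?_
    intro i hi
    exact mul_le_mul' (Z_le_ZLe le_rfl) (Z_le_ZLe le_rfl)

theorem ZLe_eq (k : ℕ) (hk : 1 ≤ k) : ZLe k = ZLe (k - 1) ⊔ Z k := by
  apply le_antisymm
  · apply ZLe_le
    intro j hj
    rcases Nat.lt_or_ge j k with h | h
    · exact (Z_le_ZLe (by omega : j ≤ k - 1)).trans le_sup_left
    · have : j = k := by omega
      rw [this]
      exact le_sup_right
  · exact sup_le (ZLe_mono (by omega)) (Z_le_ZLe le_rfl)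

/-- If `dim Z k ≥ c y₀ ^ k / k ^ 2` for all `k ≥ 2`, then for every `0 ≤ y < y₀` there are infinitely
many weights `k` in which more than `y ^ k` multiple zeta values are new modulo products and lower
weights. -/
theorem new_weight {c y₀ : ℝ} (hc : 0 < c) (hy₀ : 1 < y₀)
    (hgrow : ∀ k : ℕ, 2 ≤ k → c * y₀ ^ k / (k : ℝ) ^ 2 ≤ finrank ℚ (Z k))
    {y : ℝ} (hy : 0 ≤ y) (hyy : y < y₀) (J : ℕ) :
    ∃ k, J ≤ k ∧ y ^ k < (finrank ℚ (ZLe k) : ℝ) -
      (finrank ℚ (ZLe (k - 1) ⊔ ⨆ i ∈ Finset.Ioo 0 k, Z i * Z (k - i) : Submodule ℚ ℝ) : ℝ) := by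
  have h0 : ZLe 0 ≤ Submodule.span ℚ {1} := by
    apply ZLe_le
    intro j hj
    have : j = 0 := by omega
    rw [this]
    exact Z_zero_le
  have hgrow' : ∀ k : ℕ, 2 ≤ k → c * y₀ ^ k / (k : ℝ) ^ 2 ≤ finrank ℚ (ZLe k) := by
    intro k hk
    refine (hgrow k hk).trans ?_
    exact_mod_cast Submodule.finrank_mono (Z_le_ZLe (le_refl k))
  obtain ⟨k, hk, hlt⟩ := many_irr ZLe h0 ZLe_mul_le hc hy₀ hgrow' hy hyy (max J 2)
  refine ⟨k, (le_max_left J 2).trans hk, hlt.trans_le ?_⟩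
  have hk2 : 2 ≤ k := (le_max_right J 2).trans hk
  have hfin : FiniteDimensional ℚ (Dec ZLe k) :=
    Submodule.finiteDimensional_of_le (Dec_le ZLe ZLe_mul_le k)
  have h1 := Submodule.finrank_mono (Old_le_Dec k hk2)
  have h2 : (finrank ℚ (ZLe (k - 1) ⊔ ⨆ i ∈ Finset.Ioo 0 k, Z i * Z (k - i) :
      Submodule ℚ ℝ) : ℝ) ≤ (finrank ℚ (Dec ZLe k) : ℝ) := by exact_mod_cast h1
  linarith

theorem new_le_old (k : ℕ) (hk : 2 ≤ k) :
    (finrank ℚ (ZLe k) : ℝ) -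
      (finrank ℚ (ZLe (k - 1) ⊔ ⨆ i ∈ Finset.Ioo 0 k, Z i * Z (k - i) : Submodule ℚ ℝ) : ℝ) ≤
    (finrank ℚ (Z k) : ℝ) -
      (finrank ℚ (⨆ i ∈ Finset.Ioo 0 k, Z i * Z (k - i) : Submodule ℚ ℝ) : ℝ) := by
  have hD : (⨆ i ∈ Finset.Ioo 0 k, Z i * Z (k - i) : Submodule ℚ ℝ) ≤ Z k :=
    Dec_le Z Z_mul_le k
  generalize (⨆ i ∈ Finset.Ioo 0 k, Z i * Z (k - i) : Submodule ℚ ℝ) = D at hD ⊢
  have hfin : FiniteDimensional ℚ D := Submodule.finiteDimensional_of_le hD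
  rw [ZLe_eq k (by omega)]
  have e1 := Submodule.finrank_sup_add_finrank_inf_eq (ZLe (k - 1)) (Z k)
  have e2 := Submodule.finrank_sup_add_finrank_inf_eq (ZLe (k - 1)) D
  have hfin2 : FiniteDimensional ℚ (ZLe (k - 1) ⊓ Z k : Submodule ℚ ℝ) :=
    Submodule.finiteDimensional_of_le inf_le_right
  have e3 : finrank ℚ (ZLe (k - 1) ⊓ D : Submodule ℚ ℝ) ≤
      finrank ℚ (ZLe (k - 1) ⊓ Z k : Submodule ℚ ℝ) :=
    Submodule.finrank_mono (inf_le_inf_left _ hD)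
  have e1' : (finrank ℚ (ZLe (k - 1) ⊔ Z k : Submodule ℚ ℝ) : ℝ) +
      finrank ℚ (ZLe (k - 1) ⊓ Z k : Submodule ℚ ℝ) =
      finrank ℚ (ZLe (k - 1)) + finrank ℚ (Z k) := by exact_mod_cast e1
  have e2' : (finrank ℚ (ZLe (k - 1) ⊔ D : Submodule ℚ ℝ) : ℝ) +
      finrank ℚ (ZLe (k - 1) ⊓ D : Submodule ℚ ℝ) =
      finrank ℚ (ZLe (k - 1)) + finrank ℚ D := by exact_mod_cast e2
  have e3' : (finrank ℚ (ZLe (k - 1) ⊓ D : Submodule ℚ ℝ) : ℝ) ≤
      finrank ℚ (ZLe (k - 1) ⊓ Z k : Submodule ℚ ℝ) := by exact_mod_cast e3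
  linarith

end MPe54452
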