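import Pool.Agent.Lib.MP_e54452_nt.Thick
import Pool.Agent.Lib.MP_e54452_nt.Blocks

namespace MPe54452

open Module

lemma Dk_eq_ncard (X : ℕ) : {w : HW | wt w ≤ X}.ncard = Dk X := by
  classical
  have h1 : {w : HW | wt w ≤ X} = ((Finset.range (X + 1)).biUnion wordsF : Set HW) := by
    ext w
    rw [Finset.mem_coe, Finset.mem_biUnion]
    constructor
    · intro hw
      have hw' : wt w ≤ X := hw
      exact ⟨wt w, Finset.mem_range.mpr (by omega), (mem_wordsF _ _).mpr rfl⟩
    · rintro ⟨j, hj, hw⟩
      have hw' : wt w = j := (mem_wordsF _ _).mp hw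
      have := Finset.mem_range.mp hj
      change wt w ≤ X
      omega
  rw [h1, Set.ncard_coe_finset, Finset.card_biUnion]
  · unfold Dk
    exact Finset.sum_congr rfl (fun j _ => card_wordsF j)
  · intro i _ j _ hij
    rw [Function.onFun, Finset.disjoint_left]
    intro w hw1 hw2
    rw [mem_wordsF] at hw1 hw2
    exact hij (hw1.symm.trans hw2)

/-- The period map on `P = H[L, L⁻¹]` is injective exactly when it is on `H`. -/
theorem perP_injective_iff {H P : Type*} [CommRing H] [Algebra ℚ H] [CommRing P] [Algebra ℚ P]
    (per : H →ₐ[ℚ] ℝ) (ι : H →ₐ[ℚ] P) (hι : Function.Injective ι) (L : P) (hL : IsUnit L)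
    (hP : ∀ p : P, ∃ n : ℕ, ∃ h₀ h₁ : H, L ^ n * p = ι h₀ + ι h₁ * L)
    (perP : P →ₐ[ℚ] ℂ) (hperP : ∀ h, perP (ι h) = ((per h : ℝ) : ℂ))
    (hperL : perP L = 2 * Real.pi * Complex.I) :
    Function.Injective perP ↔ Function.Injective per := by
  constructor
  · intro hinj
    rw [injective_iff_map_eq_zero]
    intro h hh
    apply hι
    apply hinj
    rw [hperP, hh, map_zero, map_zero, Complex.ofReal_zero]
  · intro hinj
    rw [injective_iff_map_eq_zero]
    intro p hp
    obtain ⟨n, h₀, h₁, hn⟩ := hP p
    have h1 := congrArg perP hn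
    rw [map_mul, hp, mul_zero, map_add, map_mul, hperP, hperP, hperL] at h1
    have hre := congrArg Complex.re h1
    have him := congrArg Complex.im h1
    simp only [Complex.zero_re, Complex.zero_im, Complex.add_re, Complex.add_im, Complex.mul_re,
      Complex.mul_im, Complex.ofReal_re, Complex.ofReal_im, Complex.I_re, Complex.I_im,
      Complex.re_ofNat, Complex.im_ofNat, mul_zero, zero_mul, mul_one, sub_zero, add_zero,
      sub_self, zero_add] at hre him
    have e0 : per h₀ = 0 := hre.symm
    have e1 : per h₁ = 0 := by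
      have := mul_eq_zero.mp him.symm
      rcases this with h2 | h2
      · exact h2
      · exact absurd h2 (by positivity)
    have f0 : h₀ = 0 := hinj (by rw [e0, map_zero])
    have f1 : h₁ = 0 := hinj (by rw [e1, map_zero])
    rw [f0, f1, map_zero, zero_mul, add_zero] at hn
    exact (hL.pow n).mul_right_eq_zero.mp hn

/-- Injectivity of `per` as linear independence of the values on the basis. -/
theorem injective_iff_linearIndependent {H : Type*} [CommRing H] [Algebra ℚ H]
    (b : Basis HW ℚ H) (per : H →ₐ[ℚ] ℝ) :
    Function.Injective per ↔ LinearIndependent ℚ (fun w : HW => per (b w)) := by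
  constructor
  · intro h
    exact b.linearIndependent.map' per.toLinearMap (LinearMap.ker_eq_bot.mpr h)
  · intro h
    rw [injective_iff_map_eq_zero]
    intro x hx
    rw [← b.linearCombination_repr x, Finsupp.linearCombination_apply, Finsupp.sum, map_sum] at hx
    simp only [map_smul] at hx
    have h2 := linearIndependent_iff.mp h (b.repr x) (by
      rw [Finsupp.linearCombination_apply, Finsupp.sum]
      exact hx)
    exact b.repr.map_eq_zero_iff.mp h2

end MPe54452
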