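import Pool.Agent.Lib.MP_e54452_nt.Periods

namespace MPe54452

open Polynomial Module

/-- Independence of the values over a set of words, used on one element. -/
lemma eq_zero_of_LI {H : Type*} [CommRing H] [Algebra ℚ H] (b : Basis HW ℚ H) (per : H →ₐ[ℚ] ℝ)
    (p : HW → Prop) (hind : LinearIndependent ℚ (fun w : {w : HW // p w} => per (b w.1)))
    (x : H) (hx : ∀ w, b.repr x w ≠ 0 → p w) (hper : per x = 0) : x = 0 := by
  classical
  have hrel := linearIndependent_iff.mp hind
    ((b.repr x).comapDomain (fun w : {w : HW // p w} => (w : HW))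
      (Subtype.val_injective.injOn)) ?_
  · rw [← b.repr.map_eq_zero_iff]
    ext w
    rw [Finsupp.zero_apply]
    by_contra hne
    have h13 := DFunLike.congr_fun hrel (⟨w, hx w hne⟩ : {w : HW // p w})
    rw [Finsupp.comapDomain_apply, Finsupp.zero_apply] at h13
    exact hne h13
  · have h14 := hper
    rw [← b.linearCombination_repr x] at h14
    rw [Finsupp.linearCombination_apply, Finsupp.sum, map_sum] at h14
    rw [Finsupp.linearCombination_apply, Finsupp.sum]
    rw [← h14]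
    symm
    refine Finset.sum_bij_ne_zero (fun w hw _ => ⟨w, hx w (Finsupp.mem_support_iff.mp hw)⟩)
      ?_ ?_ ?_ ?_
    · intro w hw _
      rw [Finsupp.mem_support_iff, Finsupp.comapDomain_apply]
      exact Finsupp.mem_support_iff.mp hw
    · intro w1 _ _ w2 _ _ h15
      exact congrArg Subtype.val h15
    · intro w hw hne
      rw [Finsupp.mem_support_iff, Finsupp.comapDomain_apply] at hw
      refine ⟨w, Finsupp.mem_support_iff.mpr hw, ?_, rfl⟩
      rw [map_smul]
      intro hc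
      apply hne
      rw [Finsupp.comapDomain_apply]
      exact hc
    · intro w hw _
      rw [map_smul, Finsupp.comapDomain_apply]

section

variable {H : Type*} [CommRing H] [IsDomain H] [Algebra ℚ H]

/-- Independence in infinitely many single weights gives injectivity on all homogeneous
elements. -/
lemma hom_inj (b : Basis HW ℚ H) (hmul : ∀ u v : HW, b u * b v ∈ Hk b (wt u + wt v))
    (per : H →ₐ[ℚ] ℝ)
    (hinf : ∀ k0 : ℕ, ∃ k, k0 ≤ k ∧
      LinearIndependent ℚ (fun w : {w : HW // wt w = k} => per (b w.1)))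
    (k : ℕ) (h : H) (hk : h ∈ Hk b k) (hper : per h = 0) : h = 0 := by
  obtain ⟨k', hk', hind⟩ := hinf (k + 2)
  have hpos := dk_pos (k' - k) (by omega)
  rw [← card_wordsF, Finset.card_pos] at hpos
  obtain ⟨u, hu⟩ := hpos
  rw [mem_wordsF] at hu
  have hx := Hk_mul b hmul _ _ _ _ hk (basis_mem_Hk b u)
  have hx0 : h * b u = 0 := by
    apply eq_zero_of_LI b per (fun w => wt w = k') hind
    · intro w hw
      have := (mem_Hk_iff b _ _).mp hx w hw
      omega
    · rw [map_mul, hper, zero_mul]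
  rcases mul_eq_zero.mp hx0 with h0 | h0
  · exact h0
  · exact absurd h0 (b.ne_zero u)

/-- Pseudo-division in a graded domain: up to homogeneous factors every relation is a multiple of
one of minimal spread. -/
theorem pseudo_div (V : ℕ → Submodule ℚ H) (h1 : (1 : H) ∈ V 0)
    (hmul : ∀ k l a b, a ∈ V k → b ∈ V l → a * b ∈ V (k + l)) (per : H →ₐ[ℚ] ℝ)
    (hhom : ∀ k, ∀ h ∈ V k, per h = 0 → h = 0)
    (hex : ∃ p : H[X], p ≠ 0 ∧ (∀ k, p.coeff k ∈ V k) ∧ per (p.eval 1) = 0) :
    ∃ μ : H[X], μ ≠ 0 ∧ (∀ k, μ.coeff k ∈ V k) ∧ per (μ.eval 1) = 0 ∧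
      ∀ g : H[X], (∀ k, g.coeff k ∈ V k) → per (g.eval 1) = 0 →
        ∃ m, ∃ c ∈ V m, c ≠ 0 ∧ ∃ z : H[X], (C c * X ^ m) * g = μ * z := by
  classical
  let Q : ℕ → Prop := fun s => ∃ p : H[X], p ≠ 0 ∧ (∀ k, p.coeff k ∈ V k) ∧
    per (p.eval 1) = 0 ∧ ∃ lo, ∀ k, p.coeff k ≠ 0 → lo ≤ k ∧ k ≤ lo + s
  have hQ : ∃ s, Q s := by
    obtain ⟨p, hp0, hpV, hper⟩ := hex
    refine ⟨p.natDegree, p, hp0, hpV, hper, 0, fun k hk => ⟨Nat.zero_le _, ?_⟩⟩
    rw [zero_add]
    exact le_natDegree_of_ne_zero hk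
  obtain ⟨s', hs', hmin⟩ : ∃ s', Q s' ∧ ∀ s, s < s' → ¬ Q s :=
    ⟨Nat.find hQ, Nat.find_spec hQ, fun s hs => Nat.find_min hQ hs⟩
  obtain ⟨μ, hμ0, hμV, hμper, lo', hlo'⟩ := hs'
  refine ⟨μ, hμ0, hμV, hμper, ?_⟩
  -- the minimal spread is positive
  have hs'pos : 0 < s' := by
    by_contra hc
    have hs0 : s' = 0 := by omega
    subst hs0
    have hμ : μ = C (μ.coeff lo') * X ^ lo' := by
      ext k
      rw [coeff_C_mul, coeff_X_pow]
      split_ifs with h
      · rw [mul_one, h]
      · rw [mul_zero]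
        by_contra hne
        have := hlo' k hne
        omega
    have h2 : μ.eval 1 = μ.coeff lo' := by
      rw [hμ]
      simp
    rw [h2] at hμper
    have h3 := hhom lo' _ (hμV lo') hμper
    rw [h3] at hμ
    simp at hμ
    exact hμ0 hμ
  -- the leading coefficient is nonzero
  have hlead : μ.coeff (lo' + s') ≠ 0 := by
    intro hc
    apply hmin (s' - 1) (by omega)
    refine ⟨μ, hμ0, hμV, hμper, lo', fun k hk => ?_⟩
    have h2 := hlo' k hk
    refine ⟨h2.1, ?_⟩
    by_contra hcon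
    have h3 : k = lo' + s' := by omega
    rw [h3] at hk
    exact hk hc
  have main : ∀ s, ∀ g : H[X], (∀ k, g.coeff k ∈ V k) → per (g.eval 1) = 0 →
      (∃ lo, ∀ k, g.coeff k ≠ 0 → lo ≤ k ∧ k ≤ lo + s) →
        ∃ m, ∃ c ∈ V m, c ≠ 0 ∧ ∃ z : H[X], (C c * X ^ m) * g = μ * z := by
    intro s
    induction s using Nat.strong_induction_on with
    | _ s ih =>
    intro g hgV hgper hlo
    obtain ⟨lo, hlo⟩ := hlo
    by_cases hg0 : g = 0
    · exact ⟨0, 1, h1, one_ne_zero, 0, by rw [hg0, mul_zero, mul_zero]⟩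
    have hss' : s' ≤ s := by
      by_contra hc
      exact hmin s (by omega) ⟨g, hg0, hgV, hgper, lo, hlo⟩
    obtain ⟨hi', hhi'⟩ : ∃ hi', hi' = lo' + s' := ⟨_, rfl⟩
    obtain ⟨hi, hhi⟩ : ∃ hi, hi = lo + s := ⟨_, rfl⟩
    rw [← hhi'] at hlead
    obtain ⟨g', hg'⟩ : ∃ g' : H[X], g' = C (μ.coeff hi') * X ^ hi' * g -
      C (g.coeff hi) * X ^ hi * μ := ⟨_, rfl⟩
    have hterm : ∀ (a : H) (n k : ℕ) (q : H[X]), (C a * X ^ n * q).coeff k =
        if n ≤ k then a * q.coeff (k - n) else 0 := by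
      intro a n k q
      rw [mul_assoc, coeff_C_mul, mul_comm (X ^ n) q, coeff_mul_X_pow']
      split_ifs
      · rfl
      · rw [mul_zero]
    have hg'V : ∀ k, g'.coeff k ∈ V k := by
      intro k
      rw [hg', coeff_sub, hterm, hterm]
      refine (V k).sub_mem ?_ ?_
      · split_ifs with h2
        · have := hmul _ _ _ _ (hμV hi') (hgV (k - hi'))
          rwa [show hi' + (k - hi') = k by omega] at this
        · exact (V k).zero_mem
      · split_ifs with h2
        · have := hmul _ _ _ _ (hgV hi) (hμV (k - hi))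
          rwa [show hi + (k - hi) = k by omega] at this
        · exact (V k).zero_mem
    have hg'per : per (g'.eval 1) = 0 := by
      rw [hg']
      simp only [eval_sub, eval_mul, eval_C, eval_pow, eval_X, one_pow, mul_one, map_sub, map_mul,
        hgper, hμper, mul_zero, sub_zero]
    have hg'win : ∀ k, g'.coeff k ≠ 0 → lo + hi' ≤ k ∧ k ≤ (lo + hi') + (s - 1) := by
      intro k hk
      have hne : ¬ (k = hi + hi') := by
        intro hc
        apply hk
        rw [hg', coeff_sub, hterm, hterm, if_pos (by omega), if_pos (by omega), hc,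
          show hi + hi' - hi' = hi by omega, show hi + hi' - hi = hi' by omega]
        ring
      have h5 : (hi' ≤ k ∧ g.coeff (k - hi') ≠ 0) ∨ (hi ≤ k ∧ μ.coeff (k - hi) ≠ 0) := by
        by_contra hc
        push Not at hc
        apply hk
        rw [hg', coeff_sub, hterm, hterm]
        have e1 : (if hi' ≤ k then μ.coeff hi' * g.coeff (k - hi') else 0) = 0 := by
          split_ifs with h6
          · rw [hc.1 h6, mul_zero]
          · rfl
        have e2 : (if hi ≤ k then g.coeff hi * μ.coeff (k - hi) else 0) = 0 := by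
          split_ifs with h6
          · rw [hc.2 h6, mul_zero]
          · rfl
        rw [e1, e2, sub_zero]
      rcases h5 with ⟨h6, h7⟩ | ⟨h6, h7⟩
      · have := hlo _ h7
        omega
      · have := hlo' _ h7
        omega
    obtain ⟨m, c, hc, hc0, z, hz⟩ := ih (s - 1) (by omega) g' hg'V hg'per ⟨lo + hi', hg'win⟩
    refine ⟨m + hi', c * μ.coeff hi', hmul _ _ _ _ hc (hμV hi'), mul_ne_zero hc0 hlead,
      z + C c * X ^ m * (C (g.coeff hi) * X ^ hi), ?_⟩
    rw [mul_add, ← hz, hg', map_mul, pow_add]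
    ring
  intro g hgV hgper
  refine main g.natDegree g hgV hgper ⟨0, fun k hk => ⟨Nat.zero_le _, ?_⟩⟩
  rw [zero_add]
  exact le_natDegree_of_ne_zero hk

/-- If the period map is injective on homogeneous elements, its kernel is principal. -/
theorem ker_principal [UniqueFactorizationMonoid H] (b : Basis HW ℚ H) (hb1 : b w0 = 1)
    (hmul : ∀ u v : HW, b u * b v ∈ Hk b (wt u + wt v)) (per : H →ₐ[ℚ] ℝ)
    (hhom : ∀ k, ∀ h ∈ Hk b k, per h = 0 → h = 0) :
    ∃ f : H, RingHom.ker per = Ideal.span {f} := by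
  classical
  have h10 : (1 : H) ∈ Hk b 0 := by
    rw [← hb1]
    exact basis_mem_Hk b w0
  by_cases hker : RingHom.ker per = ⊥
  · exact ⟨0, by rw [hker]; simp⟩
  have hprime : (RingHom.ker per).IsPrime := RingHom.ker_isPrime per
  obtain ⟨f, hfmem, hfprime⟩ := hprime.exists_mem_prime_of_ne_bot hker
  rw [RingHom.mem_ker] at hfmem
  obtain ⟨μ, hμ0, hμV, hμper, hdiv⟩ := pseudo_div (Hk b) h10 (Hk_mul b hmul) per hhom
    ⟨hpoly b f, hpoly_ne_zero b f hfprime.ne_zero, hpoly_mem b f, by rw [hpoly_eval]; exact hfmem⟩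
  have hdiv' : ∀ g : H, per g = 0 → ∃ m, ∃ c ∈ Hk b m, c ≠ 0 ∧ ∃ z : H, c * g = μ.eval 1 * z := by
    intro g hg
    obtain ⟨m, c, hc, hc0, z, hz⟩ := hdiv (hpoly b g) (hpoly_mem b g) (by rw [hpoly_eval]; exact hg)
    refine ⟨m, c, hc, hc0, z.eval 1, ?_⟩
    have := congrArg (fun q => q.eval 1) hz
    simpa only [eval_mul, eval_C, eval_pow, eval_X, one_pow, mul_one, hpoly_eval] using this
  have hfdvd : f ∣ μ.eval 1 := by
    obtain ⟨m, c, hc, hc0, z, hz⟩ := hdiv' f hfmem
    have h2 : f ∣ μ.eval 1 * z := ⟨c, by rw [← hz]; ring⟩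
    rcases hfprime.dvd_or_dvd h2 with h3 | ⟨z', hz'⟩
    · exact h3
    · exfalso
      apply hc0
      apply hhom m c hc
      have h4 : f * c = f * (μ.eval 1 * z') := by
        rw [mul_comm f c, hz, hz']
        ring
      have h5 := mul_left_cancel₀ hfprime.ne_zero h4
      rw [h5, map_mul, hμper, zero_mul]
  refine ⟨f, le_antisymm ?_ ?_⟩
  · intro g hg
    rw [RingHom.mem_ker] at hg
    rw [Ideal.mem_span_singleton]
    obtain ⟨m, c, hc, hc0, z, hz⟩ := hdiv' g hg
    have h2 : f ∣ c * g := by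
      rw [hz]
      exact hfdvd.mul_right z
    rcases hfprime.dvd_or_dvd h2 with ⟨c', hc'⟩ | h3
    · exfalso
      apply hc0
      apply hhom m c hc
      rw [hc', map_mul, hfmem, zero_mul]
    · exact h3
  · rw [Ideal.span_le]
    intro x hx
    rw [Set.mem_singleton_iff.mp hx]
    exact hfmem

end

end MPe54452
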