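import Pool.Agent.Lib.MP_e54452_nt.Graded

namespace MPe54452

open Polynomial

section

variable {F : Type*} [Field F] [Algebra ℚ F]

/-- The field of all quotients `a / b` with `a`, `b` in the same `V k`. -/
def ratioField (V : ℕ → Submodule ℚ F) (h1 : (1 : F) ∈ V 0)
    (hmul : ∀ k l a b, a ∈ V k → b ∈ V l → a * b ∈ V (k + l)) : Subfield F where
  carrier := {x | ∃ k, ∃ a ∈ V k, ∃ b ∈ V k, b ≠ 0 ∧ x = a / b}
  mul_mem' := by
    rintro _ _ ⟨k, a, ha, b, hb, hb0, rfl⟩ ⟨l, c, hc, d, hd, hd0, rfl⟩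
    exact ⟨k + l, a * c, hmul _ _ _ _ ha hc, b * d, hmul _ _ _ _ hb hd, mul_ne_zero hb0 hd0,
      by rw [div_mul_div_comm]⟩
  one_mem' := ⟨0, 1, h1, 1, h1, one_ne_zero, by rw [div_one]⟩
  add_mem' := by
    rintro _ _ ⟨k, a, ha, b, hb, hb0, rfl⟩ ⟨l, c, hc, d, hd, hd0, rfl⟩
    refine ⟨k + l, a * d + b * c, (V (k + l)).add_mem (hmul _ _ _ _ ha hd)
      (hmul _ _ _ _ hb hc), b * d, hmul _ _ _ _ hb hd, mul_ne_zero hb0 hd0, ?_⟩
    rw [div_add_div _ _ hb0 hd0]
  zero_mem' := ⟨0, 0, (V 0).zero_mem, 1, h1, one_ne_zero, by rw [zero_div]⟩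
  neg_mem' := by
    rintro _ ⟨k, a, ha, b, hb, hb0, rfl⟩
    exact ⟨k, -a, (V k).neg_mem ha, b, hb, hb0, by rw [neg_div]⟩
  inv_mem' := by
    rintro _ ⟨k, a, ha, b, hb, hb0, rfl⟩
    by_cases ha0 : a = 0
    · exact ⟨0, 0, (V 0).zero_mem, 1, h1, one_ne_zero, by rw [ha0]; simp⟩
    · exact ⟨k, b, hb, a, ha, ha0, by rw [inv_div]⟩

variable {V : ℕ → Submodule ℚ F} {h1 : (1 : F) ∈ V 0}
  {hmul : ∀ k l a b, a ∈ V k → b ∈ V l → a * b ∈ V (k + l)}

lemma mem_ratioField {x : F} : x ∈ ratioField V h1 hmul ↔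
    ∃ k, ∃ a ∈ V k, ∃ b ∈ V k, b ≠ 0 ∧ x = a / b := Iff.rfl

lemma pow_mem_V (h1 : (1 : F) ∈ V 0)
    (hmul : ∀ k l a b, a ∈ V k → b ∈ V l → a * b ∈ V (k + l)) {x : F} {g : ℕ} (hx : x ∈ V g)
    (n : ℕ) : x ^ n ∈ V (g * n) :=
  pow_mem_graded (fun k => (V k).toAddSubgroup) h1 (fun k l a b ha hb => hmul k l a b ha hb) hx n

/-- Common denominators of weight type. -/
lemma exists_common_denominator (f : ℕ → F) (s : Finset ℕ)
    (hf : ∀ i ∈ s, f i ∈ ratioField V h1 hmul) :
    ∃ m, ∃ B ∈ V m, B ≠ 0 ∧ ∀ i ∈ s, B * f i ∈ V m := by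
  classical
  induction s using Finset.induction_on with
  | empty => exact ⟨0, 1, h1, one_ne_zero, by simp⟩
  | insert j s hj ih =>
    obtain ⟨m, B, hB, hB0, hs⟩ := ih (fun i hi => hf i (Finset.mem_insert_of_mem hi))
    obtain ⟨k, a, ha, b, hb, hb0, hab⟩ := hf j (Finset.mem_insert_self _ _)
    refine ⟨m + k, B * b, hmul _ _ _ _ hB hb, mul_ne_zero hB0 hb0, ?_⟩
    intro i hi
    rcases Finset.mem_insert.mp hi with rfl | hi
    · have : B * b * f i = B * a := by
        rw [hab]
        field_simp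
      rw [this]
      exact hmul _ _ _ _ hB ha
    · have : B * b * f i = B * f i * b := by ring
      rw [this]
      exact hmul _ _ _ _ (hs i hi) hb

/-- If the `V k` are independent, a nonzero element of positive degree is transcendental over the
field of ratios of equal degree. -/
theorem transcendental_of_indep (hind : iSupIndep V) {k : ℕ} (hk : 1 ≤ k) {z : F} (hz : z ∈ V k)
    (hz0 : z ≠ 0) : Transcendental (ratioField V h1 hmul) z := by
  classical
  rw [transcendental_iff]
  intro p hp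
  obtain ⟨m, B, hB, hB0, hden⟩ := exists_common_denominator
    (V := V) (h1 := h1) (hmul := hmul) (fun i => (p.coeff i : F)) p.support
    (fun i _ => (p.coeff i).2)
  have hden' : ∀ i, B * (p.coeff i : F) ∈ V m := by
    intro i
    by_cases hi : i ∈ p.support
    · exact hden i hi
    · rw [notMem_support_iff.mp hi]
      simp
  have h2 := (iSupIndep_iff_finsetSum_eq_zero_imp_eq_zero V).mp hind
    (p.support.image (fun i => m + k * i))
    (fun j => ∑ i ∈ p.support.filter (fun i => m + k * i = j), B * (p.coeff i : F) * z ^ i) ?_ ?_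
  · ext i
    by_contra hne
    rw [coeff_zero] at hne
    have hi : i ∈ p.support := by
      rw [mem_support_iff]
      intro hc
      apply hne
      rw [hc]
    have h3 := h2 (m + k * i) (Finset.mem_image_of_mem _ hi)
    have h4 : p.support.filter (fun i' => m + k * i' = m + k * i) = {i} := by
      ext i'
      simp only [Finset.mem_filter, Finset.mem_singleton]
      constructor
      · rintro ⟨_, h5⟩
        have h6 : k * i' = k * i := by omega
        exact Nat.eq_of_mul_eq_mul_left (by omega) h6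
      · rintro rfl
        exact ⟨hi, rfl⟩
    simp only [h4, Finset.sum_singleton] at h3
    rcases mul_eq_zero.mp h3 with h7 | h7
    · rcases mul_eq_zero.mp h7 with h8 | h8
      · exact hB0 h8
      · exact hne (by exact_mod_cast h8)
    · exact pow_ne_zero i hz0 h7
  · intro j hj
    refine Submodule.sum_mem _ ?_
    intro i hi
    have h5 := (Finset.mem_filter.mp hi).2
    rw [← h5]
    exact hmul _ _ _ _ (hden' i) (pow_mem_V h1 hmul hz i)
  · rw [Finset.sum_comm' (t' := p.support) (s' := fun i => {m + k * i})]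
    · simp only [Finset.sum_singleton]
      have h6 : ∑ i ∈ p.support, B * (p.coeff i : F) * z ^ i = B * (aeval z p) := by
        rw [aeval_def, eval₂_eq_sum, sum_def, Finset.mul_sum]
        refine Finset.sum_congr rfl (fun i _ => ?_)
        rw [mul_assoc]
        rfl
      rw [h6, hp, mul_zero]
    · intro j i
      simp only [Finset.mem_image, Finset.mem_filter, Finset.mem_singleton]
      constructor
      · rintro ⟨_, hi, hj⟩
        exact ⟨hj.symm, hi⟩
      · rintro ⟨hj, hi⟩
        exact ⟨⟨i, hi, hj.symm⟩, hi, hj.symm⟩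

/-- If one nonzero element of positive degree is transcendental over the field of ratios, then
the `V k` are independent. -/
theorem indep_of_transcendental {x y : F} (hx : x ∈ V 2) (hy : y ∈ V 3) (hx0 : x ≠ 0)
    (hy0 : y ≠ 0) {k : ℕ} {z : F} (hz : z ∈ V k)
    (ht : Transcendental (ratioField V h1 hmul) z) : iSupIndep V := by
  classical
  rw [iSupIndep_iff_finsetSum_eq_zero_imp_eq_zero]
  intro s v hv hsum
  by_contra hcon
  push Not at hcon
  obtain ⟨j, hj, hvj⟩ := hcon
  apply ht
  have hT : ∀ i, ∀ a ∈ V i, a / (y / x) ^ i ∈ ratioField V h1 hmul := by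
    intro i a ha
    rw [mem_ratioField]
    refine ⟨i + 2 * i, a * x ^ i, hmul _ _ _ _ ha (pow_mem_V h1 hmul hx i), y ^ i, ?_,
      pow_ne_zero _ hy0, ?_⟩
    · have := pow_mem_V h1 hmul hy i
      have h2 : i + 2 * i = 3 * i := by ring
      rwa [h2]
    · rw [div_pow]
      field_simp
  have hT0 : y / x ≠ 0 := div_ne_zero hy0 hx0
  have hTalg : IsAlgebraic (ratioField V h1 hmul) (y / x) := by
    refine ⟨∑ i ∈ s.attach, C (⟨v i / (y / x) ^ (i : ℕ), hT i (v i) (hv i i.2)⟩ :
      ratioField V h1 hmul) * X ^ (i : ℕ), ?_, ?_⟩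
    · intro hc
      have h3 := congrArg (fun q => (q.coeff j : F)) hc
      simp only [finsetSum_coeff, coeff_C_mul, coeff_X_pow, coeff_zero] at h3
      rw [Finset.sum_eq_single (⟨j, hj⟩ : s)] at h3
      · simp only [if_true, mul_one] at h3
        have h4 : v j / (y / x) ^ j = 0 := h3
        rcases div_eq_zero_iff.mp h4 with h5 | h5
        · exact hvj h5
        · exact pow_ne_zero _ hT0 h5
      · intro i _ hij
        rw [if_neg, mul_zero]
        intro hc2
        exact hij (Subtype.ext hc2.symm)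
      · intro hc2
        exact absurd (Finset.mem_attach _ _) hc2
    · rw [map_sum]
      rw [← hsum, ← Finset.sum_attach s]
      refine Finset.sum_congr rfl (fun i _ => ?_)
      rw [map_mul, aeval_C, map_pow, aeval_X]
      have h6 : algebraMap (ratioField V h1 hmul) F
        (⟨v i / (y / x) ^ (i : ℕ), hT i (v i) (hv i i.2)⟩ : ratioField V h1 hmul) =
        v i / (y / x) ^ (i : ℕ) := rfl
      rw [h6, div_mul_cancel₀ _ (pow_ne_zero _ hT0)]
  have hzeq : z = algebraMap (ratioField V h1 hmul) F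
      (⟨z / (y / x) ^ k, hT k z hz⟩ : ratioField V h1 hmul) * (y / x) ^ k := by
    have h6 : algebraMap (ratioField V h1 hmul) F
        (⟨z / (y / x) ^ k, hT k z hz⟩ : ratioField V h1 hmul) = z / (y / x) ^ k := rfl
    rw [h6, div_mul_cancel₀ _ (pow_ne_zero _ hT0)]
  rw [hzeq]
  exact (isAlgebraic_algebraMap _).mul (hTalg.pow k)

end

end MPe54452
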