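import Mathlib

namespace MPe54452

open Polynomial

section slice

variable {A : Type*} [CommRing A] [Algebra ℚ A]

/-- Applying a derivation with slice `s` to a polynomial in `s` with constant coefficients. -/
lemma deriv_eval (D : Derivation ℚ A A) (s : A) (hs : D s = 1) (p : A[X])
    (hp : ∀ j, D (p.coeff j) = 0) : D (p.eval s) = (derivative p).eval s := by
  rw [derivative_eval, eval_eq_sum, sum_def, sum_def, map_sum]
  refine Finset.sum_congr rfl (fun j _ => ?_)
  rw [Derivation.leibniz, hp, smul_zero, add_zero, Derivation.leibniz_pow, hs]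
  simp only [smul_eq_mul, nsmul_eq_mul, mul_one]
  ring

lemma deriv_coeff_zero (D : Derivation ℚ A A) (p : A[X]) (hp : ∀ j, D (p.coeff j) = 0) (j : ℕ) :
    D ((derivative p).coeff j) = 0 := by
  rw [coeff_derivative]
  have h1 : p.coeff (j + 1) * ((j : A) + 1) = (j + 1) • p.coeff (j + 1) := by
    rw [nsmul_eq_mul]
    push_cast
    ring
  rw [h1, map_nsmul, hp, smul_zero]

/-- Constant coefficients are determined by the value at a slice. -/
lemma slice_unique [Nontrivial A] (D : Derivation ℚ A A) (s : A) (hs : D s = 1) (p : A[X])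
    (hp : ∀ j, D (p.coeff j) = 0) (h0 : p.eval s = 0) : p = 0 := by
  induction hn : p.natDegree using Nat.strong_induction_on generalizing p with
  | _ n ih =>
  have hder0 : (derivative p).eval s = 0 := by
    rw [← deriv_eval D s hs p hp, h0, map_zero]
  have hd : derivative p = 0 := by
    by_cases hn0 : n = 0
    · have h1 : p = C (p.coeff 0) := eq_C_of_natDegree_eq_zero (by omega)
      rw [h1, derivative_C]
    · exact ih _ (by rw [← hn]; exact natDegree_derivative_lt (by omega)) (derivative p)
        (deriv_coeff_zero D p hp) hder0 rfl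
  have hcoeff : ∀ j, p.coeff (j + 1) = 0 := by
    intro j
    have h2 := congrArg (fun q => q.coeff j) hd
    simp only [coeff_derivative, coeff_zero] at h2
    have h3 : ((j + 1 : ℕ) : ℚ) • p.coeff (j + 1) = 0 := by
      rw [Algebra.smul_def, map_natCast]
      push_cast
      rw [mul_comm]
      exact h2
    have h4 : ((j + 1 : ℕ) : ℚ) ≠ 0 := by positivity
    calc p.coeff (j + 1) = ((j + 1 : ℕ) : ℚ)⁻¹ • (((j + 1 : ℕ) : ℚ) • p.coeff (j + 1)) := by
          rw [smul_smul, inv_mul_cancel₀ h4, one_smul]
      _ = 0 := by rw [h3, smul_zero]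
  have hC : p = C (p.coeff 0) := by
    ext j
    cases j with
    | zero => simp
    | succ j => rw [hcoeff j, coeff_C_succ]
  rw [hC, eval_C] at h0
  rw [hC, h0, C_0]

/-- Slice theorem: elements killed by a power of `D` are polynomials in the slice. -/
lemma slice_exists (D : Derivation ℚ A A) (s : A) (hs : D s = 1) (n : ℕ) (x : A)
    (hx : D^[n] x = 0) : ∃ p : A[X], (∀ j, D (p.coeff j) = 0) ∧ p.eval s = x := by
  induction n generalizing x with
  | zero =>
    rw [Function.iterate_zero, id] at hx
    exact ⟨0, by simp, by rw [hx, eval_zero]⟩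
  | succ n ih =>
    rw [Function.iterate_succ_apply] at hx
    obtain ⟨q, hq, hqx⟩ := ih (D x) hx
    obtain ⟨p, hp⟩ : ∃ p : A[X], p = ∑ j ∈ q.support,
      C (((j + 1 : ℕ) : ℚ)⁻¹ • q.coeff j) * X ^ (j + 1) := ⟨_, rfl⟩
    have hpcoeff : ∀ i, p.coeff (i + 1) = ((i + 1 : ℕ) : ℚ)⁻¹ • q.coeff i := by
      intro i
      rw [hp, finsetSum_coeff]
      by_cases hi : i ∈ q.support
      · rw [Finset.sum_eq_single i]
        · rw [coeff_C_mul, coeff_X_pow, if_pos rfl, mul_one]
        · intro j _ hj
          rw [coeff_C_mul, coeff_X_pow, if_neg (by omega), mul_zero]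
        · intro hc
          exact absurd hi hc
      · rw [notMem_support_iff.mp hi, smul_zero]
        refine Finset.sum_eq_zero (fun j hj => ?_)
        rw [coeff_C_mul, coeff_X_pow, if_neg, mul_zero]
        intro hc
        apply hi
        have : i = j := by omega
        rw [this]
        exact hj
    have hpcoeff0 : p.coeff 0 = 0 := by
      rw [hp, finsetSum_coeff]
      refine Finset.sum_eq_zero (fun j _ => ?_)
      rw [coeff_C_mul, coeff_X_pow, if_neg (by omega), mul_zero]
    have hpD : ∀ j, D (p.coeff j) = 0 := by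
      intro j
      cases j with
      | zero => rw [hpcoeff0, map_zero]
      | succ j => rw [hpcoeff, D.map_smul, hq, smul_zero]
    have hder : derivative p = q := by
      ext j
      rw [coeff_derivative, hpcoeff]
      have h4 : ((j + 1 : ℕ) : ℚ) ≠ 0 := by positivity
      have h5 : ((j : A) + 1) = algebraMap ℚ A ((j + 1 : ℕ) : ℚ) := by
        rw [map_natCast]
        push_cast
        rfl
      rw [h5, mul_comm, ← Algebra.smul_def, smul_smul, mul_inv_cancel₀ h4, one_smul]
    have h6 : D (x - p.eval s) = 0 := by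
      rw [map_sub, deriv_eval D s hs p hpD, hder, hqx, sub_self]
    refine ⟨p + C (x - p.eval s), ?_, ?_⟩
    · intro j
      rw [coeff_add, map_add, hpD, zero_add]
      cases j with
      | zero => rw [coeff_C_zero, h6]
      | succ j => rw [coeff_C_succ, map_zero]
    · rw [eval_add, eval_C, add_sub_cancel]

/-- The field generated by the values of `per` on the constants of `D`. -/
noncomputable def constField (per : A →ₐ[ℚ] ℝ) (D : Derivation ℚ A A) : Subfield ℝ :=
  Subfield.closure (per '' {x | D x = 0})

/-- If the value at the slice is transcendental over the values of the constants, the kernel of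
`per` is stable under `D`. -/
lemma ker_stable (per : A →ₐ[ℚ] ℝ) (D : Derivation ℚ A A) (s : A) (hs : D s = 1)
    (hnil : ∀ x, ∃ n, D^[n] x = 0) (ht : Transcendental (constField per D) (per s)) (x : A)
    (hx : per x = 0) : per (D x) = 0 := by
  obtain ⟨n, hn⟩ := hnil x
  obtain ⟨p, hp, rfl⟩ := slice_exists D s hs n x hn
  have hmem : ∀ j, per (p.coeff j) ∈ constField per D := by
    intro j
    exact Subfield.subset_closure ⟨p.coeff j, hp j, rfl⟩
  have hcoeffs : ∀ j, per (p.coeff j) = 0 := by
    obtain ⟨q, hq⟩ : ∃ q : (constField per D)[X], q = ∑ j ∈ p.support,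
      C (⟨per (p.coeff j), hmem j⟩ : constField per D) * X ^ j := ⟨_, rfl⟩
    have hq0 : q = 0 := by
      apply transcendental_iff.mp ht
      rw [hq, map_sum]
      rw [eval_eq_sum, sum_def, map_sum] at hx
      rw [← hx]
      refine Finset.sum_congr rfl (fun j _ => ?_)
      rw [map_mul, map_mul, aeval_C, map_pow, map_pow, aeval_X]
      rfl
    intro j
    by_cases hj : j ∈ p.support
    · have h1 := congrArg (fun q => (q.coeff j : ℝ)) hq0
      simp only [hq, finsetSum_coeff, coeff_C_mul, coeff_X_pow, coeff_zero] at h1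
      rw [Finset.sum_eq_single j] at h1
      · simpa using h1
      · intro i _ hij
        rw [if_neg (fun h => hij h.symm), mul_zero]
      · intro hc
        exact absurd hj hc
    · rw [notMem_support_iff.mp hj, map_zero]
  rw [deriv_eval D s hs p hp, derivative_eval, sum_def, map_sum]
  refine Finset.sum_eq_zero (fun j _ => ?_)
  rw [map_mul, map_mul, hcoeffs, zero_mul, zero_mul]

/-- Injectivity makes the value at the slice transcendental over the values of the constants. -/
lemma transc_of_inj [Nontrivial A] (per : A →ₐ[ℚ] ℝ) (hinj : Function.Injective per)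
    (D : Derivation ℚ A A) (s : A) (hs : D s = 1) :
    Transcendental (constField per D) (per s) := by
  classical
  -- the subring of values of constants
  let S : Subring ℝ :=
    { carrier := per '' {x | D x = 0}
      mul_mem' := by
        rintro _ _ ⟨x, hx, rfl⟩ ⟨y, hy, rfl⟩
        have hx' : D x = 0 := hx
        have hy' : D y = 0 := hy
        refine ⟨x * y, ?_, map_mul _ _ _⟩
        change D (x * y) = 0
        rw [Derivation.leibniz, hx', hy', smul_zero, smul_zero, add_zero]
      one_mem' := ⟨1, D.map_one_eq_zero, map_one _⟩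
      add_mem' := by
        rintro _ _ ⟨x, hx, rfl⟩ ⟨y, hy, rfl⟩
        have hx' : D x = 0 := hx
        have hy' : D y = 0 := hy
        refine ⟨x + y, ?_, map_add _ _ _⟩
        change D (x + y) = 0
        rw [map_add, hx', hy', add_zero]
      zero_mem' := ⟨0, map_zero _, map_zero _⟩
      neg_mem' := by
        rintro _ ⟨x, hx, rfl⟩
        have hx' : D x = 0 := hx
        refine ⟨-x, ?_, map_neg _ _⟩
        change D (-x) = 0
        rw [map_neg, hx', neg_zero] }
  have hS : ∀ c ∈ constField per D, ∃ y ∈ S, ∃ z ∈ S, z ≠ 0 ∧ z * c = y := by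
    intro c hc
    unfold constField at hc
    rw [Subfield.mem_closure_iff] at hc
    have hcl : Subring.closure (per '' {x | D x = 0}) = S := Subring.closure_eq S
    rw [hcl] at hc
    obtain ⟨y, hy, z, hz, hyz⟩ := hc
    by_cases hz0 : z = 0
    · refine ⟨0, S.zero_mem, 1, S.one_mem, one_ne_zero, ?_⟩
      rw [← hyz, hz0, div_zero, mul_zero]
    · refine ⟨y, hy, z, hz, hz0, ?_⟩
      rw [← hyz]
      field_simp
  have hden : ∀ (T : Finset ℕ) (f : ℕ → ℝ), (∀ j ∈ T, f j ∈ constField per D) →
      ∃ v ∈ S, v ≠ 0 ∧ ∀ j ∈ T, v * f j ∈ S := by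
    intro T f
    induction T using Finset.induction_on with
    | empty => exact fun _ => ⟨1, S.one_mem, one_ne_zero, by simp⟩
    | insert i T hi ih =>
      intro hf
      obtain ⟨v, hv, hv0, hvT⟩ := ih (fun j hj => hf j (Finset.mem_insert_of_mem hj))
      obtain ⟨y, hy, z, hz, hz0, hzy⟩ := hS (f i) (hf i (Finset.mem_insert_self _ _))
      refine ⟨v * z, S.mul_mem hv hz, mul_ne_zero hv0 hz0, ?_⟩
      intro j hj
      rcases Finset.mem_insert.mp hj with rfl | hj
      · rw [mul_assoc, hzy]
        exact S.mul_mem hv hy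
      · rw [mul_right_comm]
        exact S.mul_mem (hvT j hj) hz
  rw [transcendental_iff]
  intro q hq
  obtain ⟨v, _, hv0, hvq⟩ := hden q.support (fun j => (q.coeff j : ℝ)) (fun j _ => (q.coeff j).2)
  have hch : ∀ j, ∃ a : A, D a = 0 ∧ per a = v * (q.coeff j : ℝ) := by
    intro j
    by_cases hj : j ∈ q.support
    · obtain ⟨a, ha, hav⟩ := hvq j hj
      exact ⟨a, ha, hav⟩
    · refine ⟨0, map_zero _, ?_⟩
      rw [notMem_support_iff.mp hj]
      simp
  choose a ha hav using hch
  obtain ⟨p, hp⟩ : ∃ p : A[X], p = ∑ j ∈ q.support, C (a j) * X ^ j := ⟨_, rfl⟩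
  have hpcoeff : ∀ j ∈ q.support, p.coeff j = a j := by
    intro j hj
    rw [hp, finsetSum_coeff, Finset.sum_eq_single j]
    · rw [coeff_C_mul, coeff_X_pow, if_pos rfl, mul_one]
    · intro i _ hij
      rw [coeff_C_mul, coeff_X_pow, if_neg (fun h => hij h.symm), mul_zero]
    · intro hc
      exact absurd hj hc
  have hpcoeff0 : ∀ j, j ∉ q.support → p.coeff j = 0 := by
    intro j hj
    rw [hp, finsetSum_coeff]
    refine Finset.sum_eq_zero (fun i hi => ?_)
    rw [coeff_C_mul, coeff_X_pow, if_neg, mul_zero]
    rintro rfl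
    exact hj hi
  have hpD : ∀ j, D (p.coeff j) = 0 := by
    intro j
    by_cases hj : j ∈ q.support
    · rw [hpcoeff j hj, ha]
    · rw [hpcoeff0 j hj, map_zero]
  have hpval : per (p.eval s) = 0 := by
    rw [hp, eval_finsetSum, map_sum]
    rw [aeval_def, eval₂_eq_sum, sum_def] at hq
    have h1 : ∑ j ∈ q.support, per ((C (a j) * X ^ j).eval s) =
        v * ∑ j ∈ q.support, (q.coeff j : ℝ) * per s ^ j := by
      rw [Finset.mul_sum]
      refine Finset.sum_congr rfl (fun j _ => ?_)
      rw [eval_mul, eval_C, eval_pow, eval_X, map_mul, map_pow, hav]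
      ring
    rw [h1]
    have h2 : ∑ j ∈ q.support, (q.coeff j : ℝ) * per s ^ j = 0 := hq
    rw [h2, mul_zero]
  have hp0 : p = 0 := slice_unique D s hs p hpD (hinj (by rw [hpval, map_zero]))
  ext j
  rw [coeff_zero]
  by_contra hne
  have hj : j ∈ q.support := by
    rw [mem_support_iff]
    intro hc
    apply hne
    rw [hc]
  have h3 := hpcoeff j hj
  rw [hp0, coeff_zero] at h3
  have h4 := hav j
  rw [← h3, map_zero] at h4
  rcases mul_eq_zero.mp h4.symm with h5 | h5
  · exact hv0 h5
  · exact hne (by exact_mod_cast h5)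

end slice

end MPe54452
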