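import Pool.Agent.Lib.MP_e54452_nt.Hoffman
import Pool.Agent.Lib.MP_e54452_nt.Cluster

namespace MPe54452

open Polynomial Module Filter Topology

/-- A slightly larger `θ'` still satisfies the cubic inequality. -/
lemma exists_larger (θ : ℝ) (h1 : 1 ≤ θ) (h3 : θ ^ 3 < θ + 1) :
    ∃ θ' : ℝ, θ < θ' ∧ θ' ^ 3 ≤ θ' + 1 := by
  have h2 : θ < 2 := by nlinarith [mul_pos (by linarith : 0 < θ) (by linarith : 0 < θ)]
  set ε : ℝ := (θ + 1 - θ ^ 3) / 19 with hε
  have hε0 : 0 < ε := by rw [hε]; linarith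
  have hε1 : ε ≤ 1 := by
    rw [hε]
    have : θ ≤ θ ^ 3 := le_self_pow₀ h1 (by norm_num)
    linarith
  refine ⟨θ + ε, by linarith, ?_⟩
  have e1 : (θ + ε) ^ 3 = θ ^ 3 + ε * (3 * θ ^ 2 + 3 * θ * ε + ε ^ 2) := by ring
  have e2 : 3 * θ ^ 2 + 3 * θ * ε + ε ^ 2 ≤ 19 := by nlinarith
  have e3 : ε * (3 * θ ^ 2 + 3 * θ * ε + ε ^ 2) ≤ ε * 19 := mul_le_mul_of_nonneg_left e2 hε0.le
  have e4 : ε * 19 = θ + 1 - θ ^ 3 := by rw [hε]; ring
  rw [e1]
  linarith

section

variable {H : Type*} [CommRing H] [IsDomain H] [Algebra ℚ H]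

omit [IsDomain H] in
lemma injective_of_windows (b : Basis HW ℚ H) (per : H →ₐ[ℚ] ℝ)
    (hw : ∀ N : ℕ, ∀ h : H, (∀ w, b.repr h w ≠ 0 → wt w ≤ N) → per h = 0 → h = 0) :
    Function.Injective per := by
  rw [injective_iff_map_eq_zero]
  intro h hh
  refine hw ((b.repr h).support.sup wt) h (fun w hw2 => ?_) hh
  exact Finset.le_sup (f := wt) (Finsupp.mem_support_iff.mpr hw2)

lemma ncard_biUnion_wt_le (E : Finset ℕ) (F : Set HW) :
    {w : HW | wt w ∈ E ∧ w ∉ F}.ncard ≤ ∑ j ∈ E, {w : HW | wt w = j ∧ w ∉ F}.ncard := by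
  classical
  have h1 : {w : HW | wt w ∈ E ∧ w ∉ F} ⊆ ⋃ j ∈ E, {w : HW | wt w = j ∧ w ∉ F} := by
    rintro w ⟨hw1, hw2⟩
    rw [Set.mem_iUnion₂]
    exact ⟨wt w, hw1, rfl, hw2⟩
  have h2 : (⋃ j ∈ E, {w : HW | wt w = j ∧ w ∉ F}).Finite := by
    apply Set.Finite.biUnion (Finset.finite_toSet _)
    intro j _
    exact (finite_wt j).subset (fun w hw => hw.1)
  exact (Set.ncard_le_ncard h1 h2).trans (Finset.set_ncard_biUnion_le _ _)

/-- Dyadically unbounded weights and words outside an exponentially thin set. -/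
theorem injective_of_thick (b : Basis HW ℚ H) (h1 : b w0 = 1)
    (hmul : ∀ u v : HW, b u * b v ∈ Hk b (wt u + wt v)) (per : H →ₐ[ℚ] ℝ)
    (K : Set ℕ) (hK : DyadicUnbounded K) (F : Set HW) (C θ : ℝ) (hC : 0 ≤ C) (hθ1 : 1 ≤ θ)
    (hθ3 : θ ^ 3 < θ + 1)
    (hF : ∀ k, ({w : HW | wt w = k ∧ w ∉ F}.ncard : ℝ) ≤ C * θ ^ k)
    (hind : LinearIndependent ℚ (fun w : {w : HW // w ∈ F ∧ wt w ∈ K} => per (b w))) :
    Function.Injective per := by
  classical
  apply injective_of_windows b per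
  intro N h hh hper
  obtain ⟨θ', hθ', hθ'3⟩ := exists_larger θ hθ1 hθ3
  have hθ'1 : 1 ≤ θ' := hθ1.trans hθ'.le
  have hθ0 : 0 < θ := by linarith
  have hθ'0 : 0 < θ' := by linarith
  obtain ⟨A, hA⟩ : ∃ A : ℝ, A = θ * θ' ^ (3 * N + 8) := ⟨_, rfl⟩
  have hA0 : 0 < A := by rw [hA]; positivity
  have hq : 1 < θ' / θ := by rwa [one_lt_div hθ0]
  obtain ⟨C', hC'⟩ := pow_unbounded_of_one_lt ((C + 1) * 2 * A) hq
  obtain ⟨k, δ, hk, hcard⟩ := hK.window (N + 1) (C' + 3 * N + 10)
  have hexp : (C' + 3 * N + 10) * (δ + 1) =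
    C' * (δ + 1) + (3 * N + 2) * δ + 8 * δ + 3 * N + 10 := by ring
  obtain ⟨c, hc⟩ : ∃ c, c = k - (3 * N + 2) * δ - 2 := ⟨_, rfl⟩
  have hck : (3 * N + 2) * δ + c + 2 ≤ k := by omega
  have hc6 : 6 ≤ c := by omega
  refine window_criterion b h1 hmul per N k δ c (K ∩ Set.Icc k (k + δ)) F Set.inter_subset_right
    hcard hck ?_ ?_ h hh hper
  · have h2 : ({w : HW | wt w ∈ K ∩ Set.Icc k (k + δ) ∧ w ∉ F}.ncard : ℝ) ≤
        C * ((δ + 1 : ℕ) : ℝ) * θ ^ (k + δ) := by
      have h3 : {w : HW | wt w ∈ K ∩ Set.Icc k (k + δ) ∧ w ∉ F}.ncard ≤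
          ∑ j ∈ Finset.Icc k (k + δ), {w : HW | wt w = j ∧ w ∉ F}.ncard := by
        refine le_trans ?_ (ncard_biUnion_wt_le (Finset.Icc k (k + δ)) F)
        refine Set.ncard_le_ncard ?_ ?_
        · rintro w ⟨hw1, hw2⟩
          refine ⟨?_, hw2⟩
          rw [Finset.mem_Icc]
          exact hw1.2
        · have : {w : HW | wt w ∈ Finset.Icc k (k + δ) ∧ w ∉ F} ⊆
              ⋃ j ∈ Finset.Icc k (k + δ), {w : HW | wt w = j} := by
            rintro w ⟨hw1, _⟩
            rw [Set.mem_iUnion₂]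
            exact ⟨wt w, hw1, rfl⟩
          exact (Set.Finite.biUnion (Finset.finite_toSet _) (fun j _ => finite_wt j)).subset this
      calc ({w : HW | wt w ∈ K ∩ Set.Icc k (k + δ) ∧ w ∉ F}.ncard : ℝ)
          ≤ ∑ j ∈ Finset.Icc k (k + δ), ({w : HW | wt w = j ∧ w ∉ F}.ncard : ℝ) := by
            exact_mod_cast h3
        _ ≤ ∑ j ∈ Finset.Icc k (k + δ), C * θ ^ (k + δ) := by
            refine Finset.sum_le_sum (fun j hj => (hF j).trans ?_)
            exact mul_le_mul_of_nonneg_left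
              (pow_le_pow_right₀ hθ1 (Finset.mem_Icc.mp hj).2) hC
        _ = C * ((δ + 1 : ℕ) : ℝ) * θ ^ (k + δ) := by
            rw [Finset.sum_const, Nat.card_Icc, nsmul_eq_mul,
              show k + δ + 1 - k = δ + 1 by omega]
            ring
    have h4 : C * ((δ + 1 : ℕ) : ℝ) * θ ^ (k + δ) < dk c := by
      have hg := dk_growth θ' hθ'1 hθ'3 c (by omega)
      -- `θ' ^ c ≤ θ' ^ 4 * dk c`
      have e1 : C * ((δ + 1 : ℕ) : ℝ) * θ ^ (k + δ) * θ' ^ 4 < θ' ^ c := by
        have e2 : ((δ + 1 : ℕ) : ℝ) ≤ 2 ^ (δ + 1) := by exact_mod_cast Nat.lt_two_pow_self.le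
        have e3 : (C + 1) ≤ (C + 1) ^ (δ + 1) := le_self_pow₀ (by linarith) (by omega)
        have e4 : C * ((δ + 1 : ℕ) : ℝ) < (C + 1) ^ (δ + 1) * 2 ^ (δ + 1) := by
          have : C * ((δ + 1 : ℕ) : ℝ) < (C + 1) * ((δ + 1 : ℕ) : ℝ) := by
            apply mul_lt_mul_of_pos_right (by linarith)
            positivity
          refine this.trans_le ?_
          exact mul_le_mul e3 e2 (by positivity) (by positivity)
        have e5 : ((C + 1) * 2 * A) ^ (δ + 1) < (θ' / θ) ^ k := by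
          calc ((C + 1) * 2 * A) ^ (δ + 1) < ((θ' / θ) ^ C') ^ (δ + 1) :=
                pow_lt_pow_left₀ hC' (by positivity) (by omega)
            _ = (θ' / θ) ^ (C' * (δ + 1)) := by rw [← pow_mul]
            _ ≤ (θ' / θ) ^ k := pow_le_pow_right₀ hq.le (by omega)
        have e6 : (C + 1) ^ (δ + 1) * 2 ^ (δ + 1) * A ^ (δ + 1) * θ ^ k < θ' ^ k := by
          rw [← mul_pow, ← mul_pow]
          rw [div_pow, lt_div_iff₀ (by positivity)] at e5
          exact e5
        have e7 : θ ^ (k + δ) * θ' ^ 4 * θ' ^ (k - c) ≤ A ^ (δ + 1) * θ ^ k := by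
          have hkc : k - c = (3 * N + 2) * δ + 2 := by omega
          rw [hkc, hA, mul_pow, ← pow_mul]
          have e8 : θ ^ (k + δ) ≤ θ ^ k * θ ^ (δ + 1) := by
            rw [← pow_add]
            exact pow_le_pow_right₀ hθ1 (by omega)
          have e9 : θ' ^ 4 * θ' ^ ((3 * N + 2) * δ + 2) ≤ θ' ^ ((3 * N + 8) * (δ + 1)) := by
            rw [← pow_add]
            apply pow_le_pow_right₀ hθ'1
            nlinarith
          calc θ ^ (k + δ) * θ' ^ 4 * θ' ^ ((3 * N + 2) * δ + 2)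
              = θ ^ (k + δ) * (θ' ^ 4 * θ' ^ ((3 * N + 2) * δ + 2)) := by ring
            _ ≤ (θ ^ k * θ ^ (δ + 1)) * θ' ^ ((3 * N + 8) * (δ + 1)) :=
                mul_le_mul e8 e9 (by positivity) (by positivity)
            _ = θ ^ (δ + 1) * θ' ^ ((3 * N + 8) * (δ + 1)) * θ ^ k := by ring
        have e10 : θ' ^ k = θ' ^ c * θ' ^ (k - c) := by
          rw [← pow_add]
          congr 1
          omega
        have e11 : C * ((δ + 1 : ℕ) : ℝ) * θ ^ (k + δ) * θ' ^ 4 * θ' ^ (k - c) <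
            θ' ^ c * θ' ^ (k - c) := by
          rw [← e10]
          calc C * ((δ + 1 : ℕ) : ℝ) * θ ^ (k + δ) * θ' ^ 4 * θ' ^ (k - c)
              = C * ((δ + 1 : ℕ) : ℝ) * (θ ^ (k + δ) * θ' ^ 4 * θ' ^ (k - c)) := by ring
            _ ≤ ((C + 1) ^ (δ + 1) * 2 ^ (δ + 1)) * (A ^ (δ + 1) * θ ^ k) :=
                mul_le_mul e4.le e7 (by positivity) (by positivity)
            _ = (C + 1) ^ (δ + 1) * 2 ^ (δ + 1) * A ^ (δ + 1) * θ ^ k := by ring
            _ < θ' ^ k := e6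
        exact lt_of_mul_lt_mul_right e11 (by positivity)
      have e12 : C * ((δ + 1 : ℕ) : ℝ) * θ ^ (k + δ) * θ' ^ 4 < (dk c : ℝ) * θ' ^ 4 := by
        calc _ < θ' ^ c := e1
          _ ≤ θ' ^ 4 * dk c := hg
          _ = (dk c : ℝ) * θ' ^ 4 := by ring
      exact lt_of_mul_lt_mul_right e12 (by positivity)
    exact_mod_cast h2.trans_lt h4
  · exact hind.comp (fun w : {w : HW // w ∈ F ∧ wt w ∈ K ∩ Set.Icc k (k + δ)} =>
      (⟨w, w.2.1, w.2.2.1⟩ : {w : HW // w ∈ F ∧ wt w ∈ K}))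
      (fun u v huv => Subtype.ext (congrArg
        (fun z : {w : HW // w ∈ F ∧ wt w ∈ K} => (z : HW)) huv))

/-- All weights and one hundred percent of the words. -/
theorem injective_of_density (b : Basis HW ℚ H) (h1 : b w0 = 1)
    (hmul : ∀ u v : HW, b u * b v ∈ Hk b (wt u + wt v)) (per : H →ₐ[ℚ] ℝ) (F : Set HW)
    (hF : Tendsto (fun k => ({w : HW | wt w = k ∧ w ∉ F}.ncard : ℝ) / dk k) atTop (𝓝 0))
    (hind : LinearIndependent ℚ (fun w : F => per (b w))) :
    Function.Injective per := by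
  classical
  apply injective_of_windows b per
  intro N h hh hper
  obtain ⟨B, hB⟩ : ∃ B : ℕ, B = 2 ^ (N + (3 * N + 2) * N + 2) := ⟨_, rfl⟩
  have hB0 : 0 < B := by rw [hB]; positivity
  have hε : (0 : ℝ) < 1 / ((N + 1 : ℕ) * B) := by positivity
  have hev := hF.eventually (gt_mem_nhds hε)
  obtain ⟨k0, hk0⟩ := eventually_atTop.mp hev
  obtain ⟨k, hk⟩ : ∃ k, k = k0 + (3 * N + 2) * N + 4 := ⟨_, rfl⟩
  refine window_criterion b h1 hmul per N k N (k0 + 2) (Set.Icc k (k + N)) F subset_rfl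
    ?_ (by omega) ?_ ?_ h hh hper
  · rw [← Finset.coe_Icc, Set.ncard_coe_finset, Nat.card_Icc]
    omega
  · have hd0 : 0 < dk (k0 + 2) := dk_pos _ (by omega)
    have h2 : ({w : HW | wt w ∈ Set.Icc k (k + N) ∧ w ∉ F}.ncard : ℝ) < dk (k0 + 2) := by
      have h3 : {w : HW | wt w ∈ Set.Icc k (k + N) ∧ w ∉ F}.ncard ≤
          ∑ j ∈ Finset.Icc k (k + N), {w : HW | wt w = j ∧ w ∉ F}.ncard := by
        have := ncard_biUnion_wt_le (Finset.Icc k (k + N)) F
        simpa only [← Finset.coe_Icc, Finset.mem_coe] using this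
      calc ({w : HW | wt w ∈ Set.Icc k (k + N) ∧ w ∉ F}.ncard : ℝ)
          ≤ ∑ j ∈ Finset.Icc k (k + N), ({w : HW | wt w = j ∧ w ∉ F}.ncard : ℝ) := by
            exact_mod_cast h3
        _ < ∑ j ∈ Finset.Icc k (k + N), (dk (k0 + 2) : ℝ) / (N + 1 : ℕ) := by
            apply Finset.sum_lt_sum_of_nonempty
            · exact ⟨k, by rw [Finset.mem_Icc]; omega⟩
            · intro j hj
              rw [Finset.mem_Icc] at hj
              have h4 := hk0 j (by omega)
              have hdj : 0 < dk j := dk_pos _ (by omega)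
              have hdj' : (0 : ℝ) < dk j := by exact_mod_cast hdj
              rw [div_lt_iff₀ hdj'] at h4
              have h5 : dk j ≤ B * dk (k0 + 2) := by
                have h6 := dk_add_le (k0 + 2) (j - (k0 + 2)) (by omega)
                rw [show k0 + 2 + (j - (k0 + 2)) = j by omega] at h6
                refine h6.trans (Nat.mul_le_mul_right _ ?_)
                rw [hB]
                exact Nat.pow_le_pow_right (by norm_num) (by omega)
              have h7 : (dk j : ℝ) ≤ B * dk (k0 + 2) := by exact_mod_cast h5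
              calc ({w : HW | wt w = j ∧ w ∉ F}.ncard : ℝ) < 1 / ((N + 1 : ℕ) * B) * dk j := h4
                _ ≤ 1 / ((N + 1 : ℕ) * B) * (B * dk (k0 + 2)) :=
                    mul_le_mul_of_nonneg_left h7 hε.le
                _ = (dk (k0 + 2) : ℝ) / (N + 1 : ℕ) := by
                    have hB0' : (B : ℝ) ≠ 0 := by positivity
                    field_simp
        _ = dk (k0 + 2) := by
            rw [Finset.sum_const, Nat.card_Icc, nsmul_eq_mul, show k + N + 1 - k = N + 1 by omega]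
            field_simp
    exact_mod_cast h2
  · exact hind.comp (fun w : {w : HW // w ∈ F ∧ wt w ∈ Set.Icc k (k + N)} => (⟨w, w.2.1⟩ : F))
      (fun u v huv => Subtype.ext (congrArg (fun z : F => (z : HW)) huv))

lemma ncard_wt_le (X : ℕ) : {w : HW | wt w ≤ X}.Finite ∧ {w : HW | wt w ≤ X}.ncard ≤ Dk X := by
  have h1 : {w : HW | wt w ≤ X} = ⋃ j ∈ Finset.range (X + 1), {w : HW | wt w = j} := by
    ext w
    rw [Set.mem_iUnion₂]
    constructor
    · intro hw
      have hw' : wt w ≤ X := hw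
      exact ⟨wt w, Finset.mem_range.mpr (by omega), rfl⟩
    · rintro ⟨j, hj, hw⟩
      have hw' : wt w = j := hw
      have := Finset.mem_range.mp hj
      change wt w ≤ X
      omega
  constructor
  · rw [h1]
    exact Set.Finite.biUnion (Finset.finite_toSet _) (fun j _ => finite_wt j)
  · rw [h1]
    refine (Finset.set_ncard_biUnion_le _ _).trans (le_of_eq ?_)
    unfold Dk
    exact Finset.sum_congr rfl (fun j _ => ncard_wt j)

/-- Asymptotically full dimension along a sequence of weights. -/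
theorem injective_of_limsup (b : Basis HW ℚ H) (h1 : b w0 = 1)
    (hmul : ∀ u v : HW, b u * b v ∈ Hk b (wt u + wt v)) (per : H →ₐ[ℚ] ℝ)
    (hd : ∀ ε : ℝ, 0 < ε → ∀ X0 : ℕ, ∃ X, X0 ≤ X ∧ (1 - ε) * (Dk X : ℝ) ≤
      finrank ℚ (Submodule.span ℚ (Set.range (fun w : {w : HW // wt w ≤ X} => per (b w))))) :
    Function.Injective per := by
  classical
  apply injective_of_windows b per
  intro N h hh hper
  obtain ⟨B, hB⟩ : ∃ B : ℕ, B = 2 ^ (N + (3 * N + 2) * N + 2) := ⟨_, rfl⟩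
  have hB0 : 0 < B := by rw [hB]; positivity
  obtain ⟨X, hX0, hX⟩ := hd (1 / (10 * B)) (by positivity) (N + (3 * N + 2) * N + 4)
  obtain ⟨k, hk⟩ : ∃ k, k = X - N := ⟨_, rfl⟩
  obtain ⟨c, hc⟩ : ∃ c, c = k - (3 * N + 2) * N - 2 := ⟨_, rfl⟩
  obtain ⟨κ, a, ha, hspan, hli⟩ :=
    exists_linearIndependent' ℚ (fun w : {w : HW // wt w ≤ X} => per (b w))
  have hfin := (ncard_wt_le X).1
  have : Finite {w : HW // wt w ≤ X} := hfin
  have : Finite κ := Finite.of_injective a ha
  have := Fintype.ofFinite κ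
  have hcardκ : finrank ℚ (Submodule.span ℚ
      (Set.range (fun w : {w : HW // wt w ≤ X} => per (b w)))) = Fintype.card κ := by
    rw [← hspan]
    exact finrank_span_eq_card hli
  let F : Set HW := Set.range (fun i => (a i : HW))
  have hFncard : F.ncard = Fintype.card κ := by
    have hinj : Function.Injective (fun i => (a i : HW)) := Subtype.val_injective.comp ha
    change (Set.range (fun i => (a i : HW))).ncard = Fintype.card κ
    rw [← Set.image_univ, hinj.injOn.ncard_image, Set.ncard_univ, Nat.card_eq_fintype_card]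
  have hFsub : F ⊆ {w : HW | wt w ≤ X} := by
    rintro _ ⟨i, rfl⟩
    exact (a i).2
  refine window_criterion b h1 hmul per N k N c (Set.Icc k (k + N)) F subset_rfl
    ?_ (by omega) ?_ ?_ h hh hper
  · rw [← Finset.coe_Icc, Set.ncard_coe_finset, Nat.card_Icc]
    omega
  · have hsub : {w : HW | wt w ∈ Set.Icc k (k + N) ∧ w ∉ F} ⊆ {w : HW | wt w ≤ X} \ F := by
      rintro w ⟨hw1, hw2⟩
      refine ⟨?_, hw2⟩
      have := hw1.2
      change wt w ≤ X
      omega
    have h2 := Set.ncard_le_ncard hsub (hfin.subset Set.sdiff_subset)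
    have h3 := Set.ncard_sdiff_add_ncard_of_subset hFsub hfin
    have h4 := (ncard_wt_le X).2
    have h5 : {w : HW | wt w ∈ Set.Icc k (k + N) ∧ w ∉ F}.ncard + Fintype.card κ ≤ Dk X := by
      omega
    have h6 : ({w : HW | wt w ∈ Set.Icc k (k + N) ∧ w ∉ F}.ncard : ℝ) ≤
        1 / (10 * B) * Dk X := by
      rw [hcardκ] at hX
      have : ({w : HW | wt w ∈ Set.Icc k (k + N) ∧ w ∉ F}.ncard : ℝ) + Fintype.card κ ≤ Dk X := by
        exact_mod_cast h5
      nlinarith
    have h7 : Dk X + 1 ≤ 5 * dk X := Dk_le X (by omega)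
    have h8 : dk X ≤ B * dk c := by
      have h9 := dk_add_le c (X - c) (by omega)
      rw [show c + (X - c) = X by omega] at h9
      refine h9.trans (Nat.mul_le_mul_right _ ?_)
      rw [hB]
      exact Nat.pow_le_pow_right (by norm_num) (by omega)
    have hd0 : 0 < dk c := dk_pos _ (by omega)
    have h10 : (Dk X : ℝ) ≤ 5 * (B * dk c) := by
      have : Dk X ≤ 5 * (B * dk c) := by omega
      exact_mod_cast this
    have h11 : ({w : HW | wt w ∈ Set.Icc k (k + N) ∧ w ∉ F}.ncard : ℝ) < dk c := by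
      have hB0' : (0 : ℝ) < B := by exact_mod_cast hB0
      have hd0' : (0 : ℝ) < dk c := by exact_mod_cast hd0
      calc _ ≤ 1 / (10 * B) * (Dk X : ℝ) := h6
        _ ≤ 1 / (10 * B) * (5 * (B * dk c)) := mul_le_mul_of_nonneg_left h10 (by positivity)
        _ = dk c / 2 := by field_simp; norm_num
        _ < dk c := by linarith
    exact_mod_cast h11
  · have hli' : LinearIndependent ℚ (fun w : F => per (b w)) := by
      have hli2 := hli
      have h12 : (fun i => per (b (a i))) = (fun w : F => per (b w)) ∘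
          (fun i : κ => (⟨(a i : HW), ⟨i, rfl⟩⟩ : F)) := rfl
      have hbij : Function.Bijective (fun i : κ => (⟨(a i : HW), ⟨i, rfl⟩⟩ : F)) := by
        constructor
        · intro i j hij
          have h13 : (a i : HW) = a j := congrArg (fun z : F => (z : HW)) hij
          exact ha (Subtype.ext h13)
        · rintro ⟨_, ⟨i, rfl⟩⟩
          exact ⟨i, rfl⟩
      have h14 : LinearIndependent ℚ ((fun w : F => per (b w)) ∘ (Equiv.ofBijective _ hbij)) := hli2
      exact (linearIndependent_equiv (Equiv.ofBijective _ hbij)).mp h14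
    exact hli'.comp (fun w : {w : HW // w ∈ F ∧ wt w ∈ Set.Icc k (k + N)} => (⟨w, w.2.1⟩ : F))
      (fun u v huv => Subtype.ext (congrArg (fun z : F => (z : HW)) huv))

end

end MPe54452
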