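import Pool.Agent.Lib.MP_e54452_nt.Slice
import Pool.Agent.Lib.MP_e54452_nt.AllButOne
import Pool.Agent.Lib.MP_e54452_nt.Ratio
import Pool.Agent.Lib.MP_e54452_nt.DimRatio

namespace MPe54452

open Polynomial Module

section

variable {H : Type*} [CommRing H] [Algebra ℚ H]

/-- The values of `per` on elements of weight `k`. -/
noncomputable def Vk (b : Basis HW ℚ H) (per : H →ₐ[ℚ] ℝ) (k : ℕ) : Submodule ℚ ℝ :=
  (Hk b k).map per.toLinearMap

lemma per_mem_Vk (b : Basis HW ℚ H) (per : H →ₐ[ℚ] ℝ) (k : ℕ) (x : H) (hx : x ∈ Hk b k) :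
    per x ∈ Vk b per k := ⟨x, hx, rfl⟩

lemma Vk_one (b : Basis HW ℚ H) (hb1 : b w0 = 1) (per : H →ₐ[ℚ] ℝ) : (1 : ℝ) ∈ Vk b per 0 := by
  rw [← map_one per, ← hb1]
  exact per_mem_Vk b per 0 _ (basis_mem_Hk b w0)

lemma Vk_mul (b : Basis HW ℚ H) (hmul : ∀ u v : HW, b u * b v ∈ Hk b (wt u + wt v))
    (per : H →ₐ[ℚ] ℝ) (k l : ℕ) (x y : ℝ) (hx : x ∈ Vk b per k) (hy : y ∈ Vk b per l) :
    x * y ∈ Vk b per (k + l) := by
  obtain ⟨u, hu, rfl⟩ := hx
  obtain ⟨v, hv, rfl⟩ := hy
  exact ⟨u * v, Hk_mul b hmul _ _ _ _ hu hv, map_mul per u v⟩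

/-- Injectivity gives independence of the weight pieces. -/
lemma indep_of_injective (b : Basis HW ℚ H) (per : H →ₐ[ℚ] ℝ) (hinj : Function.Injective per) :
    iSupIndep (Vk b per) := by
  rw [iSupIndep_iff_poly]
  intro p hpV hp1
  choose h hh hhp using hpV
  obtain ⟨q, hq⟩ : ∃ q : H[X], q = ∑ k ∈ p.support, C (h k) * X ^ k := ⟨_, rfl⟩
  have hqcoeff : ∀ k, q.coeff k = if k ∈ p.support then h k else 0 := by
    intro k
    rw [hq, finsetSum_coeff]
    split_ifs with hk
    · rw [Finset.sum_eq_single k]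
      · rw [coeff_C_mul, coeff_X_pow, if_pos rfl, mul_one]
      · intro i _ hij
        rw [coeff_C_mul, coeff_X_pow, if_neg (fun h => hij h.symm), mul_zero]
      · intro hc
        exact absurd hk hc
    · refine Finset.sum_eq_zero (fun i hi => ?_)
      rw [coeff_C_mul, coeff_X_pow, if_neg, mul_zero]
      rintro rfl
      exact hk hi
  have hqper : per (q.eval 1) = 0 := by
    rw [← hp1, hq, eval_finsetSum, map_sum, eval_eq_sum, sum_def]
    refine Finset.sum_congr rfl (fun k _ => ?_)
    simp only [eval_mul, eval_C, eval_pow, eval_X, one_pow, mul_one]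
    exact hhp k
  have hq1 : q.eval 1 = 0 := hinj (by rw [hqper, map_zero])
  have hq0 : q = 0 := by
    by_contra hne
    refine eval_ne_zero_of_homog b 0 q (fun _ _ => Nat.zero_le _) (fun k _ => ?_) hne hq1
    rw [Nat.sub_zero, hqcoeff]
    split_ifs
    · exact hh k
    · exact Submodule.zero_mem _
  ext k
  rw [coeff_zero]
  by_contra hne
  have hk : k ∈ p.support := mem_support_iff.mpr hne
  have h2 := hqcoeff k
  rw [hq0, coeff_zero, if_pos hk] at h2
  apply hne
  rw [← hhp k, ← h2]
  exact map_zero _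

/-- Independence of the weight pieces: a relation holds weight by weight. -/
lemma per_coeff_eq_zero (b : Basis HW ℚ H) (per : H →ₐ[ℚ] ℝ) (hind : iSupIndep (Vk b per))
    (p : H[X]) (hp : ∀ k, p.coeff k ∈ Hk b k) (hp1 : per (p.eval 1) = 0) (k : ℕ) :
    per (p.coeff k) = 0 := by
  rw [iSupIndep_iff_poly] at hind
  have h1 := hind (p.map (per : H →+* ℝ)) (fun k => by
    rw [coeff_map]
    exact per_mem_Vk b per k _ (hp k)) (by
    rw [eval_map, eval₂_eq_sum, sum_def]
    rw [eval_eq_sum, sum_def, map_sum] at hp1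
    rw [← hp1]
    refine Finset.sum_congr rfl (fun j _ => ?_)
    rw [map_mul, map_pow, map_one]
    rfl)
  have h2 := congrArg (fun q => q.coeff k) h1
  simp only [coeff_map, coeff_zero] at h2
  exact h2

variable (b : Basis HW ℚ H) (D : ℕ → Derivation ℚ H H)

lemma D_mem (hD : ∀ r w, D r (b w) ∈ Submodule.span ℚ (b '' {v | wt v + (2 * r + 3) = wt w}))
    (r k : ℕ) (x : H) (hx : x ∈ Hk b k) :
    D r x ∈ Submodule.span ℚ (b '' {v | wt v + (2 * r + 3) = k}) := by
  unfold Hk at hx
  induction hx using Submodule.span_induction with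
  | mem x hx =>
    obtain ⟨w, hw, rfl⟩ := hx
    have hw' : wt w = k := hw
    rw [← hw']
    exact hD r w
  | zero => rw [map_zero]; exact Submodule.zero_mem _
  | add x y _ _ hx hy => rw [map_add]; exact Submodule.add_mem _ hx hy
  | smul q x _ hx => rw [(D r).map_smul]; exact Submodule.smul_mem _ _ hx

lemma D_mem_Hk (hD : ∀ r w, D r (b w) ∈ Submodule.span ℚ (b '' {v | wt v + (2 * r + 3) = wt w}))
    (r k : ℕ) (x : H) (hx : x ∈ Hk b k) (hk : 2 * r + 3 ≤ k) :
    D r x ∈ Hk b (k - (2 * r + 3)) := by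
  have h1 := D_mem b D hD r k x hx
  refine Submodule.span_mono (Set.image_mono ?_) h1
  intro v hv
  have hv' : wt v + (2 * r + 3) = k := hv
  change wt v = k - (2 * r + 3)
  omega

lemma D_zero (hD : ∀ r w, D r (b w) ∈ Submodule.span ℚ (b '' {v | wt v + (2 * r + 3) = wt w}))
    (r k : ℕ) (x : H) (hx : x ∈ Hk b k) (hk : k < 2 * r + 3) : D r x = 0 := by
  have h1 := D_mem b D hD r k x hx
  have h2 : {v : HW | wt v + (2 * r + 3) = k} = ∅ := by
    ext v
    simp only [Set.mem_ofPred_eq, Set.mem_empty_iff_false, iff_false]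
    omega
  rw [h2, Set.image_empty, Submodule.span_empty, Submodule.mem_bot] at h1
  exact h1

/-- Each `D r` lowers the weight. -/
lemma D_drop (hD : ∀ r w, D r (b w) ∈ Submodule.span ℚ (b '' {v | wt v + (2 * r + 3) = wt w}))
    (r n : ℕ) (x : H) (hx : x ∈ HX b n) :
    D r x ∈ Submodule.span ℚ (b '' {v | wt v + (2 * r + 3) ≤ n}) := by
  unfold HX at hx
  induction hx using Submodule.span_induction with
  | mem x hx =>
    obtain ⟨w, hw, rfl⟩ := hx
    have hw' : wt w ≤ n := hw
    refine Submodule.span_mono (Set.image_mono ?_) (hD r w)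
    intro v hv
    have hv' : wt v + (2 * r + 3) = wt w := hv
    change wt v + (2 * r + 3) ≤ n
    omega
  | zero => rw [map_zero]; exact Submodule.zero_mem _
  | add x y _ _ hx hy => rw [map_add]; exact Submodule.add_mem _ hx hy
  | smul q x _ hx => rw [(D r).map_smul]; exact Submodule.smul_mem _ _ hx

lemma D_drop_zero
    (hD : ∀ r w, D r (b w) ∈ Submodule.span ℚ (b '' {v | wt v + (2 * r + 3) = wt w}))
    (r n : ℕ) (x : H) (hx : x ∈ HX b n) (hn : n < 2 * r + 3) : D r x = 0 := by
  have h1 := D_drop b D hD r n x hx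
  have h2 : {v : HW | wt v + (2 * r + 3) ≤ n} = ∅ := by
    ext v
    simp only [Set.mem_ofPred_eq, Set.mem_empty_iff_false, iff_false]
    omega
  rw [h2, Set.image_empty, Submodule.span_empty, Submodule.mem_bot] at h1
  exact h1

lemma D_drop_HX (hD : ∀ r w, D r (b w) ∈ Submodule.span ℚ (b '' {v | wt v + (2 * r + 3) = wt w}))
    (r n : ℕ) (x : H) (hx : x ∈ HX b (n + 1)) : D r x ∈ HX b n := by
  refine Submodule.span_mono (Set.image_mono ?_) (D_drop b D hD r (n + 1) x hx)
  intro v hv
  have hv' : wt v + (2 * r + 3) ≤ n + 1 := hv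
  change wt v ≤ n
  omega

lemma mem_HX_self (x : H) : x ∈ HX b (hpoly b x).natDegree := (mem_HX_iff b _ x).mpr le_rfl

lemma HX_mono {m n : ℕ} (h : m ≤ n) : HX b m ≤ HX b n := by
  refine Submodule.span_mono (Set.image_mono ?_)
  intro v hv
  have hv' : wt v ≤ m := hv
  change wt v ≤ n
  omega

lemma D_support (hD : ∀ r w, D r (b w) ∈ Submodule.span ℚ (b '' {v | wt v + (2 * r + 3) = wt w}))
    (n : ℕ) (x : H) (hx : x ∈ HX b n) : ∑ᶠ r, D r x = ∑ r ∈ Finset.range n, D r x := by
  apply finsum_eq_sum_of_support_subset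
  intro r hr
  rw [Function.mem_support] at hr
  rw [Finset.coe_range, Set.mem_Iio]
  by_contra hc
  exact hr (D_drop_zero b D hD r n x hx (by omega))

/-- The total derivation, the sum of all `D r`. -/
noncomputable def Dsum
    (hD : ∀ r w, D r (b w) ∈ Submodule.span ℚ (b '' {v | wt v + (2 * r + 3) = wt w})) :
    Derivation ℚ H H :=
  Derivation.mk'
    { toFun := fun x => ∑ᶠ r, D r x
      map_add' := by
        intro x y
        obtain ⟨n, hn⟩ : ∃ n, n = max (hpoly b x).natDegree (hpoly b y).natDegree := ⟨_, rfl⟩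
        have hx : x ∈ HX b n := HX_mono b (by omega) (mem_HX_self b x)
        have hy : y ∈ HX b n := HX_mono b (by omega) (mem_HX_self b y)
        rw [D_support b D hD n x hx, D_support b D hD n y hy,
          D_support b D hD n _ ((HX b n).add_mem hx hy), ← Finset.sum_add_distrib]
        exact Finset.sum_congr rfl (fun r _ => map_add _ _ _)
      map_smul' := by
        intro c x
        have hx := mem_HX_self b x
        rw [D_support b D hD _ x hx, D_support b D hD _ _ ((HX b _).smul_mem c hx),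
          RingHom.id_apply, Finset.smul_sum]
        exact Finset.sum_congr rfl (fun r _ => (D r).map_smul c x) }
    (by
      intro x y
      obtain ⟨n, hn⟩ : ∃ n, n = max (max (hpoly b x).natDegree (hpoly b y).natDegree)
        (hpoly b (x * y)).natDegree := ⟨_, rfl⟩
      have hx : x ∈ HX b n := HX_mono b (by omega) (mem_HX_self b x)
      have hy : y ∈ HX b n := HX_mono b (by omega) (mem_HX_self b y)
      have hxy : x * y ∈ HX b n := HX_mono b (by omega) (mem_HX_self b (x * y))
      change ∑ᶠ r, D r (x * y) = x • ∑ᶠ r, D r y + y • ∑ᶠ r, D r x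
      rw [D_support b D hD n x hx, D_support b D hD n y hy, D_support b D hD n _ hxy,
        Finset.smul_sum, Finset.smul_sum, ← Finset.sum_add_distrib]
      exact Finset.sum_congr rfl (fun r _ => (D r).leibniz x y))

lemma Dsum_apply
    (hD : ∀ r w, D r (b w) ∈ Submodule.span ℚ (b '' {v | wt v + (2 * r + 3) = wt w})) (x : H) :
    Dsum b D hD x = ∑ᶠ r, D r x := rfl

/-- Local nilpotency from dropping the weight. -/
lemma nilpotent_of_drop (E : Derivation ℚ H H) (hE0 : ∀ x ∈ HX b 0, E x = 0)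
    (hE : ∀ n, ∀ x ∈ HX b (n + 1), E x ∈ HX b n) (x : H) : ∃ n, E^[n] x = 0 := by
  have h : ∀ n, ∀ x ∈ HX b n, E^[n + 1] x = 0 := by
    intro n
    induction n with
    | zero =>
      intro x hx
      exact hE0 x hx
    | succ n ih =>
      intro x hx
      rw [Function.iterate_succ_apply]
      exact ih _ (hE n x hx)
  exact ⟨_, h _ x (mem_HX_self b x)⟩

lemma D_nil (hD : ∀ r w, D r (b w) ∈ Submodule.span ℚ (b '' {v | wt v + (2 * r + 3) = wt w}))
    (r : ℕ) (x : H) : ∃ n, (D r)^[n] x = 0 :=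
  nilpotent_of_drop b (D r) (fun x hx => D_drop_zero b D hD r 0 x hx (by omega))
    (fun n x hx => D_drop_HX b D hD r n x hx) x

lemma Dsum_nil (hD : ∀ r w, D r (b w) ∈ Submodule.span ℚ (b '' {v | wt v + (2 * r + 3) = wt w}))
    (x : H) : ∃ n, (Dsum b D hD)^[n] x = 0 := by
  apply nilpotent_of_drop b (Dsum b D hD)
  · intro x hx
    rw [Dsum_apply, D_support b D hD 0 x hx, Finset.range_zero, Finset.sum_empty]
  · intro n x hx
    rw [Dsum_apply, D_support b D hD (n + 1) x hx]
    exact Submodule.sum_mem _ (fun r _ => D_drop_HX b D hD r n x hx)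

/-- Homogeneous elements of `ℚ[b w2]`. -/
lemma homog_in_b2 (hb1 : b w0 = 1) (hmul : ∀ u v : HW, b u * b v ∈ Hk b (wt u + wt v))
    (k : ℕ) (x : H) (hx : x ∈ Hk b k) (q : ℚ[X]) (hq : x = aeval (b w2) q) :
    ∃ (c : ℚ) (i : ℕ), x = c • (b w2) ^ i := by
  have hpow : ∀ i : ℕ, (b w2) ^ i ∈ Hk b (2 * i) := by
    intro i
    induction i with
    | zero =>
      rw [pow_zero, ← hb1]
      exact basis_mem_Hk b w0
    | succ i ih =>
      rw [pow_succ]
      have := Hk_mul b hmul _ _ _ _ ih (basis_mem_Hk b w2)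
      exact this
  obtain ⟨p, hp⟩ : ∃ p : H[X], p = ∑ j ∈ q.support, C (q.coeff j • (b w2) ^ j) * X ^ (2 * j) :=
    ⟨_, rfl⟩
  have hpcoeff : ∀ n, p.coeff n = ∑ j ∈ q.support,
      if n = 2 * j then q.coeff j • (b w2) ^ j else 0 := by
    intro n
    rw [hp, finsetSum_coeff]
    refine Finset.sum_congr rfl (fun j _ => ?_)
    rw [coeff_C_mul, coeff_X_pow]
    split_ifs
    · rw [mul_one]
    · rw [mul_zero]
  have hpV : ∀ n, p.coeff n ∈ Hk b n := by
    intro n
    rw [hpcoeff]
    refine Submodule.sum_mem _ (fun j _ => ?_)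
    split_ifs with h
    · rw [h]
      exact Submodule.smul_mem _ _ (hpow j)
    · exact Submodule.zero_mem _
  have hp1 : p.eval 1 = x := by
    rw [hq, hp, eval_finsetSum, aeval_def, eval₂_eq_sum, sum_def]
    refine Finset.sum_congr rfl (fun j _ => ?_)
    simp only [eval_mul, eval_C, eval_pow, eval_X, one_pow, mul_one]
    rw [Algebra.smul_def]
  have heq : p = C x * X ^ k := by
    by_contra hne
    refine eval_ne_zero_of_homog b 0 (p - C x * X ^ k) (fun _ _ => Nat.zero_le _) (fun n _ => ?_)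
      (sub_ne_zero.mpr hne) ?_
    · rw [Nat.sub_zero, coeff_sub, coeff_C_mul, coeff_X_pow]
      refine (Hk b n).sub_mem (hpV n) ?_
      split_ifs with h
      · rw [mul_one, h]
        exact hx
      · rw [mul_zero]
        exact Submodule.zero_mem _
    · rw [eval_sub, hp1]
      simp
  have hxk : x = p.coeff k := by
    rw [heq, coeff_C_mul, coeff_X_pow, if_pos rfl, mul_one]
  rcases Nat.even_or_odd' k with ⟨i, hi | hi⟩
  · refine ⟨if i ∈ q.support then q.coeff i else 0, i, ?_⟩
    rw [hxk, hpcoeff]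
    split_ifs with hmem
    · rw [Finset.sum_eq_single i]
      · rw [if_pos hi]
      · intro j _ hj
        rw [if_neg (by omega)]
      · intro hc
        exact absurd hmem hc
    · rw [zero_smul]
      refine Finset.sum_eq_zero (fun j hj => ?_)
      rw [if_neg]
      intro hc
      apply hmem
      have : i = j := by omega
      rw [this]
      exact hj
  · refine ⟨0, 0, ?_⟩
    rw [zero_smul, hxk, hpcoeff]
    refine Finset.sum_eq_zero (fun j _ => ?_)
    rw [if_neg (by omega)]

end

end MPe54452
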