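import Pool.Agent.Lib.MP_e54452_nt.Transc

namespace MPe54452

open Polynomial Module

section

variable {H : Type*} [CommRing H] [IsDomain H] [Algebra ℚ H]
  (b : Basis HW ℚ H) (D : ℕ → Derivation ℚ H H)

omit [IsDomain H] in
/-- Common constants with trivial value vanish, and the kernel is stable: injectivity. -/
theorem injective_of_stable
    (hD : ∀ r w, D r (b w) ∈ Submodule.span ℚ (b '' {v | wt v + (2 * r + 3) = wt w}))
    (per : H →ₐ[ℚ] ℝ) (hst : ∀ r x, per x = 0 → per (D r x) = 0)
    (hconst : ∀ x, (∀ r, D r x = 0) → per x = 0 → x = 0) : Function.Injective per := by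
  rw [injective_iff_map_eq_zero]
  have main : ∀ n, ∀ x ∈ HX b n, per x = 0 → x = 0 := by
    intro n
    induction n with
    | zero =>
      intro x hx hper
      exact hconst x (fun r => D_drop_zero b D hD r 0 x hx (by omega)) hper
    | succ n ih =>
      intro x hx hper
      exact hconst x (fun r => ih _ (D_drop_HX b D hD r n x hx) (hst r x hper)) hper
  intro x hx
  exact main _ x (mem_HX_self b x) hx

/-- Transcendence of `π ^ 2 / 6` from that of `π`, over any subfield of the reals. -/
lemma transcendental_zeta_two {K : Type*} [Field K] [Algebra K ℝ]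
    (h : Transcendental K Real.pi) : Transcendental K (mzv [2]) := by
  intro hc
  apply h
  rw [mzv_two_eq] at hc
  have h6 : IsAlgebraic K ((6 : ℕ) : ℝ) := isAlgebraic_natCast _
  have h2 : IsAlgebraic K (Real.pi ^ 2) := by
    have h3 := hc.mul h6
    have h4 : Real.pi ^ 2 / 6 * ((6 : ℕ) : ℝ) = Real.pi ^ 2 := by
      push_cast
      ring
    rwa [h4] at h3
  exact h2.of_pow (by norm_num)

/-- First criterion: one transcendence statement for every odd weight. -/
theorem criterion_all (hb1 : b w0 = 1) (hmul : ∀ u v : HW, b u * b v ∈ Hk b (wt u + wt v))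
    (hD : ∀ r w, D r (b w) ∈ Submodule.span ℚ (b '' {v | wt v + (2 * r + 3) = wt w}))
    (hDker : ∀ x, (∀ r, D r x = 0) → ∃ q : ℚ[X], x = aeval (b w2) q)
    (z : ℕ → H) (hz : ∀ r, D r (z r) = 1)
    (per : H →ₐ[ℚ] ℝ) (hper : ∀ w : HW, per (b w) = mzv w.1) :
    Function.Injective per ↔ Transcendental ℚ Real.pi ∧
      ∀ r, Transcendental (constField per (D r)) (per (z r)) := by
  have hp2 : per (b w2) = mzv [2] := hper w2
  have hp3 : per (b w3) = mzv [3] := hper w3
  constructor
  · intro hinj
    refine ⟨?_, fun r => transc_of_inj per hinj (D r) (z r) (hz r)⟩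
    have hind := indep_of_injective b per hinj
    have ht := transcendental_of_indep (V := Vk b per) (h1 := Vk_one b hb1 per)
      (hmul := Vk_mul b hmul per) hind (k := 2) (by norm_num) (z := mzv [2])
      (by rw [← hp2]; exact per_mem_Vk b per 2 _ (basis_mem_Hk b w2))
      (mzv_single_pos 2 le_rfl).ne'
    intro hc
    apply ht
    rw [mzv_two_eq]
    obtain ⟨q, hq0, hq⟩ := hc
    have h1 : IsAlgebraic (ratioField (Vk b per) (Vk_one b hb1 per) (Vk_mul b hmul per))
        Real.pi := by
      refine ⟨q.map (algebraMap ℚ _), ?_, ?_⟩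
      · exact (Polynomial.map_ne_zero_iff (algebraMap ℚ _).injective).mpr hq0
      · rw [aeval_map_algebraMap]
        exact hq
    have h2 := h1.pow 2
    have h3 : IsAlgebraic (ratioField (Vk b per) (Vk_one b hb1 per) (Vk_mul b hmul per))
        (((6 : ℕ) : ℝ))⁻¹ := (isAlgebraic_natCast _).inv
    have h4 : Real.pi ^ 2 / 6 = Real.pi ^ 2 * (((6 : ℕ) : ℝ))⁻¹ := by
      push_cast
      ring
    rw [h4]
    exact h2.mul h3
  · rintro ⟨hpi, ht⟩
    refine injective_of_stable b D hD per (fun r x hx =>
      ker_stable per (D r) (z r) (hz r) (D_nil b D hD r) (ht r) x hx) ?_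
    intro x hx hperx
    obtain ⟨q, rfl⟩ := hDker x hx
    have h1 : aeval (mzv [2]) q = 0 := by
      rw [← hperx, ← hp2, aeval_algHom_apply]
    have h2 := transcendental_iff.mp (transcendental_zeta_two hpi) q h1
    rw [h2, map_zero]

/-- Second criterion: two transcendence statements. -/
theorem criterion_two (hb1 : b w0 = 1) (hmul : ∀ u v : HW, b u * b v ∈ Hk b (wt u + wt v))
    (hD : ∀ r w, D r (b w) ∈ Submodule.span ℚ (b '' {v | wt v + (2 * r + 3) = wt w}))
    (hDker : ∀ x, (∀ r, D r x = 0) → ∃ q : ℚ[X], x = aeval (b w2) q)
    (z0 : H) (hz0 : z0 ∈ Hk b 3) (hz : D 0 z0 = 1)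
    (per : H →ₐ[ℚ] ℝ) (hper : ∀ w : HW, per (b w) = mzv w.1) :
    Function.Injective per ↔
      Transcendental (ratioField (Vk b per) (Vk_one b hb1 per) (Vk_mul b hmul per)) Real.pi ∧
      Transcendental (constField per (Dsum b D hD)) (per z0) := by
  have hp2 : per (b w2) = mzv [2] := hper w2
  have hp3 : per (b w3) = mzv [3] := hper w3
  have hslice : Dsum b D hD z0 = 1 := by
    have hz0X : z0 ∈ HX b 3 := by
      refine Submodule.span_mono (Set.image_mono ?_) hz0
      intro v hv
      have hv' : wt v = 3 := hv
      change wt v ≤ 3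
      omega
    rw [Dsum_apply, D_support b D hD 3 z0 hz0X, Finset.sum_range_succ, Finset.sum_range_succ,
      Finset.sum_range_succ, Finset.sum_range_zero, hz,
      D_drop_zero b D hD 1 3 z0 hz0X (by norm_num), D_drop_zero b D hD 2 3 z0 hz0X (by norm_num)]
    ring
  constructor
  · intro hinj
    refine ⟨?_, transc_of_inj per hinj (Dsum b D hD) z0 hslice⟩
    have hind := indep_of_injective b per hinj
    have ht := transcendental_of_indep (V := Vk b per) (h1 := Vk_one b hb1 per)
      (hmul := Vk_mul b hmul per) hind (k := 2) (by norm_num) (z := mzv [2])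
      (by rw [← hp2]; exact per_mem_Vk b per 2 _ (basis_mem_Hk b w2))
      (mzv_single_pos 2 le_rfl).ne'
    intro hc
    apply ht
    rw [mzv_two_eq]
    have h2 := hc.pow 2
    have h3 : IsAlgebraic (ratioField (Vk b per) (Vk_one b hb1 per) (Vk_mul b hmul per))
        (((6 : ℕ) : ℝ))⁻¹ := (isAlgebraic_natCast _).inv
    have h4 : Real.pi ^ 2 / 6 = Real.pi ^ 2 * (((6 : ℕ) : ℝ))⁻¹ := by
      push_cast
      ring
    rw [h4]
    exact h2.mul h3
  · rintro ⟨hpi, ht⟩
    -- weight grading
    have hind : iSupIndep (Vk b per) :=
      indep_of_transcendental (V := Vk b per) (h1 := Vk_one b hb1 per)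
        (hmul := Vk_mul b hmul per) (x := mzv [2]) (y := mzv [3])
        (by rw [← hp2]; exact per_mem_Vk b per 2 _ (basis_mem_Hk b w2))
        (by rw [← hp3]; exact per_mem_Vk b per 3 _ (basis_mem_Hk b w3))
        (mzv_single_pos 2 le_rfl).ne' (mzv_single_pos 3 (by norm_num)).ne' (k := 2)
        (z := mzv [2])
        (by rw [← hp2]; exact per_mem_Vk b per 2 _ (basis_mem_Hk b w2))
        (transcendental_zeta_two hpi)
    have hst := ker_stable per (Dsum b D hD) z0 hslice (Dsum_nil b D hD) ht
    -- homogeneous elements
    have hhom : ∀ k, ∀ x ∈ Hk b k, per x = 0 → x = 0 := by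
      intro k
      induction k using Nat.strong_induction_on with
      | _ k ih =>
      intro x hx hperx
      have hxX : x ∈ HX b k := by
        refine Submodule.span_mono (Set.image_mono ?_) hx
        intro v hv
        have hv' : wt v = k := hv
        change wt v ≤ k
        omega
      have hDr : ∀ r, D r x = 0 := by
        intro r
        by_cases hrk : k < 2 * r + 3
        · exact D_zero b D hD r k x hx hrk
        · obtain ⟨p, hp⟩ : ∃ p : H[X], p = ∑ r ∈ Finset.range k,
            C (D r x) * X ^ (k - (2 * r + 3)) := ⟨_, rfl⟩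
          have hpcoeff : ∀ j, p.coeff j = ∑ r ∈ Finset.range k,
              if j = k - (2 * r + 3) then D r x else 0 := by
            intro j
            rw [hp, finsetSum_coeff]
            refine Finset.sum_congr rfl (fun r _ => ?_)
            rw [coeff_C_mul, coeff_X_pow]
            split_ifs
            · rw [mul_one]
            · rw [mul_zero]
          have hpV : ∀ j, p.coeff j ∈ Hk b j := by
            intro j
            rw [hpcoeff]
            refine Submodule.sum_mem _ (fun r _ => ?_)
            split_ifs with h
            · by_cases h2 : k < 2 * r + 3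
              · rw [D_zero b D hD r k x hx h2]
                exact Submodule.zero_mem _
              · rw [h]
                exact D_mem_Hk b D hD r k x hx (by omega)
            · exact Submodule.zero_mem _
          have hp1 : p.eval 1 = Dsum b D hD x := by
            rw [Dsum_apply, D_support b D hD k x hxX, hp, eval_finsetSum]
            refine Finset.sum_congr rfl (fun r _ => ?_)
            simp
          have h3 := per_coeff_eq_zero b per hind p hpV (by rw [hp1]; exact hst x hperx)
            (k - (2 * r + 3))
          have h4 : p.coeff (k - (2 * r + 3)) = D r x := by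
            rw [hpcoeff, Finset.sum_eq_single r]
            · rw [if_pos rfl]
            · intro r' _ hr'
              split_ifs with h5
              · by_cases h6 : k < 2 * r' + 3
                · exact D_zero b D hD r' k x hx h6
                · exfalso
                  apply hr'
                  omega
              · rfl
            · intro hc
              exfalso
              apply hc
              rw [Finset.mem_range]
              omega
          rw [h4] at h3
          exact ih (k - (2 * r + 3)) (by omega) _ (D_mem_Hk b D hD r k x hx (by omega)) h3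
      obtain ⟨q, hq⟩ := hDker x hDr
      obtain ⟨c, i, hci⟩ := homog_in_b2 b hb1 hmul k x hx q hq
      rw [hci, map_smul, map_pow, hp2] at hperx
      have h7 : (mzv [2]) ^ i ≠ 0 := pow_ne_zero _ (mzv_single_pos 2 le_rfl).ne'
      rcases smul_eq_zero.mp hperx with h8 | h8
      · rw [hci, h8, zero_smul]
      · exact absurd h8 h7
    rw [injective_iff_map_eq_zero]
    intro x hx
    have h9 : hpoly b x = 0 := by
      ext k
      rw [coeff_zero]
      exact hhom k _ (hpoly_mem b x k)
        (per_coeff_eq_zero b per hind (hpoly b x) (hpoly_mem b x) (by rw [hpoly_eval]; exact hx) k)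
    rw [← hpoly_eval b x, h9, eval_zero]

end

end MPe54452
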