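import Pool.Agent.Lib.MP_e54452_nt.DimRatio
import Pool.Agent.Lib.MP_e54452_nt.Cluster

namespace MPe54452

open Polynomial

section

variable {R : Type*} [CommRing R] [IsDomain R] [Algebra ℚ R]

/-- Independence of `N + 1` pieces `V e`, `e ∈ E`, in a short window far out implies independence
of `V 0, …, V N`. -/
theorem indep_window (V : ℕ → Submodule ℚ R) (h1 : (1 : R) ∈ V 0)
    (hmul : ∀ k l a b, a ∈ V k → b ∈ V l → a * b ∈ V (k + l))
    {x y : R} (hx : x ∈ V 2) (hy : y ∈ V 3) (hx0 : x ≠ 0) (hy0 : y ≠ 0)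
    (N k δ : ℕ) (E : Set ℕ) (hE : E ⊆ Set.Icc k (k + δ)) (hcard : N + 1 ≤ E.ncard)
    (hk : (3 * N + 2) * δ + 2 ≤ k) (hind : iSupIndep (fun e : E => V e)) :
    iSupIndep (fun n : Set.Iic N => V n) := by
  classical
  rw [iSupIndep_K_iff] at hind ⊢
  intro p hpV hpN hp1
  by_contra hp0
  have hdeg : p.natDegree ≤ N := by
    rw [natDegree_le_iff_coeff_eq_zero]
    intro i hi
    exact hpN i (by simpa using hi)
  have hcard' : N + 1 ≤ ((Finset.Icc k (k + δ)).filter (· ∈ E)).card := by
    rw [← Set.ncard_coe_finset]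
    refine hcard.trans (le_of_eq ?_)
    congr 1
    ext i
    simp only [Finset.coe_filter, Finset.mem_Icc, Set.mem_ofPred_eq]
    constructor
    · intro hi
      have := hE hi
      rw [Set.mem_Icc] at this
      exact ⟨this, hi⟩
    · rintro ⟨_, hi⟩
      exact hi
  obtain ⟨s, hs0, _, hsV, hsK, _⟩ := K_lemma (fun k => (V k).toAddSubgroup) h1
    (fun k l a b ha hb => hmul k l a b ha hb) hx hy hx0 hy0 p hpV N hdeg E k δ 0
    hcard' (by omega)
  have hps : p * s = 0 := by
    apply hind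
    · intro k
      rw [coeff_mul]
      refine Submodule.sum_mem _ ?_
      intro ij hij
      have hij' : ij.1 + ij.2 = k := Finset.HasAntidiagonal.mem_antidiagonal.mp hij
      rw [← hij']
      refine hmul _ _ _ _ (hpV _) ?_
      have := hsV ij.2 (Nat.zero_le _)
      simpa using this
    · exact hsK
    · rw [eval_mul, hp1, zero_mul]
  rcases mul_eq_zero.mp hps with h | h
  · exact hp0 h
  · exact hs0 h

/-- Independence over a dyadically unbounded set of degrees implies independence. -/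
theorem indep_of_dyadicUnbounded (V : ℕ → Submodule ℚ R) (h1 : (1 : R) ∈ V 0)
    (hmul : ∀ k l a b, a ∈ V k → b ∈ V l → a * b ∈ V (k + l))
    {x y : R} (hx : x ∈ V 2) (hy : y ∈ V 3) (hx0 : x ≠ 0) (hy0 : y ≠ 0)
    (K : Set ℕ) (hK : DyadicUnbounded K) (hind : iSupIndep (fun k : K => V k)) :
    iSupIndep V := by
  apply iSupIndep_of_Iic
  intro N
  obtain ⟨k, δ, hk, hcard⟩ := hK.window (N + 1) (3 * N + 4)
  refine indep_window V h1 hmul hx hy hx0 hy0 N k δ (K ∩ Set.Icc k (k + δ))
    Set.inter_subset_right hcard ?_ ?_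
  · have : (3 * N + 4) * (δ + 1) = (3 * N + 2) * δ + 2 * δ + 3 * N + 4 := by ring
    omega
  · exact hind.comp (f := fun e : (K ∩ Set.Icc k (k + δ) : Set ℕ) => (⟨e, e.2.1⟩ : K))
      (fun a b hab => Subtype.ext (congrArg (fun z : K => (z : ℕ)) hab))

end

end MPe54452
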